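import Mathlib
import Pool.Agent.Lib.P0c8ca5S.LnA
import Pool.Agent.Lib.P0c8ca5R.CardDZ
import Pool.Agent.Lib.P0c8ca5.DGN

/-!
# Invariant blocks of defect zero of a normal subgroup

`Dz.Tri p N K e`: `N ≤ K` is normalized by `K` and `e` is a `K`-invariant block of defect zero of `N`.
(The modules of P0c8ca5S, P0c8ca5Q and P0c8ca5F treat a p'-group `N`; here `N` is arbitrary.)

`e = trK N a₀`; so the coefficients of `e` vanish at the elements of `N` that are centralized by a
nontrivial p-subgroup of `N`, `x ↦ e(x⁻¹)` is a class function of `N` that is constant on the p-sections, and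
`z(1) = (e z)(1) = 0` for every nilpotent `z ∈ kNe` (`coeff_nilp`).
-/

namespace Pool.Agent.Lib.P0c8ca5.Dz

open MonoidAlgebra Ps

variable {p : ℕ} {k : Type*} [Field k] {A : Type*} [Group A]

/-- `N ≤ K` is normalized by `K` and `e` is a `K`-invariant block of defect zero of `N` -/
structure Tri (p : ℕ) (N K : Subgroup A) (e : MonoidAlgebra k A) : Prop where
  le : N ≤ K
  nm : K ≤ Subgroup.normalizer (N : Set A)
  dz : IsDZ p N e
  inv : InvBy K e

theorem Tri.blk {N K : Subgroup A} {e : MonoidAlgebra k A} (h : Tri p N K e) : IsBlock N e :=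
  h.dz.blk

theorem Tri.isDZ {N K : Subgroup A} {e : MonoidAlgebra k A} (h : Tri p N K e) : IsDZ p N e :=
  h.dz

theorem invBy_bot' (a : MonoidAlgebra k A) : InvBy (⊥ : Subgroup A) a := by
  intro g hg z
  rw [Subgroup.mem_bot.1 hg]
  simp

/-- a block of defect zero is a trace from the trivial subgroup -/
theorem exists_tr [Fact p.Prime] [CharP k p] [IsAlgClosed k] [Fintype A] {N : Subgroup A}
    {e : MonoidAlgebra k A} (h : IsDZ p N e) :
    ∃ a : MonoidAlgebra k A, SuppIn N a ∧ e * a = a ∧ e = trK N a := by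
  obtain ⟨⟨a, h1, _, h2⟩, _⟩ := dgn_tr (L := N) (D := ⊥) IsPGroup.of_bot bot_le (inf_bot_eq _) h
    (invBy_bot' e) h.blk.hasBr_bot
  refine ⟨e * a, h.blk.suppIn.mul h1, by rw [← mul_assoc, h.blk.idem], ?_⟩
  rw [mul_trK _ h.blk.invBy, ← h2, h.blk.idem]

/-- the coefficients at elements centralized by p-subgroups -/
theorem coeff_cent [Fact p.Prime] [CharP k p] [IsAlgClosed k] [Fintype A] {N : Subgroup A}
    {e : MonoidAlgebra k A} (h : IsDZ p N e) {u : A} (hu : u ∈ N) {n : ℕ} (hun : u ^ p ^ n = 1)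
    (hne : u ≠ 1) {x : A} (hx : u * x = x * u) : e.coeff x = 0 := by
  obtain ⟨a, _, _, he⟩ := exists_tr h
  rw [he]
  have hP : IsPGroup p (Subgroup.zpowers u) := by
    rintro ⟨y, hy⟩
    obtain ⟨j, rfl⟩ := Subgroup.mem_zpowers_iff.1 hy
    refine ⟨n, Subtype.ext ?_⟩
    change (u ^ j) ^ p ^ n = 1
    rw [← zpow_natCast, ← zpow_mul, mul_comm, zpow_mul, zpow_natCast, hun, one_zpow]
  refine coeff_trK_eq_zero hP ?_ ?_ a ?_
  · rwa [Subgroup.zpowers_le]
  · rwa [ne_eq, Subgroup.zpowers_eq_bot]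
  · rw [Subgroup.mem_centralizer_iff]
    intro y hy
    obtain ⟨j, rfl⟩ := Subgroup.mem_zpowers_iff.1 hy
    exact (Commute.zpow_left hx j).eq

/-- the coefficients are constant on the p-sections -/
theorem coeff_pr [Fact p.Prime] [CharP k p] [IsAlgClosed k] [Fintype A] {N : Subgroup A}
    {e : MonoidAlgebra k A} (h : IsDZ p N e) {x : A} (hx : x ∈ N) :
    e.coeff (pr p x) = e.coeff x := by
  by_cases h1 : x * (pr p x)⁻¹ = 1
  · rw [mul_inv_eq_one] at h1
    rw [← h1]
  · obtain ⟨n, hn⟩ := exists_pow_mul_inv_pr (p := p) x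
    have h2 : x * (pr p x)⁻¹ ∈ N := N.mul_mem hx (N.inv_mem (pr_mem hx))
    have h3 : Commute x (pr p x) := commute_pr (Commute.refl x)
    have h4 : Commute (x * (pr p x)⁻¹) x :=
      Commute.mul_left (Commute.refl x) h3.symm.inv_left
    have h5 : Commute (x * (pr p x)⁻¹) (pr p x) :=
      Commute.mul_left h3 (Commute.refl (pr p x)).inv_left
    rw [coeff_cent h h2 hn h1 h4.eq, coeff_cent h h2 hn h1 h5.eq]

theorem up_dn [Fintype A] {N : Subgroup A} {z : MonoidAlgebra k A} (hz : SuppIn N z) :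
    MonoidAlgebra.mapDomain N.subtype (dn N z) = z := by
  apply MonoidAlgebra.mapDomain_comapDomain
  intro x hx
  exact ⟨⟨x, hz x (Finsupp.mem_support_iff.1 hx)⟩, rfl⟩

theorem dn_nilp [Fintype A] {N : Subgroup A} {z : MonoidAlgebra k A} (hz : SuppIn N z)
    (hn : IsNilpotent z) : IsNilpotent (dn N z) := by
  have h1 : MonoidAlgebra.mapDomainRingHom k N.subtype (dn N z) = z := up_dn hz
  rw [← h1] at hn
  refine (IsNilpotent.map_iff ?_).1 hn
  exact MonoidAlgebra.mapDomain_injective N.subtype_injective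

/-- the coefficient at `1` of a nilpotent element of `kNe` -/
theorem coeff_nilp [Fact p.Prime] [CharP k p] [IsAlgClosed k] [Fintype A] {N : Subgroup A}
    {e : MonoidAlgebra k A} (h : IsDZ p N e) {z : MonoidAlgebra k A} (hz : SuppIn N z)
    (hez : e * z = z) (hn : IsNilpotent z) : z.coeff 1 = 0 := by
  classical
  set f : ↥N → k := fun x => e.coeff (x : A)⁻¹ with hf
  have hf1 : ∀ x y, f (x * y) = f (y * x) := by
    intro x y
    have h1 := h.blk.invBy (y : A) y.2 ((x : A) * y)⁻¹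
    have h2 : (y : A) * ((x : A) * y)⁻¹ * (y : A)⁻¹ = ((y : A) * x)⁻¹ := by group
    rw [h2] at h1
    exact h1.symm
  set r : ℕ := Nat.card A * Nat.totient (ordCompl[p] (Nat.card A)) with hr
  have hur : uexp p A = p ^ r := rfl
  have hr0 : 0 < r := by
    apply Nat.mul_pos Nat.card_pos
    exact Nat.totient_pos.2 (Nat.ordCompl_pos p Nat.card_pos.ne')
  have hfr : ∀ x, f (x ^ p ^ r) = f x := by
    intro x
    have h1 : ((x ^ p ^ r : ↥N) : A)⁻¹ = pr p (x : A)⁻¹ := by
      rw [pr, hur, inv_pow, Subgroup.coe_pow]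
    simp only [hf]
    rw [h1]
    exact coeff_pr h (N.inv_mem x.2)
  have : Fintype ↥N := Fintype.ofFinite _
  have h0 := ChC.Fl_nilpotent f hf1 r hr0 hfr (dn N z) (dn_nilp hz hn)
  rw [ChC.Fl_apply] at h0
  rw [← hez, coeff_mul_fin]
  have h3 : ∑ y : A, e.coeff y * z.coeff (y⁻¹ * 1)
      = ∑ x : ↥N, (dn N z).coeff x * f x := by
    have h4 : ∀ y ∈ (Finset.univ : Finset A), y ∉ (Finset.univ.filter (fun y => y ∈ N)) →
        e.coeff y * z.coeff (y⁻¹ * 1) = 0 := by
      intro y _ hy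
      have h5 : e.coeff y = 0 := by
        by_contra h6
        exact hy (Finset.mem_filter.2 ⟨Finset.mem_univ _, h.blk.suppIn y h6⟩)
      rw [h5, zero_mul]
    rw [← Finset.sum_subset (Finset.filter_subset _ _) h4]
    symm
    refine Finset.sum_bij (fun (x : ↥N) _ => (x : A)⁻¹) ?_ ?_ ?_ ?_
    · intro x _
      exact Finset.mem_filter.2 ⟨Finset.mem_univ _, N.inv_mem x.2⟩
    · intro x _ y _ hxy
      exact Subtype.ext (inv_injective hxy)
    · intro y hy
      have hyN := (Finset.mem_filter.1 hy).2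
      exact ⟨⟨y⁻¹, N.inv_mem hyN⟩, Finset.mem_univ _, inv_inv y⟩
    · intro x _
      rw [coeff_dn, inv_inv, mul_one, mul_comm]
  rw [h3, h0]

theorem central_nilp [Fact p.Prime] [CharP k p] [IsAlgClosed k] [Fintype A] {N : Subgroup A}
    {e : MonoidAlgebra k A} (h : IsDZ p N e) {z : MonoidAlgebra k A} (hz : SuppIn N z)
    (hi : InvBy N z) (hez : e * z = z) (hn : IsNilpotent z) : z = 0 := by
  classical
  by_contra hne
  obtain ⟨y, hy⟩ := exists_coeff hne
  have hyN := hz y hy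
  have hs : SuppIn N (single y⁻¹ (1 : k)) := supp_sg (N.inv_mem hyN)
  have hcomm : Commute z (single y⁻¹ (1 : k)) :=
    ((invBy_iff_commute.1 hi) y⁻¹ (N.inv_mem hyN)).symm
  have h1 : IsNilpotent (z * single y⁻¹ (1 : k)) := hcomm.isNilpotent_mul_right hn
  have h2 := coeff_nilp h (hz.mul hs) (by rw [← mul_assoc, hez]) h1
  rw [MonoidAlgebra.coeff_mul_single_apply] at h2
  apply hy
  simpa using h2

theorem Tri.scalar [Fact p.Prime] [CharP k p] [IsAlgClosed k] [Fintype A] {N K : Subgroup A}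
    {e : MonoidAlgebra k A} (h : Tri p N K e) {w : MonoidAlgebra k A} (hw : SuppIn N w)
    (hi : InvBy N w) (he : e * w = w) : ∃ c : k, w = c • e := by
  obtain ⟨l, hl⟩ := h.blk.primIdem.exists_char (k := k)
  set W : fixAlg k N N := ⟨w, mem_fixAlg.2 ⟨hw, hi⟩⟩ with hW
  set E : fixAlg k N N := ⟨e, h.blk.mem⟩ with hE
  refine ⟨l W, ?_⟩
  have hEW : E * W = W := Subtype.ext he
  have hEE : E * E = E := Subtype.ext h.blk.idem
  set Y : fixAlg k N N := W - l W • E with hY
  have hYE : Y * E = Y := by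
    rw [hY, sub_mul, smul_mul_assoc, hEE, mul_comm W E, hEW]
  have hlY : l Y = 0 := by
    rw [hY, map_sub, map_smul, hl, smul_eq_mul, mul_one, sub_self]
  have hA : IsArtinianRing (fixAlg k N N) := IsArtinianRing.of_finite k _
  have hnil : IsNilpotent Y := by
    rcases h.blk.primIdem.nilp_or_unit Y with h1 | ⟨w', h1⟩
    · rwa [hYE] at h1
    · exfalso
      have h2 : l (Y * w' * E) = l E := by rw [h1]
      rw [map_mul, map_mul, hlY, zero_mul, zero_mul, hl] at h2
      exact zero_ne_one h2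
  have h3 : IsNilpotent (Y : MonoidAlgebra k A) := by
    obtain ⟨n, hn⟩ := hnil
    exact ⟨n, by rw [← SubmonoidClass.coe_pow, hn]; rfl⟩
  have hEY : e * (Y : MonoidAlgebra k A) = Y := by
    have h4 : E * Y = Y := by rw [mul_comm, hYE]
    exact congrArg Subtype.val h4
  have h4 : (Y : MonoidAlgebra k A) = 0 :=
    central_nilp h.dz (mem_fixAlg.1 Y.2).1 (mem_fixAlg.1 Y.2).2 hEY h3
  have h5 : (Y : MonoidAlgebra k A) = w - l W • e := rfl
  rw [h5] at h4
  exact sub_eq_zero.1 h4

end Pool.Agent.Lib.P0c8ca5.Dz
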