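import Mathlib
import Pool.Agent.Lib.P0c8ca5D.Tra
import Pool.Agent.Lib.P0c8ca5S.Wgt
import Pool.Agent.Lib.P0c8ca5.LemC

/-!
# Module Wgt: the weights of `(K, e)` and of `(N_K(P), Br_P(e))`

`N` is a normal p'-subgroup of `K`, `e` a `K`-invariant block of `N`, `P ≤ K` a p-group with `N P` normal
in `K`, `H = N_K(P)`, `e_P = Br_P(e)`.

PROOF.  Let `Q ≤ K` be a p-group with `dz(N_K(Q)/Q, e) ≠ ∅`.  Then `Q ∩ N P` is a Sylow subgroup of
`N P`, so a conjugate of `P` under `N`: let `P' ≥ Q ∩ N P` be a Sylow subgroup of `N P` normalized by `Q`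
(intersection with `N P` of a Sylow subgroup of `Q N P` containing `Q`).  If `Q ∩ P' < P'` then `Q < Q P'`
and there is `z ∈ N_(P')(Q)`, `z ∉ Q`.  Let `f` be in `dz(N_K(Q)/Q, e)`, `M` the image of `N_(NP)(Q)` in
`N_K(Q)/Q`, `g` a block of `M` with `f g ≠ 0`: `g` has defect zero (`dz_down`).  `ē = proj Q e`
(`= proj Q (Br_Q e)`) is a block idempotent of the image of `C_N(Q) = N_N(Q)` (`dgn_a`, `Tri.isDZ`, and
`N ∩ Q = 1`), it is a block of `M` as well (p-group quotient, `isBlock_up'`), `g = ē`, and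
`ē.coeff 1 ≠ 0` (`Tri.coeff_one` for the image of `C_N(Q)`) shows `HasBr V ē` for all subgroups `V`:
contradiction to defect zero for the p-group `V` generated by the image of `z`.
So `Ws p K e` is the sum over the `Q` such that `Q ∩ N P` is a conjugate of `P`; all these conjugates are
conjugate under `K`, there are `|K : H|` of them, and `Ws p K e = |K : H| ∑ |N_K(Q)| |dz(N_K(Q)/Q, e)|`,
the sum over the `Q` with `Q ∩ N P = P`.  For these `Q`: `N_K(Q) = N_H(Q)` and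
`proj Q e = proj Q (Br_P e)`.  In `H` the weights of `e_P` have `Q ≥ P` (`radical`), and then
`Q ∩ N P = P` (`P` is a Sylow subgroup of `N P`).
-/

namespace Pool.Agent.Lib.P0c8ca5.Dz

open MonoidAlgebra Ps

variable {p : ℕ} {k : Type*} [Field k] {A : Type*} [Group A]

namespace WgtAux

open Ps.WgtAux (mem_cent exists_isoN coeff_proj_N tr_proj_N isPGroup_sup proj_resS card_conj)

theorem hasBr_of_proj [Fact p.Prime] [CharP k p] [Fintype A] {Q : Subgroup A} (hQ : IsPGroup p Q)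
    {c : MonoidAlgebra k A} (hc : InvBy Q c) (h : proj Q c ≠ 0) : HasBr Q c := by
  rw [hasBr_iff_br]
  intro h0
  apply h
  rw [← proj_resS hQ hc le_rfl]
  change proj Q (br Q c) = 0
  rw [h0]
  ext w
  obtain ⟨n, hn, rfl⟩ := qm_surj w
  classical
  rw [coeff_proj]
  apply Finset.sum_eq_zero
  intro x _
  split_ifs <;> rfl

/-- `proj Q e` is a block of the image of `N` -/
theorem isBlock_proj [Fact p.Prime] [CharP k p] [IsAlgClosed k] [Fintype A]
    {N K Q : Subgroup A} {e : MonoidAlgebra k A} (h : Tri p N K e) (hQK : Q ≤ K)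
    (hQ : IsPGroup p Q) (hbr : HasBr Q e) : IsBlock (sec N Q) (proj Q e) := by
  have hNQ : N ⊓ Q = ⊥ := inf_bot h hQ hbr
  have hQN : Q ≤ Subgroup.normalizer (N : Set A) := hQK.trans h.nm
  obtain ⟨ψ, hψ⟩ := exists_isoN hQN hNQ
  rw [← tr_proj_N hQN hNQ h.blk.suppIn hψ]
  apply tr_isBlock
  exact (dgn_a hQ hQN hNQ h.isDZ (h.inv.mono hQK) hbr).blk

/-- the p-subgroups of `N P` with nonzero Brauer map -/
theorem conj_of_sup [Fact p.Prime] [CharP k p] [IsAlgClosed k] [Fintype A]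
    {N K P D : Subgroup A} {e : MonoidAlgebra k A} (h : Tri p N K e) (hPK : P ≤ K)
    (hP : IsPGroup p P) (hbr : HasBr P e) (hD : IsPGroup p D) (hDP : D ≤ N ⊔ P)
    (hbrD : HasBr D e) : ∃ m ∈ N ⊔ P, D ≤ cg m P :=
  (dgn_tr hP (hPK.trans h.nm) (inf_bot h hP hbr) h.isDZ (h.inv.mono hPK) hbr).2 D hDP hD hbrD

theorem card_le_of_sup [Fact p.Prime] [CharP k p] [IsAlgClosed k] [Fintype A]
    {N K P D : Subgroup A} {e : MonoidAlgebra k A} (h : Tri p N K e) (hPK : P ≤ K)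
    (hP : IsPGroup p P) (hbr : HasBr P e) (hD : IsPGroup p D) (hDP : D ≤ N ⊔ P)
    (hbrD : HasBr D e) : Nat.card D ≤ Nat.card P := by
  obtain ⟨m, _, hm⟩ := conj_of_sup h hPK hP hbr hD hDP hbrD
  rw [← card_cg m P]
  exact Nat.le_of_dvd Nat.card_pos (Subgroup.card_dvd_of_le hm)

theorem hasBr_conj {P K : Subgroup A} {e : MonoidAlgebra k A} (hinv : InvBy K e) {g : A}
    (hg : g ∈ K) (hbr : HasBr P e) : HasBr (cg g P) e := by
  have h1 := hasBr_cg hbr g
  rwa [invBy_iff_cj.1 hinv g hg] at h1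

/-- the intersection of a normal subgroup with a defect group -/
theorem exists_syl [Fact p.Prime] [CharP k p] [IsAlgClosed k] [Fintype A] {N P K Q : Subgroup A}
    {e : MonoidAlgebra k A} (h : Tri p N K e)
    (hPK : P ≤ K) (hP : IsPGroup p P) (hbr : HasBr P e)
    (hNP : K ≤ Subgroup.normalizer ((N ⊔ P : Subgroup A) : Set A)) (hQK : Q ≤ K)
    (hQ : IsPGroup p Q) (hbrQ : HasBr Q e) :
    ∃ S : Subgroup A, IsPGroup p S ∧ HasBr S e ∧ Q ≤ S ∧ ∃ g ∈ K, S ⊓ (N ⊔ P) = cg g P := by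
  have hPN := hPK.trans h.nm
  have hMK : (N ⊔ P) ⊔ Q ≤ K := sup_le (sup_le h.le hPK) hQK
  have hQM : Q ≤ Subgroup.normalizer ((N ⊔ P : Subgroup A) : Set A) := hQK.trans hNP
  obtain ⟨S₀, a, hS₀M, hS₀, hNS₀, hNSb, hbrS₀, -, -, -, hconj⟩ :=
    lemC h.dz (h.inv.mono hMK) (le_sup_left.trans le_sup_left) (hMK.trans h.nm) (by
      intro x hx
      obtain ⟨n, hn⟩ := pquot_sup hQM hQ x hx
      obtain ⟨m, hm⟩ := pquot_sup hPN hP _ hn
      refine ⟨n + m, ?_⟩
      rwa [pow_add, pow_mul])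
  obtain ⟨g₀, hg₀, hQS⟩ := hconj Q le_sup_right hQ hbrQ
  have hg₀K : g₀ ∈ K := hMK hg₀
  set S := cg g₀ S₀ with hS
  have hSp : IsPGroup p S := isPGroup_cg hS₀
  have hSbr : HasBr S e := hasBr_conj h.inv hg₀K hbrS₀
  have hSn : S ≤ Subgroup.normalizer (N : Set A) := by
    have h1 := cg_le_cg (g := g₀) hS₀M
    rw [cg_of_mem hg₀] at h1
    exact (h1.trans hMK).trans h.nm
  have hNS : (N ⊔ P) ⊔ Q ≤ N ⊔ S := by
    have h1 : cg g₀ (N ⊔ S₀) = (N ⊔ P) ⊔ Q := by rw [hNS₀, cg_of_mem hg₀]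
    rw [← h1]
    intro x hx
    rw [mem_cg] at hx
    obtain ⟨n, hn, s, hs, hns⟩ := (mem_sup_norm ((hS₀M.trans hMK).trans h.nm)).1 hx
    have h2 : x = (g₀ * n * g₀⁻¹) * (g₀ * s * g₀⁻¹) := by
      have h3 : x = g₀ * (g₀⁻¹ * x * g₀) * g₀⁻¹ := by group
      rw [h3, ← hns]
      group
    rw [h2]
    refine Subgroup.mul_mem _ ((le_sup_left : N ≤ N ⊔ S) ?_) ((le_sup_right : S ≤ N ⊔ S) ?_)
    · exact (Subgroup.mem_normalizer_iff.1 (h.nm hg₀K) n).1 hn
    · rw [hS, mem_cg]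
      have h4 : g₀⁻¹ * (g₀ * s * g₀⁻¹) * g₀ = s := by group
      rwa [h4]
  have hsup : N ⊔ (S ⊓ (N ⊔ P)) = N ⊔ P := by
    apply le_antisymm (sup_le le_sup_left inf_le_right)
    intro x hx
    obtain ⟨n, hn, s, hs, rfl⟩ := (mem_sup_norm hSn).1 (hNS ((le_sup_left : N ⊔ P ≤ _) hx))
    refine Subgroup.mul_mem _ ((le_sup_left : N ≤ _) hn) ((le_sup_right : S ⊓ (N ⊔ P) ≤ _) ?_)
    refine Subgroup.mem_inf.2 ⟨hs, ?_⟩
    have h1 := (N ⊔ P).mul_mem ((N ⊔ P).inv_mem ((le_sup_left : N ≤ N ⊔ P) hn)) hx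
    rwa [inv_mul_cancel_left] at h1
  have hP'n : S ⊓ (N ⊔ P) ≤ Subgroup.normalizer (N : Set A) := inf_le_left.trans hSn
  have hP'br : HasBr (S ⊓ (N ⊔ P) : Subgroup A) e := HasBr.mono inf_le_left hSbr
  have hP'p : IsPGroup p (S ⊓ (N ⊔ P) : Subgroup A) := hSp.to_le inf_le_left
  have hc1 := card_sup_disj hP'n (inf_bot h hP'p hP'br)
  have hc2 := card_sup_disj hPN (inf_bot h hP hbr)
  rw [hsup, hc2] at hc1
  have hc3 : Nat.card P = Nat.card (S ⊓ (N ⊔ P) : Subgroup A) :=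
    Nat.eq_of_mul_eq_mul_left Nat.card_pos hc1
  obtain ⟨m, hm, hle⟩ := conj_of_sup h hPK hP hbr hP'p inf_le_right hP'br
  refine ⟨S, hSp, hSbr, hQS, m, (sup_le h.le hPK) hm, ?_⟩
  exact eq_of_le_of_card hle (by rw [card_cg, hc3])

/-- the subgroups with a weight of `e` have nonzero Brauer map -/
theorem hasBr_of_weight [Fact p.Prime] [CharP k p] [Fintype A]
    {N K Q : Subgroup A} {e : MonoidAlgebra k A} (h : Tri p N K e)
    (hQK : Q ≤ K) (hQ : IsPGroup p Q) {f : MonoidAlgebra k (NQ Q)}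
    (hf : f ≠ 0) (hfe : f * proj Q e = f) : HasBr Q e := by
  apply hasBr_of_proj hQ (h.inv.mono hQK)
  intro h0
  rw [h0, mul_zero] at hfe
  exact hf hfe.symm

/-- the subgroups with a weight of `e` contain a conjugate of `P` -/
theorem weight_inf [Fact p.Prime] [CharP k p] [IsAlgClosed k] [Fintype A]
    {N K P Q : Subgroup A} {e : MonoidAlgebra k A} (h : Tri p N K e) (hPK : P ≤ K)
    (hP : IsPGroup p P) (hbr : HasBr P e)
    (hNP : K ≤ Subgroup.normalizer ((N ⊔ P : Subgroup A) : Set A))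
    (hQK : Q ≤ K) (hQ : IsPGroup p Q) {f : MonoidAlgebra k (NQ Q)}
    (hf : IsDZ p (sec K Q) f) (hfe : f * proj Q e = f) :
    ∃ g ∈ K, Q ⊓ (N ⊔ P) = cg g P := by
  have : Fintype (NQ Q) := Fintype.ofFinite _
  have hbrQ : HasBr Q e := hasBr_of_weight h hQK hQ hf.blk.ne_zero hfe
  obtain ⟨S, hS, hbrS, hQS, g, hg, hgP⟩ := exists_syl h hPK hP hbr hNP hQK hQ hbrQ
  have hNQ : N ⊓ Q = ⊥ := inf_bot h hQ hbrQ
  refine ⟨g, hg, ?_⟩
  set P' : Subgroup A := S ⊓ (N ⊔ P) with hP'def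
  have hP' : IsPGroup p P' := hS.to_le inf_le_left
  have hQP' : Q ⊓ (N ⊔ P) ≤ P' := inf_le_inf_right _ hQS
  have hP'le : P' ≤ N ⊔ P := inf_le_right
  have hQn : Q ≤ Subgroup.normalizer (P' : Set A) := by
    intro q hq
    rw [← cg_eq_self_iff, hP'def, cg_inf, cg_of_mem (hQS hq), cg_eq_self_iff.2 (hNP (hQK hq))]
  by_cases hcon : P' ≤ Q
  · rw [← hgP]
    exact le_antisymm hQP' (le_inf hcon hP'le)
  exfalso
  have hSp : IsPGroup p (P' ⊔ Q : Subgroup A) := isPGroup_sup hQn hP' hQ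
  have hne : Q ≠ P' ⊔ Q := by
    intro h1
    apply hcon
    rw [h1]
    exact le_sup_left
  obtain ⟨x, hx, hxN, hxQ⟩ := exists_norm_growth hSp le_sup_right hne
  obtain ⟨z, hz, q, hq, rfl⟩ := (mem_sup_norm hQn).1 hx
  have hzN : z ∈ Subgroup.normalizer (Q : Set A) := by
    have h1 := (Subgroup.normalizer (Q : Set A)).mul_mem hxN
      ((Subgroup.normalizer (Q : Set A)).inv_mem (Subgroup.le_normalizer hq))
    have e1 : z * q * q⁻¹ = z := by group
    rwa [e1] at h1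
  have hzQ : z ∉ Q := fun h1 => hxQ (Q.mul_mem h1 hq)
  -- the block of the image of `N P`
  have hNPK : N ⊔ P ≤ K := sup_le h.le hPK
  have hb0 : IsBlock (sec N Q) (proj Q e) := isBlock_proj h hQK hQ hbrQ
  have hinvK : InvBy (sec K Q) (proj Q e) := proj_invBy' h.inv
  have hb1 : IsBlock (sec (N ⊔ P) Q) (proj Q e) := by
    refine isBlock_up' (p := p) (sec_mono le_sup_left)
      (Cy.HypAux.sec_norm (hNPK.trans h.nm) Q) ?_ hb0 (hinvK.mono (sec_mono hNPK))
    intro w hw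
    obtain ⟨y, hy, hy', rfl⟩ := mem_sec.1 hw
    obtain ⟨n, hn⟩ := pquot_sup (hPK.trans h.nm) hP y hy
    refine ⟨n, ?_⟩
    rw [← qm_pow hy' _ ((Subgroup.normalizer (Q : Set A)).pow_mem hy' _)]
    exact qm_mem_sec _ hn
  have hd : IsDZ p (sec (N ⊔ P) Q) (proj Q e) := by
    refine Cy.dz_down (sec_mono hNPK) (Cy.HypAux.sec_norm hNP Q) hf hb1 ?_
    rw [hfe]
    exact hf.blk.ne_zero
  -- the p-group generated by the image of `z`
  have hVle : Subgroup.zpowers (qm Q z hzN) ≤ sec (N ⊔ P) Q := by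
    rw [Subgroup.zpowers_le]
    exact qm_mem_sec hzN (hP'le hz)
  have hVp : IsPGroup p (Subgroup.zpowers (qm Q z hzN)) := by
    have h1 : Subgroup.zpowers (qm Q z hzN) ≤ sec P' Q := by
      rw [Subgroup.zpowers_le]
      exact qm_mem_sec hzN hz
    exact (isPGroup_sec hP').to_le h1
  have hbrV : HasBr (Subgroup.zpowers (qm Q z hzN)) (proj Q e) := by
    obtain ⟨y, hy, hy0⟩ := hbrS
    have hyN : y ∈ N := h.blk.suppIn y hy0
    have hyQ : y ∈ Subgroup.centralizer (Q : Set A) := Subgroup.centralizer_le hQS hy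
    have hyn : y ∈ Subgroup.normalizer (Q : Set A) :=
      Subgroup.centralizer_le_normalizer _ hyQ
    have hyz : z * y = y * z := Subgroup.mem_centralizer_iff.1 hy z (Subgroup.mem_inf.1 hz).1
    refine ⟨qm Q y hyn, ?_, ?_⟩
    · have h1 : Commute (qm Q z hzN) (qm Q y hyn) := by
        change qm Q z hzN * qm Q y hyn = qm Q y hyn * qm Q z hzN
        rw [← qm_mul hzN hyn ((Subgroup.normalizer (Q : Set A)).mul_mem hzN hyn),
          ← qm_mul hyn hzN ((Subgroup.normalizer (Q : Set A)).mul_mem hyn hzN)]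
        congr 1
      rw [Subgroup.mem_centralizer_iff]
      intro w hw
      obtain ⟨j, rfl⟩ := Subgroup.mem_zpowers_iff.1 hw
      exact (h1.zpow_left j).eq
    · rw [coeff_proj_N hNQ h.blk.suppIn hyN hyn]
      exact hy0
  have hbot := hd.dz _ hVle hVp hbrV
  rw [Subgroup.zpowers_eq_bot, qm_eq_one_iff] at hbot
  exact hzQ hbot

end WgtAux

open WgtAux
open Ps.WgtAux (mem_cent exists_isoN coeff_proj_N tr_proj_N isPGroup_sup proj_resS card_conj)

/-- the weights of an idempotent `c` of `Z(kK)` under `e` -/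
theorem ws_eq_of [Fact p.Prime] [CharP k p] [IsAlgClosed k] [Fintype A] {N K : Subgroup A}
    {e c : MonoidAlgebra k A} (h : Tri p N K e) (hc : SuppIn K c) (hci : InvBy K c)
    (_hcc : c * c = c) (hec : e * c = c) {P : Subgroup A} (hPK : P ≤ K) (hP : IsPGroup p P)
    (hbr : HasBr P e)
    (hNP : K ≤ Subgroup.normalizer ((N ⊔ P : Subgroup A) : Set A)) :
    Fr.Ws p K c * Nat.card ↥(K ⊓ Subgroup.normalizer (P : Set A))
      = Nat.card K * Fr.Ws p (K ⊓ Subgroup.normalizer (P : Set A))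
          (resS (Subgroup.centralizer (P : Set A) : Set A) c) := by
  classical
  have hPN : P ≤ Subgroup.normalizer (N : Set A) := hPK.trans h.nm
  let T : Subgroup A → ℕ := fun Q => Nat.card ↥(K ⊓ Subgroup.normalizer (Q : Set A))
      * Nat.card {f : MonoidAlgebra k (NQ Q) | IsDZ p (sec K Q) f ∧ f * proj Q c = f}
  let S : Finset (Subgroup A) := Finset.univ.filter (fun Q => Q ≤ K ∧ IsPGroup p Q)
  have hS : ∀ Q, Q ∈ S ↔ Q ≤ K ∧ IsPGroup p Q := by
    intro Q
    rw [Finset.mem_filter]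
    exact ⟨fun h => h.2, fun h => ⟨Finset.mem_univ _, h⟩⟩
  have hWs : Fr.Ws p K c = ∑ Q ∈ S, T Q := rfl
  have hT : ∀ x ∈ K, ∀ Q, T (cg x Q) = T Q := by
    intro x hx Q
    change _ * _ = _ * _
    rw [card_cg_eq hc hci hx, ← cg_normalizer]
    congr 1
    have h1 : K ⊓ cg x (Subgroup.normalizer (Q : Set A))
        = cg x (K ⊓ Subgroup.normalizer (Q : Set A)) := by
      rw [cg_inf, cg_of_mem hx]
    rw [h1, card_cg]
  -- the number of pairs, first way
  have hA : ∀ x ∈ K, ∑ Q ∈ S, (if Q ⊓ (N ⊔ P) = cg x P then T Q else 0)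
      = ∑ Q ∈ S, (if Q ⊓ (N ⊔ P) = P then T Q else 0) := by
    intro x hx
    have hxn : ∀ y ∈ K, cg y (N ⊔ P) = N ⊔ P := fun y hy => cg_eq_self_iff.2 (hNP hy)
    have hmem : ∀ y ∈ K, ∀ Q ∈ S, cg y Q ∈ S := by
      intro y hy Q hQ
      obtain ⟨h1, h2⟩ := (hS Q).1 hQ
      refine (hS _).2 ⟨?_, isPGroup_cg h2⟩
      have h3 := cg_le_cg (g := y) h1
      rwa [cg_of_mem hy] at h3
    refine Finset.sum_bij' (fun Q _ => cg x⁻¹ Q) (fun Q _ => cg x Q)
      (fun Q hQ => hmem _ (K.inv_mem hx) Q hQ) (fun Q hQ => hmem x hx Q hQ) ?_ ?_ ?_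
    · intro Q _
      rw [cg_cg, mul_inv_cancel, cg_one]
    · intro Q _
      rw [cg_cg, inv_mul_cancel, cg_one]
    · intro Q _
      have h1 : Q ⊓ (N ⊔ P) = cg x P ↔ cg x⁻¹ Q ⊓ (N ⊔ P) = P := by
        have h2 : cg x⁻¹ Q ⊓ (N ⊔ P) = cg x⁻¹ (Q ⊓ (N ⊔ P)) := by
          rw [cg_inf, hxn _ (K.inv_mem hx)]
        rw [h2]
        constructor
        · intro h3
          rw [h3, cg_cg, inv_mul_cancel, cg_one]
        · intro h3
          have h4 := congrArg (cg x) h3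
          rwa [cg_cg, mul_inv_cancel, cg_one] at h4
      simp only [h1]
      rw [hT x⁻¹ (K.inv_mem hx) Q]
  let X : Finset A := Finset.univ.filter (fun x => x ∈ K)
  have hX : ∀ x, x ∈ X ↔ x ∈ K := by
    intro x
    rw [Finset.mem_filter]
    exact ⟨fun h => h.2, fun h => ⟨Finset.mem_univ _, h⟩⟩
  have hXcard : X.card = Nat.card K := by
    rw [← Fintype.card_coe, ← Nat.card_eq_fintype_card]
    exact Nat.card_congr (Equiv.subtypeEquivRight hX)
  have hB : ∑ x ∈ X, ∑ Q ∈ S, (if Q ⊓ (N ⊔ P) = cg x P then T Q else 0)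
      = Nat.card K * ∑ Q ∈ S, (if Q ⊓ (N ⊔ P) = P then T Q else 0) := by
    rw [Finset.sum_congr rfl (fun x hx => hA x ((hX x).1 hx)), Finset.sum_const, hXcard,
      smul_eq_mul]
  -- second way
  have hC : ∑ x ∈ X, ∑ Q ∈ S, (if Q ⊓ (N ⊔ P) = cg x P then T Q else 0)
      = Fr.Ws p K c * Nat.card ↥(K ⊓ Subgroup.normalizer (P : Set A)) := by
    rw [Finset.sum_comm, hWs, Finset.sum_mul]
    refine Finset.sum_congr rfl (fun Q hQ => ?_)
    obtain ⟨hQK, hQp⟩ := (hS Q).1 hQ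
    by_cases h0 : Nat.card {f : MonoidAlgebra k (NQ Q) |
        IsDZ p (sec K Q) f ∧ f * proj Q c = f} = 0
    · have h1 : T Q = 0 := by
        change _ * _ = _
        rw [h0, mul_zero]
      rw [h1, zero_mul]
      apply Finset.sum_eq_zero
      intro x _
      split_ifs <;> rfl
    · have h1 : ∃ f : MonoidAlgebra k (NQ Q), IsDZ p (sec K Q) f ∧ f * proj Q c = f := by
        by_contra hcon
        push Not at hcon
        apply h0
        rw [Nat.card_eq_zero]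
        left
        exact ⟨fun f => hcon f.1 f.2.1 f.2.2⟩
      obtain ⟨f, hf, hfc⟩ := h1
      have hfe : f * proj Q e = f := by
        have h2 : c * e = c := by rw [commute_of hc h.inv, hec]
        calc f * proj Q e = f * proj Q c * proj Q e := by rw [hfc]
          _ = f * proj Q (c * e) := by
            rw [proj_mul hQp (hci.mono hQK) (h.inv.mono hQK), mul_assoc]
          _ = f := by rw [h2, hfc]
      obtain ⟨g, hg, hgP⟩ := weight_inf h hPK hP hbr hNP hQK hQp hf hfe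
      rw [hgP, ← Finset.sum_filter, Finset.sum_const, smul_eq_mul, mul_comm]
      congr 1
      apply card_conj hg
      intro x
      rw [Finset.mem_filter, hX]
  rw [← hC, hB]
  congr 1
  -- the weights of the normalizer
  have hH : P ≤ K ⊓ Subgroup.normalizer (P : Set A) := le_inf hPK Subgroup.le_normalizer
  rw [← Finset.sum_filter, Fr.Ws]
  symm
  have hsub : ∀ Q ∈ Finset.univ.filter (fun Q : Subgroup A =>
      Q ≤ K ⊓ Subgroup.normalizer (P : Set A) ∧ IsPGroup p Q),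
      Q ∉ S.filter (fun Q => Q ⊓ (N ⊔ P) = P) →
      Nat.card ↥((K ⊓ Subgroup.normalizer (P : Set A)) ⊓ Subgroup.normalizer (Q : Set A))
      * Nat.card {f : MonoidAlgebra k (NQ Q) |
        IsDZ p (sec (K ⊓ Subgroup.normalizer (P : Set A)) Q) f ∧
        f * proj Q (resS (Subgroup.centralizer (P : Set A) : Set A) c) = f} = 0 := by
    intro Q hQ hQ'
    rw [Finset.mem_filter] at hQ
    obtain ⟨-, hQH, hQp⟩ := hQ
    have h1 : Nat.card {f : MonoidAlgebra k (NQ Q) |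
        IsDZ p (sec (K ⊓ Subgroup.normalizer (P : Set A)) Q) f ∧
        f * proj Q (resS (Subgroup.centralizer (P : Set A) : Set A) c) = f} = 0 := by
      rw [Nat.card_eq_zero]
      left
      refine ⟨fun f => hQ' ?_⟩
      have hPQ : P ≤ Q := radical hH inf_le_right hP hQH hQp f.2.1
      rw [Finset.mem_filter, hS]
      refine ⟨⟨hQH.trans inf_le_left, hQp⟩, ?_⟩
      symm
      apply eq_of_le_of_card (le_inf hPQ le_sup_right)
      have hbrQ : HasBr Q e := by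
        have hQK : Q ≤ K := hQH.trans inf_le_left
        have h3 : proj Q c ≠ 0 := by
          intro h0
          obtain ⟨g, hg1, hg2⟩ := f
          have h3' := proj_resS hP (hci.mono hPK) hPQ
          rw [h3', h0, mul_zero] at hg2
          exact hg1.blk.ne_zero hg2.symm
        have h5 := hasBr_of_proj hQp (hci.mono hQK) h3
        rw [hasBr_iff_br] at h5 ⊢
        intro h0
        apply h5
        have h6 : br Q (e * c) = br Q e * br Q c :=
          resS_mul hQp (h.inv.mono hQK) (hci.mono hQK)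
        rw [← hec, h6, h0, zero_mul]
      exact card_le_of_sup h hPK hP hbr (hQp.to_le inf_le_left) inf_le_right
        (HasBr.mono inf_le_left hbrQ)
    rw [h1, mul_zero]
  have hle : S.filter (fun Q => Q ⊓ (N ⊔ P) = P) ⊆ Finset.univ.filter (fun Q : Subgroup A =>
      Q ≤ K ⊓ Subgroup.normalizer (P : Set A) ∧ IsPGroup p Q) := by
    intro Q hQ
    rw [Finset.mem_filter, hS] at hQ
    obtain ⟨⟨hQK, hQp⟩, hQP⟩ := hQ
    rw [Finset.mem_filter]
    refine ⟨Finset.mem_univ _, le_inf hQK ?_, hQp⟩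
    intro q hq
    rw [← cg_eq_self_iff]
    calc cg q P = cg q (Q ⊓ (N ⊔ P)) := by rw [hQP]
      _ = P := by rw [cg_inf, cg_of_mem hq, cg_eq_self_iff.2 (hNP (hQK hq)), hQP]
  rw [← Finset.sum_subset hle hsub]
  refine Finset.sum_congr rfl (fun Q hQ => ?_)
  rw [Finset.mem_filter, hS] at hQ
  obtain ⟨⟨hQK, hQp⟩, hQP⟩ := hQ
  -- the normalizers of `Q`
  have hnle : K ⊓ Subgroup.normalizer (Q : Set A) ≤ Subgroup.normalizer (P : Set A) := by
    intro x hx
    obtain ⟨hxK, hxQ⟩ := Subgroup.mem_inf.1 hx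
    rw [← cg_eq_self_iff]
    calc cg x P = cg x (Q ⊓ (N ⊔ P)) := by rw [hQP]
      _ = P := by rw [cg_inf, cg_eq_self_iff.2 hxQ, cg_eq_self_iff.2 (hNP hxK), hQP]
  have h1 : (K ⊓ Subgroup.normalizer (P : Set A)) ⊓ Subgroup.normalizer (Q : Set A)
      = K ⊓ Subgroup.normalizer (Q : Set A) := by
    apply le_antisymm
    · exact inf_le_inf_right _ inf_le_left
    · exact le_inf (le_inf inf_le_left hnle) inf_le_right
  have h2 : sec (K ⊓ Subgroup.normalizer (P : Set A)) Q = sec K Q := by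
    apply le_antisymm (sec_mono inf_le_left)
    intro w hw
    obtain ⟨x, hx, hx', rfl⟩ := mem_sec.1 hw
    exact qm_mem_sec _ (Subgroup.mem_inf.2 ⟨hx, hnle (Subgroup.mem_inf.2 ⟨hx, hx'⟩)⟩)
  have hPQ : P ≤ Q := by
    rw [← hQP]
    exact inf_le_left
  rw [h1, h2, proj_resS hP (hci.mono hPK) hPQ]

theorem ws_eq [Fact p.Prime] [CharP k p] [IsAlgClosed k] [Fintype A] {N K : Subgroup A}
    {e : MonoidAlgebra k A} (h : Tri p N K e) {P : Subgroup A} (hPK : P ≤ K) (hP : IsPGroup p P)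
    (hbr : HasBr P e) (hNP : K ≤ Subgroup.normalizer ((N ⊔ P : Subgroup A) : Set A)) :
    Fr.Ws p K e * Nat.card ↥(K ⊓ Subgroup.normalizer (P : Set A))
      = Nat.card K * Fr.Ws p (K ⊓ Subgroup.normalizer (P : Set A))
          (resS (Subgroup.centralizer (P : Set A) : Set A) e) :=
  ws_eq_of h (h.blk.suppIn.mono h.le) h.inv h.blk.idem h.blk.idem hPK hP hbr hNP

end Pool.Agent.Lib.P0c8ca5.Dz
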