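import Mathlib
import Pool.Agent.Lib.P0c8ca5D.Wgt
import Pool.Agent.Lib.P0c8ca5Q.Gq

/-!
# The group theory of a p-subgroup `P` with `Br_P(e)` not zero

`Dz.Par p N K P e`: `Dz.Tri p N K e`, `P ≤ K` is a p-group with `Br_P(e) ≠ 0`; then `N ⊓ P = 1`.
-/

namespace Pool.Agent.Lib.P0c8ca5.Dz

open MonoidAlgebra Ps Bq Bq.GqAux

variable {p : ℕ} {k : Type*} [Field k] {A : Type*} [Group A]

/-- `Tri p N K e` and `P ≤ K` is a p-group with nonzero Brauer map -/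
structure Par (p : ℕ) (N K P : Subgroup A) (e : MonoidAlgebra k A) : Prop where
  tri : Tri p N K e
  PK : P ≤ K
  PP : IsPGroup p P
  hbr : HasBr P e

theorem Par.inf_one {N K P : Subgroup A} {e : MonoidAlgebra k A} (h : Par p N K P e) {t : A}
    (h1 : t ∈ N) (h2 : t ∈ P) : t = 1 := by
  have h3 : t ∈ N ⊓ P := Subgroup.mem_inf.2 ⟨h1, h2⟩
  rw [inf_bot h.tri h.PP h.hbr] at h3
  exact Subgroup.mem_bot.1 h3

theorem Par.norm_inf {N K P : Subgroup A} {e : MonoidAlgebra k A}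
    (h : Par p N K P e) {y : A} (hy : y ∈ N) (hyP : y ∈ Subgroup.normalizer (P : Set A)) :
    y ∈ Subgroup.centralizer (P : Set A) := by
  rw [cen_iff]
  intro u hu
  have h1 : y * u * y⁻¹ * u⁻¹ ∈ P := P.mul_mem (nm_mem hyP hu) (P.inv_mem hu)
  have h2 : y * u * y⁻¹ * u⁻¹ ∈ N := by
    have e : y * u * y⁻¹ * u⁻¹ = y * (u * y⁻¹ * u⁻¹) := by group
    rw [e]
    exact N.mul_mem hy (nm_mem (h.tri.nm (h.PK hu)) (N.inv_mem hy))
  have h3 := h.inf_one h2 h1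
  have e : u * y = (y * u * y⁻¹ * u⁻¹)⁻¹ * (y * u) := by group
  rw [e, h3, inv_one, one_mul]

theorem Par.frat [Fact p.Prime] [CharP k p] [IsAlgClosed k] [Fintype A] {N K P : Subgroup A}
    {e : MonoidAlgebra k A}
    (h : Par p N K P e) (hNP : K ≤ Subgroup.normalizer ((N ⊔ P : Subgroup A) : Set A)) {x : A}
    (hx : x ∈ K) : ∃ n ∈ N, ∃ l ∈ Lp K P, x = n * l := by
  have hPN : P ≤ Subgroup.normalizer (N : Set A) := fun u hu => h.tri.nm (h.PK hu)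
  have h1 : cg x P ≤ N ⊔ P := by
    have h2 := cg_le_cg (g := x) (le_sup_right : P ≤ N ⊔ P)
    rwa [cg_eq_self_iff.2 (hNP hx)] at h2
  have h2 : HasBr (cg x P) e := WgtAux.hasBr_conj h.tri.inv hx h.hbr
  obtain ⟨m, hm, hle⟩ := WgtAux.conj_of_sup h.tri h.PK h.PP h.hbr (isPGroup_cg h.PP) h1 h2
  have h3 : cg x P = cg m P := eq_of_le_of_card hle (by rw [card_cg, card_cg])
  obtain ⟨n, hn, u, hu, rfl⟩ := (mem_sup_norm hPN).1 hm
  have h4 : cg x P = cg n P := by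
    rw [h3, ← cg_cg, cg_eq_self_iff.2 (Subgroup.le_normalizer hu)]
  have hnK : n ∈ K := h.tri.le hn
  refine ⟨n, hn, n⁻¹ * x, Subgroup.mem_inf.2 ⟨K.mul_mem (K.inv_mem hnK) hx, ?_⟩, by group⟩
  rw [← cg_eq_self_iff, ← cg_cg, h4, cg_cg, inv_mul_cancel, cg_one]

theorem Par.inf_eq {N K P : Subgroup A} {e : MonoidAlgebra k A}
    (h : Par p N K P e) {y : A} (hy : y ∈ N ⊔ Cp K P)
    (hyP : y ∈ Subgroup.normalizer (P : Set A)) : y ∈ Cp K P := by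
  obtain ⟨n, hn, c, hc, rfl⟩ := (sup_iff (C := Cp K P) (fun c (hc : c ∈ Cp K P) => h.tri.nm hc.1)).mp hy
  have hcP := cen_nm hc.2
  have h1 : n ∈ Subgroup.normalizer (P : Set A) := by
    have e : n = (n * c) * c⁻¹ := by group
    rw [e]
    exact Subgroup.mul_mem _ hyP (Subgroup.inv_mem _ hcP)
  have h2 := h.norm_inf hn h1
  exact Subgroup.mul_mem _ ⟨h.tri.le hn, h2⟩ hc

theorem Par.mem_N1 {N K P : Subgroup A} {e : MonoidAlgebra k A} (h : Par p N K P e) {y : A} :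
    y ∈ N ⊔ Cp K P ↔ ∃ n ∈ N, ∃ c ∈ Cp K P, y = n * c := by
  exact sup_iff (C := Cp K P) (fun c (hc : c ∈ Cp K P) => h.tri.nm hc.1)

theorem Par.norm_N1 [Fact p.Prime] [CharP k p] [IsAlgClosed k] [Fintype A] {N K P : Subgroup A}
    {e : MonoidAlgebra k A}
    (h : Par p N K P e) (hNP : K ≤ Subgroup.normalizer ((N ⊔ P : Subgroup A) : Set A)) :
    K ≤ Subgroup.normalizer ((N ⊔ Cp K P : Subgroup A) : Set A) := by
  intro y hy
  obtain ⟨n, hn, l, hl, rfl⟩ := h.frat hNP hy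
  refine Subgroup.mul_mem _ (self_le _ ((le_sup_left : N ≤ N ⊔ Cp K P) hn)) ?_
  exact nm_sup (h.tri.nm hl.1) (norm_Cp K P hl)

end Pool.Agent.Lib.P0c8ca5.Dz
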