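import Mathlib
import Pool.Agent.Lib.P0c8ca5D.Cm
import Pool.Agent.Lib.P0c8ca5Q.UnA

/-!
# Module UnA: the elements of p-power order of the lines

PROOFS.  Lines: P0c8ca5S.LnB (`Ln_mul`, `Ln_cj`, `Ln_congr`, `exists_ln`, `ln_line`, `ln_inv`, `Ln_mul_e`).
`Ln_pow`: `u ^ (m + 1) ∈ Ln N e (z ^ (m + 1))` by induction (`Ln_mul`).
* `exists_un`: `u ≠ 0` in the line of `z` (`exists_ln`; `e ≠ 0`).  If `p ^ n = 1` then `z ∈ N`, take `e` (`e_mem_Ln`, `Ln_congr`).  In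
  general `u ^ p ^ n ∈ Ln N e (z ^ p ^ n) = Ln N e 1` (`Ln_congr`), so `u ^ p ^ n = c • e` (`ln_line` with `e`), `c ≠ 0` since `u` is
  invertible (`u v = e`, `v u = e`, so `u ^ m v ^ m = e`).  `k` is algebraically closed: `d ^ p ^ n = c`
  (`IsAlgClosed.exists_pow_nat_eq`), and `d⁻¹ • u`.
* `Un.uniq`: `v = c • u` (`ln_line`, `u ≠ 0` because `e ≠ 0`); with `m` large `u ^ p ^ m = e = v ^ p ^ m` (`e ^ j = e`), so `c ^ p ^ m = 1`,
  `(c - 1) ^ p ^ m = 0` (`sub_pow_char_pow`), `c = 1`.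
* `Un.cj`: `Ln_cj`, `cj g (u ^ m) = (cj g u) ^ m`, `cj g e = e` (`h.inv`, `invBy_iff_cj`).
* `Un.congr`: `Ln_congr`.
* `Un.fix`: `cj g u` is in the line of `g z g⁻¹`, which is the line of `z` by `Ln_congr`; `Un.uniq`.
* `fix_of_pow`: `cj g u = c • u` (`Ln_cj`, `Ln_congr`, `ln_line`; if `u = 0` there is nothing to show), `cj (g ^ m) u = c ^ m • u`, and
  `cj (g ^ p ^ n) u = u` as `g ^ p ^ n ∈ N` and `u` is `N`-invariant; so `c ^ p ^ n = 1`, `c = 1`.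
* `cm_one_of_pow`: `cm N e g x = cj g u * v = u * v = e` for `u = lu N e x`, `v = lv N e x` (`fix_of_pow`).
-/

namespace Pool.Agent.Lib.P0c8ca5.Dz

open MonoidAlgebra Ps Bq

variable {p : ℕ} {k : Type*} [Field k] {A : Type*} [Group A] {N K : Subgroup A}
  {e : MonoidAlgebra k A}

namespace DUnAAux

theorem Ln_pow (h : Tri p N K e) {z : A} (hz : z ∈ K) {u : MonoidAlgebra k A} (hu : u ∈ Ln N e z) :
    ∀ m : ℕ, u ^ (m + 1) ∈ Ln N e (z ^ (m + 1)) := by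
  intro m
  induction m with
  | zero => simpa using hu
  | succ m ih =>
    rw [pow_succ u (m + 1), pow_succ z (m + 1)]
    exact Ln_mul h (K.pow_mem hz _) ih hu

theorem Ln_pow' (h : Tri p N K e) {z : A} (hz : z ∈ K) {u : MonoidAlgebra k A} (hu : u ∈ Ln N e z)
    {m : ℕ} (hm : m ≠ 0) : u ^ m ∈ Ln N e (z ^ m) := by
  obtain ⟨j, rfl⟩ := Nat.exists_eq_succ_of_ne_zero hm
  exact Ln_pow h hz hu j

theorem pow_mul_pow (h : Tri p N K e) {z : A} (hz : z ∈ K) {u v : MonoidAlgebra k A}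
    (hv : v ∈ Ln N e z⁻¹) (huv : u * v = e) : ∀ m : ℕ, u ^ (m + 1) * v ^ (m + 1) = e := by
  intro m
  induction m with
  | zero => simpa using huv
  | succ m ih =>
    have h1 : e * v ^ (m + 1) = v ^ (m + 1) := (mem_Ln.1 (Ln_pow h (K.inv_mem hz) hv m)).2.2
    calc u ^ (m + 1 + 1) * v ^ (m + 1 + 1) = u ^ (m + 1) * (u * v) * v ^ (m + 1) := by
          rw [pow_succ u (m + 1), pow_succ' v (m + 1)]
          simp only [mul_assoc]
      _ = u ^ (m + 1) * (e * v ^ (m + 1)) := by rw [huv, mul_assoc]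
      _ = e := by rw [h1, ih]

theorem e_pow (h : Tri p N K e) : ∀ m : ℕ, e ^ (m + 1) = e := by
  intro m
  induction m with
  | zero => simp
  | succ m ih => rw [pow_succ, ih, h.blk.idem]

theorem e_pow' (h : Tri p N K e) {m : ℕ} (hm : m ≠ 0) : e ^ m = e := by
  obtain ⟨j, rfl⟩ := Nat.exists_eq_succ_of_ne_zero hm
  exact e_pow h j

theorem ppow_ne [Fact p.Prime] (n : ℕ) : p ^ n ≠ 0 := pow_ne_zero _ (Fact.out : p.Prime).ne_zero

theorem one_of_pow [Fact p.Prime] [CharP k p] {c : k} {n : ℕ} (hc : c ^ p ^ n = 1) : c = 1 := by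
  have h1 : (c - 1) ^ p ^ n = 0 := by
    rw [sub_pow_char_pow, hc, one_pow, sub_self]
  exact sub_eq_zero.1 (pow_eq_zero_iff (ppow_ne n) |>.1 h1)

theorem cj_pow (g : A) (u : MonoidAlgebra k A) : ∀ m : ℕ, P0c8ca5.cj g (u ^ m) = (P0c8ca5.cj g u) ^ m := by
  intro m
  induction m with
  | zero => rw [pow_zero, pow_zero, cj_one]
  | succ m ih => rw [pow_succ, pow_succ, cj_mul, ih]

theorem cj_pow_smul {g : A} {u : MonoidAlgebra k A} {c : k} (hc : P0c8ca5.cj g u = c • u) :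
    ∀ m : ℕ, P0c8ca5.cj (g ^ m) u = c ^ m • u := by
  intro m
  induction m with
  | zero => rw [pow_zero, pow_zero, cj_one_left, one_smul]
  | succ m ih =>
    rw [pow_succ, ← cj_cj, hc, cj_smul, ih, smul_smul, ← pow_succ']

theorem smul_e (h : Tri p N K e) {c d : k} (hcd : c • e = d • e) : c = d := by
  have h1 : (c - d) • e = 0 := by rw [sub_smul, hcd, sub_self]
  rcases smul_eq_zero.1 h1 with h2 | h2
  · exact sub_eq_zero.1 h2
  · exact absurd h2 h.blk.ne_zero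

end DUnAAux

open DUnAAux

theorem exists_un [Fact p.Prime] [CharP k p] [IsAlgClosed k] [Fintype A] (h : Tri p N K e)
    {z : A} (hz : z ∈ K) {n : ℕ} (hzn : z ^ p ^ n ∈ N) : ∃ u, Un p N e z u := by
  obtain ⟨u, hu, v, hv, huv, -⟩ := exists_ln h hz
  have h1 : u ^ p ^ n ∈ Ln N e 1 := by
    have h2 := Ln_pow' h hz hu (ppow_ne (p := p) n)
    rwa [Ln_congr (N := N) (e := e) (x := z ^ p ^ n) (y := 1) (by rwa [inv_one, mul_one])] at h2
  obtain ⟨c, hc⟩ := ln_line h K.one_mem (e_mem_Ln h) h.blk.ne_zero h1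
  have hc0 : c ≠ 0 := by
    intro h0
    obtain ⟨j, hj⟩ := Nat.exists_eq_succ_of_ne_zero (ppow_ne (p := p) n)
    have h3 := pow_mul_pow h hz hv huv j
    rw [← Nat.succ_eq_add_one, ← hj, hc, h0, zero_smul, zero_mul] at h3
    exact h.blk.ne_zero h3.symm
  obtain ⟨d, hd⟩ := IsAlgClosed.exists_pow_nat_eq c (Nat.pos_of_ne_zero (ppow_ne (p := p) n))
  refine ⟨d⁻¹ • u, Submodule.smul_mem _ _ hu, n, ?_⟩
  rw [smul_pow, hc, inv_pow, hd, smul_smul, inv_mul_cancel₀ hc0, one_smul]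

theorem Un.ne_zero [Fact p.Prime] (h : Tri p N K e) {z : A} {u : MonoidAlgebra k A} (hu : Un p N e z u) :
    u ≠ 0 := by
  obtain ⟨-, n, hn⟩ := hu
  intro h0
  rw [h0, zero_pow (ppow_ne n)] at hn
  exact h.blk.ne_zero hn.symm

theorem Un.uniq [Fact p.Prime] [CharP k p] [IsAlgClosed k] [Fintype A] (h : Tri p N K e)
    {z : A} (hz : z ∈ K) {u v : MonoidAlgebra k A} (hu : Un p N e z u) (hv : Un p N e z v) :
    u = v := by
  obtain ⟨c, hc⟩ := ln_line h hz hu.1 (Un.ne_zero h hu) hv.1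
  obtain ⟨-, n1, h1⟩ := hu
  obtain ⟨-, n2, h2⟩ := hv
  have h3 : u ^ p ^ (n1 + n2) = e := by
    rw [pow_add, pow_mul, h1, e_pow' h (ppow_ne n2)]
  have h4 : v ^ p ^ (n1 + n2) = e := by
    rw [add_comm, pow_add, pow_mul, h2, e_pow' h (ppow_ne n1)]
  have h5 : c ^ p ^ (n1 + n2) = 1 := by
    refine smul_e h ?_
    rw [one_smul]
    conv_lhs => rw [← h3, ← smul_pow, ← hc, h4]
  rw [hc, one_of_pow h5, one_smul]

theorem Un.cj (h : Tri p N K e) {g z : A} (hg : g ∈ K) {u : MonoidAlgebra k A}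
    (hu : Un p N e z u) : Un p N e (g * z * g⁻¹) (cj g u) := by
  obtain ⟨h1, n, hn⟩ := hu
  refine ⟨Ln_cj h hg h1, n, ?_⟩
  rw [← cj_pow, hn]
  exact invBy_iff_cj.1 h.inv g hg

theorem Un.congr {z z' : A} (hzz : z * z'⁻¹ ∈ N) {u : MonoidAlgebra k A} (hu : Un p N e z u) :
    Un p N e z' u := by
  obtain ⟨h1, n, hn⟩ := hu
  rw [Ln_congr hzz] at h1
  exact ⟨h1, n, hn⟩

theorem Un.fix [Fact p.Prime] [CharP k p] [IsAlgClosed k] [Fintype A] (h : Tri p N K e)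
    {g z : A} (hg : g ∈ K) (hz : z ∈ K) (hgz : g * z * g⁻¹ * z⁻¹ ∈ N) {u : MonoidAlgebra k A}
    (hu : Un p N e z u) : P0c8ca5.cj g u = u :=
  Un.uniq h hz (Un.congr hgz (Un.cj h hg hu)) hu

theorem fix_of_pow [Fact p.Prime] [CharP k p] [IsAlgClosed k] [Fintype A] (h : Tri p N K e)
    {g x : A} (hg : g ∈ K) (hx : x ∈ K) (hgx : g * x * g⁻¹ * x⁻¹ ∈ N) {n : ℕ}
    (hgn : g ^ p ^ n ∈ N) {u : MonoidAlgebra k A} (hu : u ∈ Ln N e x) : cj g u = u := by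
  by_cases h0 : u = 0
  · rw [h0, cj_zero]
  have h1 : cj g u ∈ Ln N e x := by
    have h2 := Ln_cj h hg hu
    rwa [Ln_congr hgx] at h2
  obtain ⟨c, hc⟩ := ln_line h hx hu h0 h1
  have h3 := cj_pow_smul hc (p ^ n)
  rw [invBy_iff_cj.1 (mem_Ln.1 hu).2.1 _ hgn] at h3
  have h4 : (c ^ p ^ n - 1) • u = 0 := by rw [sub_smul, ← h3, one_smul, sub_self]
  have h5 : c ^ p ^ n = 1 := by
    rcases smul_eq_zero.1 h4 with h6 | h6
    · exact sub_eq_zero.1 h6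
    · exact absurd h6 h0
  rw [hc, one_of_pow h5, one_smul]

theorem cm_one_of_pow [Fact p.Prime] [CharP k p] [IsAlgClosed k] [Fintype A] (h : Tri p N K e)
    {g x : A} (hg : g ∈ K) (hx : x ∈ K) (hgx : g * x * g⁻¹ * x⁻¹ ∈ N) {n : ℕ}
    (hgn : g ^ p ^ n ∈ N) : cm N e g x = e := by
  rw [cm, fix_of_pow h hg hx hgx hgn (lu_mem h hx), lu_mul_lv h hx]

end Pool.Agent.Lib.P0c8ca5.Dz
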