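import Mathlib
import Pool.Agent.Lib.P0c8ca5D.UnA
import Pool.Agent.Lib.P0c8ca5Q.UnC

/-!
# Module UnC: the coefficients of `v u` and of `u`

`z` and `w` commute, `z` is a p-element, `v` is the element of p-power order of the line of `z`, `u` is in the
line of `w`.  Then `(v * u).coeff (z * w) = u.coeff w`.

PROOF.  Put `s = single z⁻¹ 1`, `t = single w⁻¹ 1`, `r = v * s`, `q = u * t`; `r` and `q` are supported on `N`.
(1) `u * s = s * u` as `cj z u = u` (`fix_of_pow` with `g = z`, `z ^ p ^ n = 1 ∈ N`, `[z, w] = 1`), and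
    `(z w)⁻¹ = z⁻¹ w⁻¹`; so `v * u * single (z w)⁻¹ 1 = v * u * s * t = r * q`, and `(v * u).coeff (z * w) = (r * q).coeff 1`,
    `u.coeff w = q.coeff 1` (`coeff_mul_single_apply`).
(2) `v` commutes with `s` (`Un.fix` with `g = z`), so `r ^ m = v ^ m * s ^ m`, and for `m = p ^ j`, `j` large, `r ^ m = e * 1 = e`
    (`v ^ p ^ j = e` for all large `j`, since `e ^ i = e`).  `e * r = r = r * e`: `e * v = v` (line), `e` commutes with `s` and
    `v` (`e` is `K`-invariant: `invBy_iff_commute`, `Ln_mul_e`).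
(3) `r` commutes with `q`: `v` is `N`-invariant, so it commutes with `q` (supported on `N`: `commute_of`); `s` commutes with `u` by
    (1) and with `t`.
(4) `(r - e) ^ p ^ j = r ^ p ^ j - e ^ p ^ j = 0` (`sub_pow_char_pow_of_commute`; `CharP (MonoidAlgebra k A) p` from
    `charP_of_injective_algebraMap`), so `r - e` and `(r - e) * q` are nilpotent (commuting factors: `Commute.isNilpotent_mul_right`);
    it is supported on `N`, so its coefficient at `1` is `0` (`coeff_nilp`).  `e * q = q`.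
-/

namespace Pool.Agent.Lib.P0c8ca5.Dz

open MonoidAlgebra Ps Bq

variable {p : ℕ} {k : Type*} [Field k] {A : Type*} [Group A] {N K : Subgroup A}
  {e : MonoidAlgebra k A}

namespace DUnCAux

theorem supp_shift {x : A} {u : MonoidAlgebra k A} (hu : u ∈ Ln N e x) :
    SuppIn N (u * single x⁻¹ (1 : k)) := by
  intro z hz
  rw [coeff_mul_single_apply, mul_one, inv_inv] at hz
  have h1 := (mem_Ln.1 hu).1 _ hz
  have h2 : z * x * x⁻¹ = z := by group
  rwa [h2] at h1

theorem comm_single {g : A} {a : MonoidAlgebra k A} (h : P0c8ca5.cj g a = a) :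
    Commute (single g (1 : k)) a := by
  change single g (1 : k) * a = a * single g (1 : k)
  ext x
  rw [coeff_single_mul_apply, coeff_mul_single_apply, one_mul, mul_one]
  have h1 := congrArg (fun b => b.coeff (x * g⁻¹)) h
  simp only [coeff_cj] at h1
  rw [← h1]
  congr 1
  group

theorem comm_single_inv {g : A} {a : MonoidAlgebra k A} (h : P0c8ca5.cj g a = a) :
    Commute (single g⁻¹ (1 : k)) a := by
  apply comm_single
  conv_lhs => rw [← h]
  rw [cj_cj, inv_mul_cancel, cj_one_left]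

theorem e_pow (he : e * e = e) {m : ℕ} (hm : m ≠ 0) : e ^ m = e := by
  obtain ⟨j, rfl⟩ := Nat.exists_eq_succ_of_ne_zero hm
  induction j with
  | zero => simp
  | succ j ih => rw [pow_succ, ih (Nat.succ_ne_zero j), he]

end DUnCAux

open DUnCAux in
theorem un_coeff [Fact p.Prime] [CharP k p] [IsAlgClosed k] [Fintype A] (h : Tri p N K e)
    {z w : A} (hz : z ∈ K) (hw : w ∈ K) (hzw : z * w = w * z) {n : ℕ} (hzn : z ^ p ^ n = 1)
    {v u : MonoidAlgebra k A} (hv : Un p N e z v) (hu : u ∈ Ln N e w) :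
    (v * u).coeff (z * w) = u.coeff w := by
  classical
  have hp : p.Prime := Fact.out
  have hv1 : v ∈ Ln N e z := hv.1
  have hzw1 : z * w * z⁻¹ * w⁻¹ ∈ N := by
    have h1 : z * w * z⁻¹ * w⁻¹ = 1 := by rw [hzw]; group
    rw [h1]; exact N.one_mem
  have hzz1 : z * z * z⁻¹ * z⁻¹ ∈ N := by
    have h1 : z * z * z⁻¹ * z⁻¹ = 1 := by group
    rw [h1]; exact N.one_mem
  have cu : P0c8ca5.cj z u = u :=
    fix_of_pow h hz hw hzw1 (n := n) (by rw [hzn]; exact N.one_mem) hu
  have cv : P0c8ca5.cj z v = v := Un.fix h hz hz hzz1 hv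
  have us : Commute (single z⁻¹ (1 : k)) u := comm_single_inv cu
  have vs : Commute (single z⁻¹ (1 : k)) v := comm_single_inv cv
  have es : Commute (single z⁻¹ (1 : k)) e := comm_single_inv (invBy_iff_cj.1 h.inv z hz)
  have st : Commute (single z⁻¹ (1 : k)) (single w⁻¹ (1 : k)) := by
    change single z⁻¹ (1 : k) * single w⁻¹ (1 : k) = single w⁻¹ (1 : k) * single z⁻¹ (1 : k)
    rw [single_mul_single, single_mul_single]
    congr 1
    rw [← mul_inv_rev, ← mul_inv_rev, hzw]
  have ee : e * e = e := h.blk.idem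
  have ev : e * v = v := (mem_Ln.1 hv1).2.2
  have ve : v * e = v := Ln_mul_e h hz hv1
  have eu : e * u = u := (mem_Ln.1 hu).2.2
  have hrN : SuppIn N (v * single z⁻¹ (1 : k)) := supp_shift hv1
  have hqN : SuppIn N (u * single w⁻¹ (1 : k)) := supp_shift hu
  have er : e * (v * single z⁻¹ (1 : k)) = v * single z⁻¹ (1 : k) := by
    rw [← mul_assoc, ev]
  have re : (v * single z⁻¹ (1 : k)) * e = v * single z⁻¹ (1 : k) := by
    rw [mul_assoc, es.eq, ← mul_assoc, ve]
  have eq1 : e * (u * single w⁻¹ (1 : k)) = u * single w⁻¹ (1 : k) := by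
    rw [← mul_assoc, eu]
  have vq : Commute v (u * single w⁻¹ (1 : k)) :=
    (commute_of hqN (mem_Ln.1 hv1).2.1).symm
  have sq : Commute (single z⁻¹ (1 : k)) (u * single w⁻¹ (1 : k)) := us.mul_right st
  have rq : Commute (v * single z⁻¹ (1 : k)) (u * single w⁻¹ (1 : k)) := vq.mul_left sq
  have eq2 : Commute e (u * single w⁻¹ (1 : k)) :=
    (commute_of hqN (h.blk.invBy)).symm
  obtain ⟨j, hj⟩ := hv.2
  have hvm : v ^ p ^ (j + n) = e := by
    rw [pow_add, pow_mul, hj, e_pow ee (pow_ne_zero _ hp.ne_zero)]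
  have hsm : (single z⁻¹ (1 : k)) ^ p ^ (j + n) = 1 := by
    rw [single_pow, one_pow]
    have h1 : z⁻¹ ^ p ^ (j + n) = 1 := by
      rw [inv_pow, add_comm, pow_add, pow_mul, hzn, one_pow, inv_one]
    rw [h1]
    rfl
  have hrm : (v * single z⁻¹ (1 : k)) ^ p ^ (j + n) = e := by
    rw [vs.symm.mul_pow, hvm, hsm, mul_one]
  have hcre : Commute (v * single z⁻¹ (1 : k)) e := by
    change _ * _ = _ * _
    rw [re, er]
  have hchar : CharP (MonoidAlgebra k A) p :=
    charP_of_injective_algebraMap (algebraMap k (MonoidAlgebra k A)).injective p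
  have hnil : IsNilpotent (v * single z⁻¹ (1 : k) - e) := by
    refine ⟨p ^ (j + n), ?_⟩
    rw [sub_pow_char_pow_of_commute _ _ hcre, hrm, e_pow ee (pow_ne_zero _ hp.ne_zero),
      sub_self]
  have hc : Commute (v * single z⁻¹ (1 : k) - e) (u * single w⁻¹ (1 : k)) := rq.sub_left eq2
  have hnil2 : IsNilpotent ((v * single z⁻¹ (1 : k) - e) * (u * single w⁻¹ (1 : k))) :=
    hc.isNilpotent_mul_right hnil
  have hsub : SuppIn N (v * single z⁻¹ (1 : k) - e) := by
    intro x hx
    by_contra hxN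
    have h1 : (v * single z⁻¹ (1 : k)).coeff x = 0 := by
      by_contra h2; exact hxN (hrN x h2)
    have h3 : e.coeff x = 0 := by
      by_contra h2; exact hxN (h.blk.suppIn x h2)
    apply hx
    rw [coeff_sub, Finsupp.sub_apply, h1, h3, sub_zero]
  have hcoef := coeff_nilp h.dz (hsub.mul hqN) (by
    rw [← mul_assoc, mul_sub, er, ee]) hnil2
  rw [sub_mul, eq1, coeff_sub, Finsupp.sub_apply, sub_eq_zero] at hcoef
  have h1 : (v * u).coeff (z * w)
      = ((v * single z⁻¹ (1 : k)) * (u * single w⁻¹ (1 : k))).coeff 1 := by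
    have h2 : (v * single z⁻¹ (1 : k)) * (u * single w⁻¹ (1 : k))
        = v * u * single (z⁻¹ * w⁻¹) (1 : k) := by
      rw [mul_assoc v, ← mul_assoc (single z⁻¹ (1 : k)), us.eq, mul_assoc u, single_mul_single,
        one_mul, ← mul_assoc]
    rw [h2, coeff_mul_single_apply, mul_one, one_mul, mul_inv_rev, inv_inv, inv_inv, hzw]
  have h3 : u.coeff w = (u * single w⁻¹ (1 : k)).coeff 1 := by
    rw [coeff_mul_single_apply, mul_one, one_mul, inv_inv]
  rw [h1, h3, hcoef]

end Pool.Agent.Lib.P0c8ca5.Dz
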