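import Mathlib
import Pool.Agent.Lib.P0c8ca5D.SecI
import Pool.Agent.Lib.P0c8ca5D.Gq
import Pool.Agent.Lib.P0c8ca5Q.BetA

/-!
# Module BetA: the Brauer map on `Tc N (N ⊔ C_K(P)) e 1`

`br P a` is the part of `a` supported in `C(P)` (P0c8ca5S.Tra), `N' = N ⊓ C(P)`, `e' = br P e`, `C = Cp K P`,
`N₁ = N ⊔ C`; `tri_br`: `Tri p N' (Lp K P) e'`.

PROOFS.
* `br_res`: for `z ∈ C(P)`, `c ∈ C(P)`: `z c⁻¹ ∈ N` iff `z c⁻¹ ∈ N ⊓ C(P)`.  Compare coefficients.
* `tc_inv`: let `y ∈ P`, `z ∈ A`, to show `a.coeff (y z y⁻¹) = a.coeff z`.  If `z ∉ N₁` both are `0` (`P` normalizes `N₁`: it normalizes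
  `N` and centralizes `C`).  Let `z = n c` (`mem_N1`); `u = resS (cos N c) a ∈ Ln N e c` (`res_mem_Ln`) is fixed by `P` (`ln_invBy` in Tra),
  `z, y z y⁻¹ ∈ N c` (`y n c y⁻¹ = (y n y⁻¹) c`), so `a` and `u` have the same coefficients there.
* `br_mem`: support: `z ∈ C(P)`, `z ∈ N₁`, so `z ∈ C` (`inf_eq`; `C(P)` is contained in the normalizer).  Invariance under `N'`:
  the set `C(P)` is stable under conjugation by `N'`.  `e' * br P a = br P (e * a)` by `resS_mul` (`h.tri.inv` for `e`, `tc_inv`).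
* `br_inj`: let `br P a = 0`.  For `c ∈ C` `u = resS (cos N c) a ∈ Ln N e c` has `br P u = resS (cos N' c) (br P a) = 0`
  (`br_res`), so `u = 0` by `br_ne_zero`.  Every `z ∈ N₁` is in some `N c`, so `a = 0`.
* `br_surj`: let `a' ∈ Tc N' C e' 1`.  Choose representatives `c_i ∈ C` of the cosets of `N'` in `C` (so also of the cosets of
  `N` in `N₁`: `N c = N c'` iff `c c'⁻¹ ∈ N ⊓ C(P)`).  `resS (cos N' c_i) a' ∈ Ln N' e' c_i` (`res_mem_Ln` for the triple `tri_br`) is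
  `μ_i • br P (lu N e c_i)` (`ln_line`, `br_Ln`, `br_ne_zero`, `lu ≠ 0`).  `a = ∑ μ_i • lu N e c_i`: `br P a = ∑ resS (cos N' c_i) a' =
  a'` (compare coefficients; `a'` is supported on `C`).
-/

namespace Pool.Agent.Lib.P0c8ca5.Dz

open MonoidAlgebra Ps Bq

variable {p : ℕ} {k : Type*} [Field k] {A : Type*} [Group A] {N K P : Subgroup A}
  {e : MonoidAlgebra k A}

theorem br_res {c : A} (hc : c ∈ Subgroup.centralizer (P : Set A)) (a : MonoidAlgebra k A) :
    br P (resS (cos N c) a)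
      = resS (cos (N ⊓ Subgroup.centralizer (P : Set A)) c) (br P a) := by
  ext z
  by_cases hz : z ∈ (Subgroup.centralizer (P : Set A) : Set A)
  · have h1 : z * c⁻¹ ∈ Subgroup.centralizer (P : Set A) :=
      Subgroup.mul_mem _ hz (Subgroup.inv_mem _ hc)
    by_cases hzN : z * c⁻¹ ∈ N
    · have h2 : z ∈ cos (N ⊓ Subgroup.centralizer (P : Set A)) c := Subgroup.mem_inf.2 ⟨hzN, h1⟩
      have h3 : z ∈ cos N c := hzN
      unfold br
      rw [coeff_resS_of_mem _ hz, coeff_resS_of_mem _ h3, coeff_resS_of_mem _ h2,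
        coeff_resS_of_mem _ hz]
    · have h2 : z ∉ cos (N ⊓ Subgroup.centralizer (P : Set A)) c :=
        fun h => hzN (Subgroup.mem_inf.1 h).1
      have h3 : z ∉ cos N c := hzN
      unfold br
      rw [coeff_resS_of_mem _ hz, coeff_resS_of_notMem _ h3, coeff_resS_of_notMem _ h2]
  · have h2 : z ∉ cos (N ⊓ Subgroup.centralizer (P : Set A)) c := by
      intro h
      apply hz
      have h3 := Subgroup.mul_mem _ (Subgroup.mem_inf.1 h).2 hc
      rwa [inv_mul_cancel_right] at h3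
    unfold br
    rw [coeff_resS_of_notMem _ hz, coeff_resS_of_notMem _ h2]

namespace DBetAAux

theorem conj_mem (h : Par p N K P e) {g n c : A} (hg : g ∈ P) (hn : n ∈ N)
    (hc : c ∈ Subgroup.centralizer (P : Set A)) :
    g * (n * c) * g⁻¹ * c⁻¹ ∈ N := by
  have h1 : g * n * g⁻¹ ∈ N := (Subgroup.mem_normalizer_iff.1 (h.tri.nm (h.PK hg)) n).1 hn
  have h2 : g * c = c * g := Subgroup.mem_centralizer_iff.1 hc g hg
  have h3 : g * (n * c) * g⁻¹ * c⁻¹ = g * n * g⁻¹ := by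
    calc g * (n * c) * g⁻¹ * c⁻¹ = g * n * g⁻¹ * (g * c) * g⁻¹ * c⁻¹ := by group
      _ = g * n * g⁻¹ * (c * g) * g⁻¹ * c⁻¹ := by rw [h2]
      _ = g * n * g⁻¹ := by group
  rwa [h3]

theorem conj_N1 (h : Par p N K P e) {g z : A} (hg : g ∈ P) (hz : z ∈ N ⊔ Cp K P) :
    g * z * g⁻¹ ∈ N ⊔ Cp K P := by
  obtain ⟨n, hn, c, hc, rfl⟩ := h.mem_N1.1 hz
  refine h.mem_N1.2 ⟨_, conj_mem h hg hn (Subgroup.mem_inf.1 hc).2, c, hc, ?_⟩
  rw [inv_mul_cancel_right]

theorem mem_N1_of {X : Subgroup A} {x : A} (hx : x * 1⁻¹ ∈ X) : x ∈ X := by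
  simpa using hx

theorem br_add (a b : MonoidAlgebra k A) : br P (a + b) = br P a + br P b := resS_add _ _ _

theorem br_smul (c : k) (a : MonoidAlgebra k A) : br P (c • a) = c • br P a := resS_smul _ _ _

theorem br_zero : br P (0 : MonoidAlgebra k A) = 0 := resS_zero _

theorem Ln_le_Tc {N X : Subgroup A} {e : MonoidAlgebra k A} (hNX : N ≤ X) {c : A} (hc : c ∈ X) :
    Ln N e c ≤ Tc N X e 1 := by
  intro u hu
  obtain ⟨h1, h2, h3⟩ := mem_Ln.1 hu
  refine mem_Tc.2 ⟨fun z hz => ?_, h2, h3⟩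
  have h4 := X.mul_mem (hNX (h1 z hz)) hc
  rw [inv_mul_cancel_right] at h4
  simpa using h4

end DBetAAux

open DBetAAux in
theorem Par.tc_inv [Fact p.Prime] [CharP k p] [IsAlgClosed k] [Fintype A] (h : Par p N K P e)
    {a : MonoidAlgebra k A} (ha : a ∈ Tc N (N ⊔ Cp K P) e 1) : InvBy P a := by
  obtain ⟨h1, h2, h3⟩ := mem_Tc.1 ha
  intro g hg z
  by_cases hz : z ∈ N ⊔ Cp K P
  · obtain ⟨n, hn, c, hc, rfl⟩ := h.mem_N1.1 hz
    obtain ⟨hcK, hcP⟩ := Subgroup.mem_inf.1 hc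
    have hu := res_mem_Ln h.tri h2 h3 hcK
    have hi := ln_invBy h.tri h.PK h.PP hcK hcP hu g hg (n * c)
    have m1 : g * (n * c) * g⁻¹ ∈ cos N c := conj_mem h hg hn hcP
    have m2 : n * c ∈ cos N c := by
      rw [mem_cos, mul_inv_cancel_right]; exact hn
    rwa [coeff_resS_of_mem _ m1, coeff_resS_of_mem _ m2] at hi
  · have hz' : g * z * g⁻¹ ∉ N ⊔ Cp K P := by
      intro h4
      apply hz
      have h5 := conj_N1 h (P.inv_mem hg) h4
      have h6 : g⁻¹ * (g * z * g⁻¹) * g⁻¹⁻¹ = z := by group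
      rwa [h6] at h5
    have e1 : a.coeff z = 0 := by
      by_contra h4
      exact hz (mem_N1_of (h1 z h4))
    have e2 : a.coeff (g * z * g⁻¹) = 0 := by
      by_contra h4
      exact hz' (mem_N1_of (h1 _ h4))
    rw [e1, e2]

open DBetAAux in
theorem Par.br_mem [Fact p.Prime] [CharP k p] [IsAlgClosed k] [Fintype A] (h : Par p N K P e)
    {a : MonoidAlgebra k A} (ha : a ∈ Tc N (N ⊔ Cp K P) e 1) :
    br P a ∈ Tc (N ⊓ Subgroup.centralizer (P : Set A)) (Cp K P) (br P e) 1 := by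
  have hi := h.tc_inv ha
  obtain ⟨h1, h2, h3⟩ := mem_Tc.1 ha
  refine mem_Tc.2 ⟨fun z hz => ?_, ?_, ?_⟩
  · have hzC : z ∈ (Subgroup.centralizer (P : Set A) : Set A) := by
      by_contra h4
      exact hz (coeff_resS_of_notMem _ h4)
    unfold br at hz
    rw [coeff_resS_of_mem _ hzC] at hz
    have h5 := h.inf_eq (mem_N1_of (h1 z hz)) (Subgroup.centralizer_le_normalizer _ hzC)
    rwa [inv_one, mul_one]
  · exact resS_invBy (inf_le_right.trans Subgroup.le_normalizer) (h2.mono inf_le_left)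
  · unfold br
    rw [← resS_mul h.PP (h.tri.inv.mono h.PK) hi, h3]

open DBetAAux in
theorem Par.br_inj [Fact p.Prime] [CharP k p] [IsAlgClosed k] [Fintype A] (h : Par p N K P e)
    {a : MonoidAlgebra k A} (ha : a ∈ Tc N (N ⊔ Cp K P) e 1) (h0 : br P a = 0) : a = 0 := by
  obtain ⟨h1, h2, h3⟩ := mem_Tc.1 ha
  by_contra hne
  obtain ⟨z, hz⟩ := exists_coeff hne
  obtain ⟨n, hn, c, hc, rfl⟩ := h.mem_N1.1 (mem_N1_of (h1 z hz))
  obtain ⟨hcK, hcP⟩ := Subgroup.mem_inf.1 hc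
  have hu := res_mem_Ln h.tri h2 h3 hcK
  have m2 : n * c ∈ cos N c := by
    rw [mem_cos, mul_inv_cancel_right]; exact hn
  have hu0 : resS (cos N c) a ≠ 0 := by
    intro h4
    have h5 := congrArg (fun b => b.coeff (n * c)) h4
    simp only [coeff_resS_of_mem _ m2] at h5
    exact hz h5
  have h6 := br_ne_zero h.tri h.PK h.PP h.hbr hcK hcP hu hu0
  apply h6
  rw [br_res hcP, h0, resS_zero]

open DBetAAux in
theorem Par.br_surj [Fact p.Prime] [CharP k p] [IsAlgClosed k] [Fintype A] (h : Par p N K P e)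
    {a' : MonoidAlgebra k A}
    (ha' : a' ∈ Tc (N ⊓ Subgroup.centralizer (P : Set A)) (Cp K P) (br P e) 1) :
    ∃ a ∈ Tc N (N ⊔ Cp K P) e 1, br P a = a' := by
  classical
  obtain ⟨m, hm⟩ : ∃ m, m = a'.coeff.support.card := ⟨_, rfl⟩
  induction m using Nat.strong_induction_on generalizing a' with
  | _ m ih =>
    by_cases h0 : a' = 0
    · exact ⟨0, Submodule.zero_mem _, by rw [h0, br_zero]⟩
    obtain ⟨z, hz⟩ := exists_coeff h0
    obtain ⟨h1, h2, h3⟩ := mem_Tc.1 ha'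
    have hzC : z ∈ Cp K P := mem_N1_of (h1 z hz)
    obtain ⟨hzK, hzP⟩ := Subgroup.mem_inf.1 hzC
    have hT := tri_br h.tri h.PK h.PP h.hbr
    have hzL : z ∈ K ⊓ Subgroup.normalizer (P : Set A) :=
      Subgroup.mem_inf.2 ⟨hzK, Subgroup.centralizer_le_normalizer _ hzP⟩
    have hb := res_mem_Ln hT h2 h3 hzL
    have hlu := lu_mem h.tri hzK
    have hlu0 : lu N e z ≠ 0 := by
      intro h4
      have h5 := lu_mul_lv h.tri hzK
      rw [h4, zero_mul] at h5
      exact h.tri.blk.ne_zero h5.symm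
    obtain ⟨μ, hμ⟩ := ln_line hT hzL (br_Ln h.tri h.PK h.PP hzK hzP hlu)
      (br_ne_zero h.tri h.PK h.PP h.hbr hzK hzP hlu hlu0) hb
    obtain ⟨b, hbdef⟩ : ∃ b, b = resS (cos (N ⊓ Subgroup.centralizer (P : Set A)) z) a' := ⟨_, rfl⟩
    rw [← hbdef] at hb hμ
    have hbT : b ∈ Tc (N ⊓ Subgroup.centralizer (P : Set A)) (Cp K P) (br P e) 1 :=
      Ln_le_Tc (inf_le_inf_right _ h.tri.le) hzC hb
    have hsub := Submodule.sub_mem _ ha' hbT
    have hcard : (a' - b).coeff.support.card < m := by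
      rw [hm]
      apply Finset.card_lt_card
      rw [Finset.ssubset_iff_of_subset]
      · refine ⟨z, Finsupp.mem_support_iff.2 hz, ?_⟩
        rw [Finsupp.notMem_support_iff, coeff_sub, Finsupp.sub_apply, hbdef,
          coeff_resS_of_mem, sub_self]
        rw [mem_cos, mul_inv_cancel]
        exact Subgroup.one_mem _
      · intro y hy
        rw [Finsupp.mem_support_iff] at hy ⊢
        intro h4
        apply hy
        rw [coeff_sub, Finsupp.sub_apply, hbdef, coeff_resS, h4]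
        simp
    obtain ⟨a₂, ha₂, hbr⟩ := ih _ hcard hsub rfl
    refine ⟨a₂ + μ • lu N e z, Submodule.add_mem _ ha₂ (Submodule.smul_mem _ _
      (Ln_le_Tc le_sup_left (Subgroup.mem_sup_right hzC) hlu)), ?_⟩
    rw [br_add, br_smul, hbr, ← hμ, sub_add_cancel]

theorem Par.br_mul [Fact p.Prime] [CharP k p] [IsAlgClosed k] [Fintype A] (h : Par p N K P e)
    {a b : MonoidAlgebra k A} (ha : a ∈ Tc N (N ⊔ Cp K P) e 1)
    (hb : b ∈ Tc N (N ⊔ Cp K P) e 1) : br P (a * b) = br P a * br P b := by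
  exact resS_mul h.PP (h.tc_inv ha) (h.tc_inv hb)

/-- `Tc N X e 1` is closed under products -/
theorem tc_mul (h : Tri p N K e) {X : Subgroup A} {a b : MonoidAlgebra k A}
    (ha : a ∈ Tc N X e 1) (hb : b ∈ Tc N X e 1) : a * b ∈ Tc N X e 1 := by
  obtain ⟨h1, h2, h3⟩ := mem_Tc.1 ha
  obtain ⟨h1', h2', -⟩ := mem_Tc.1 hb
  have s1 : SuppIn X a := fun z hz => by simpa using h1 z hz
  have s2 : SuppIn X b := fun z hz => by simpa using h1' z hz
  refine mem_Tc.2 ⟨fun z hz => ?_, InvBy.mul' h2 h2', by rw [← mul_assoc, h3]⟩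
  have := (s1.mul s2) z hz
  simpa using this

/-- the element of p-power order -/
theorem Par.br_un [Fact p.Prime] [CharP k p] [IsAlgClosed k] [Fintype A] (h : Par p N K P e)
    {z : A} (hz : z ∈ Cp K P) {v : MonoidAlgebra k A} (hv : Un p N e z v) :
    Un p (N ⊓ Subgroup.centralizer (P : Set A)) (br P e) z (br P v) := by
  obtain ⟨hzK, hzP⟩ := Subgroup.mem_inf.1 hz
  obtain ⟨hv1, n, hn⟩ := hv
  have hvi := ln_invBy h.tri h.PK h.PP hzK hzP hv1
  refine ⟨br_Ln h.tri h.PK h.PP hzK hzP hv1, n, ?_⟩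
  have h1 : ∀ m : ℕ, InvBy P (v ^ m) ∧ br P (v ^ m) = (br P v) ^ m := by
    intro m
    induction m with
    | zero =>
      have hs : ∀ M : Subgroup A, SuppIn M (1 : MonoidAlgebra k A) := by
        intro M x hx
        rw [MonoidAlgebra.one_def, coeff_single] at hx
        have : (1 : A) = x := by
          by_contra hne
          exact hx (Finsupp.single_eq_of_ne (Ne.symm hne))
        rw [← this]
        exact M.one_mem
      rw [pow_zero, pow_zero]
      refine ⟨?_, resS_eq_self (hs _)⟩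
      rw [invBy_iff_cj]
      intro g _
      exact cj_one g
    | succ m ih =>
      rw [pow_succ, pow_succ]
      refine ⟨InvBy.mul' ih.1 hvi, ?_⟩
      rw [← ih.2]
      exact resS_mul h.PP ih.1 hvi
  rw [← (h1 _).2, hn]

end Pool.Agent.Lib.P0c8ca5.Dz
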