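import Mathlib
import Pool.Agent.Lib.P0c8ca5D.Gq
import Pool.Agent.Lib.P0c8ca5S.Psi
import Pool.Agent.Lib.P0c8ca5S.Unq

/-!
# Module Psi: a p-group has a splitting in the lines

For a p-group `P ≤ K` there are elements `ψ x` of the lines of the `x ∈ P` with `ψ (x y) = ψ x ψ y`.

PROOF.  For `x, y ∈ P`: `lu x * lu y = c x y • lu (x y)` with `c x y ≠ 0` (`Ln_mul`, `ln_line`; `lu x` is
invertible).  Associativity: `c x y * c (x y) z = c x (y z) * c y z`.  The product over `x ∈ P`: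
`b y * b z = b (y z) * c y z ^ |P|`, `b y = ∏ x, c x y`.  `|P| = p ^ n` and `k` is algebraically closed of
characteristic `p`: there are unique `β y` with `β y ^ |P| = b y`, so `β y * β z = β (y z) * c y z` (the p-power
roots are unique).  `ψ y = (β y)⁻¹ • lu y`.
`psi_cj`: if `ψ`, `ψ'` are two such families for `P` and `P' = g P g⁻¹`, then `cj g (ψ x)` and
`ψ' (g x g⁻¹)` differ by a homomorphism `P → kˣ`, trivial in characteristic `p`.
-/

namespace Pool.Agent.Lib.P0c8ca5.Dz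

open MonoidAlgebra Ps Bq

variable {p : ℕ} {k : Type*} [Field k] {A : Type*} [Group A] {N K : Subgroup A}
  {e : MonoidAlgebra k A}

namespace DPsiAux

theorem lu_ne [Fact p.Prime] [CharP k p] [IsAlgClosed k] [Fintype A] (h : Tri p N K e)
    {x : A} (hx : x ∈ K) : lu N e x ≠ 0 := by
  intro h0
  have h1 := lu_mul_lv h hx
  rw [h0, zero_mul] at h1
  exact h.blk.ne_zero h1.symm

theorem lu_mul_ne [Fact p.Prime] [CharP k p] [IsAlgClosed k] [Fintype A] (h : Tri p N K e)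
    {x y : A} (hx : x ∈ K) (hy : y ∈ K) : lu N e x * lu N e y ≠ 0 := by
  intro h0
  have h1 : lv N e x * (lu N e x * lu N e y) * lv N e y = e := by
    rw [← mul_assoc, lv_mul_lu h hx, (mem_Ln.1 (lu_mem h hy)).2.2, lu_mul_lv h hy]
  rw [h0, mul_zero, zero_mul] at h1
  exact h.blk.ne_zero h1.symm

end DPsiAux

theorem exists_psi [Fact p.Prime] [CharP k p] [IsAlgClosed k] [Fintype A] (h : Tri p N K e)
    {P : Subgroup A} (hPK : P ≤ K) (hP : IsPGroup p P) :
    ∃ ψ : A → MonoidAlgebra k A, (∀ x ∈ P, ψ x ∈ Ln N e x) ∧ ψ 1 = e ∧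
      ∀ x ∈ P, ∀ y ∈ P, ψ (x * y) = ψ x * ψ y := by
  classical
  have hex : ∀ x y : P, ∃ c : k, lu N e (x : A) * lu N e (y : A) = c • lu N e ((x * y : P) : A) := by
    intro x y
    exact LnBAux.line_lu h (hPK (x * y : P).2) (Ln_mul h (hPK x.2) (lu_mem h (hPK x.2)) (lu_mem h (hPK y.2)))
  choose c hc using hex
  have hc0 : ∀ x y, c x y ≠ 0 := by
    intro x y h0
    have h1 := hc x y
    rw [h0, zero_smul] at h1
    exact DPsiAux.lu_mul_ne h (hPK x.2) (hPK y.2) h1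
  have hassoc : ∀ x y z : P, c x y * c (x * y) z = c y z * c x (y * z) := by
    intro x y z
    have h1 : lu N e (x : A) * lu N e (y : A) * lu N e (z : A) =
        (c x y * c (x * y) z) • lu N e ((x * y * z : P) : A) := by
      rw [hc x y, smul_mul_assoc, hc (x * y) z, smul_smul]
    have h2 : lu N e (x : A) * lu N e (y : A) * lu N e (z : A) =
        (c y z * c x (y * z)) • lu N e ((x * y * z : P) : A) := by
      rw [mul_assoc, hc y z, mul_smul_comm, hc x (y * z), smul_smul, mul_assoc x y z]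
    exact PsiAux.smul_inj (DPsiAux.lu_ne h (hPK (x * y * z : P).2)) (h1.symm.trans h2)
  obtain ⟨n, hn⟩ := IsPGroup.iff_card.1 hP
  have hn' : Fintype.card P = p ^ n := by rw [← Nat.card_eq_fintype_card, hn]
  have hpn : 0 < p ^ n := pow_pos (Fact.out : p.Prime).pos n
  have hb : ∀ y z : P, (∏ x, c x y) * (∏ x, c x z) = c y z ^ p ^ n * ∏ x, c x (y * z) := by
    intro y z
    have h1 : ∏ x, c x z = ∏ x, c (x * y) z := by
      exact (Fintype.prod_equiv (Equiv.mulRight y) (fun x => c (x * y) z) (fun x => c x z) (fun x => rfl)).symm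
    rw [h1, ← Finset.prod_mul_distrib, Finset.prod_congr rfl (fun x _ => hassoc x y z), Finset.prod_mul_distrib,
      Finset.prod_const, Finset.card_univ, hn']
  have hβex : ∀ y : P, ∃ b : k, b ^ p ^ n = ∏ x, c x y := fun y => IsAlgClosed.exists_pow_nat_eq _ hpn
  choose β hβ using hβex
  have hβ0 : ∀ y, β y ≠ 0 := by
    intro y h0
    have h1 := hβ y
    rw [h0, zero_pow hpn.ne'] at h1
    exact (Finset.prod_ne_zero_iff.2 fun x _ => hc0 x y) h1.symm
  have hβm : ∀ y z, β y * β z = c y z * β (y * z) := by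
    intro y z
    apply PsiAux.pow_inj (p := p) n
    rw [mul_pow, mul_pow, hβ, hβ, hβ, hb]
  let ψ : A → MonoidAlgebra k A := fun x => if hx : x ∈ P then (β ⟨x, hx⟩)⁻¹ • lu N e x else 0
  have hψ : ∀ x : P, ψ x = (β x)⁻¹ • lu N e (x : A) := by
    intro x
    change (if hx : (x : A) ∈ P then (β ⟨x, hx⟩)⁻¹ • lu N e (x : A) else 0) = _
    rw [dif_pos x.2]
  have hmul : ∀ x y : P, ψ ((x * y : P) : A) = ψ x * ψ y := by
    intro x y
    rw [hψ, hψ, hψ, smul_mul_assoc, mul_smul_comm, hc, smul_smul, smul_smul]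
    congr 1
    have h1 := hβm x y
    have h2 := hβ0 x
    have h3 := hβ0 y
    have h4 := hβ0 (x * y)
    field_simp
    rw [mul_comm (β x) (β y)] at h1
    first | linear_combination h1 | linear_combination -h1
  have hmem : ∀ x : P, ψ x ∈ Ln N e (x : A) := by
    intro x
    rw [hψ]
    exact (Ln N e (x : A)).smul_mem _ (lu_mem h (hPK x.2))
  have hne : ∀ x : P, ψ x ≠ 0 := by
    intro x
    rw [hψ]
    exact smul_ne_zero (inv_ne_zero (hβ0 x)) (DPsiAux.lu_ne h (hPK x.2))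
  refine ⟨ψ, fun x hx => hmem ⟨x, hx⟩, ?_, fun x hx y hy => hmul ⟨x, hx⟩ ⟨y, hy⟩⟩
  obtain ⟨d, hd⟩ := ln_line h K.one_mem (e_mem_Ln h) h.blk.ne_zero (hmem 1)
  have h1 : ψ ((1 : P) : A) = ψ ((1 : P) : A) * ψ ((1 : P) : A) := by
    have := hmul 1 1
    rwa [mul_one] at this
  rw [hd, smul_mul_assoc, mul_smul_comm, h.blk.idem, smul_smul] at h1
  have h2 : d = d * d := PsiAux.smul_inj h.blk.ne_zero h1
  have h3 : d ≠ 0 := by
    intro h0
    rw [h0, zero_smul] at hd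
    exact hne 1 hd
  have h4 : d = 1 := by
    have h5 : d * 1 = d * d := by rw [mul_one]; exact h2
    exact (mul_left_cancel₀ h3 h5).symm
  rw [h4, one_smul] at hd
  exact hd

theorem psi_cj [Fact p.Prime] [CharP k p] [IsAlgClosed k] [Fintype A] (h : Tri p N K e)
    {P : Subgroup A} (hPK : P ≤ K) (hP : IsPGroup p P) {ψ : A → MonoidAlgebra k A}
    (h1 : ∀ x ∈ P, ψ x ∈ Ln N e x) (h2 : ψ 1 = e)
    (h3 : ∀ x ∈ P, ∀ y ∈ P, ψ (x * y) = ψ x * ψ y) {g : A} (hg : g ∈ K)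
    (hgP : g ∈ Subgroup.normalizer (P : Set A)) {x : A} (hx : x ∈ P) :
    cj g (ψ x) = ψ (g * x * g⁻¹) := by
  classical
  have hgx : ∀ y ∈ P, g * y * g⁻¹ ∈ P := fun y hy => (Subgroup.mem_normalizer_iff.1 hgP y).1 hy
  have hne : ∀ y ∈ P, ψ y ≠ 0 := by
    intro y hy h0
    have h4 := h3 y hy y⁻¹ (P.inv_mem hy)
    rw [mul_inv_cancel, h2, h0, zero_mul] at h4
    exact h.blk.ne_zero h4
  obtain ⟨d, hd⟩ := ln_line h (hPK (hgx x hx)) (h1 _ (hgx x hx)) (hne _ (hgx x hx))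
    (Ln_cj h hg (h1 x hx))
  have hpow : ∀ m : ℕ, cj g (ψ (x ^ m)) = d ^ m • ψ (g * x ^ m * g⁻¹) := by
    intro m
    induction m with
    | zero =>
      rw [pow_zero, pow_zero, mul_one, mul_inv_cancel, h2, one_smul]
      exact invBy_iff_cj.1 h.inv g hg
    | succ m ih =>
      have h5 : g * x ^ (m + 1) * g⁻¹ = (g * x ^ m * g⁻¹) * (g * x * g⁻¹) := by
        rw [pow_succ]; group
      rw [pow_succ x m, h3 _ (P.pow_mem hx m) _ hx, cj_mul, ih, hd, smul_mul_assoc, mul_smul_comm, smul_smul,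
        ← pow_succ x m, h5, h3 _ (hgx _ (P.pow_mem hx m)) _ (hgx x hx), pow_succ d m]
  obtain ⟨n, hn⟩ := IsPGroup.iff_card.1 hP
  have hxn : x ^ p ^ n = 1 := by
    have h6 : (⟨x, hx⟩ : P) ^ Nat.card P = 1 := pow_card_eq_one'
    rw [hn] at h6
    exact congrArg Subtype.val h6
  have h7 := hpow (p ^ n)
  rw [hxn, mul_one, mul_inv_cancel, h2, invBy_iff_cj.1 h.inv g hg] at h7
  have h8 : (1 : k) = d ^ p ^ n := by
    apply PsiAux.smul_inj h.blk.ne_zero
    rw [one_smul]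
    exact h7
  have h9 : d = 1 := by
    apply PsiAux.pow_inj (p := p) n
    rw [one_pow]
    exact h8.symm
  rw [hd, h9, one_smul]

open UnqAux in
theorem psi_act [Fact p.Prime] [CharP k p] [IsAlgClosed k] [Fintype A] (h : Tri p N K e)
    {P : Subgroup A} (hPK : P ≤ K) (hP : IsPGroup p P) (hbr : HasBr P e)
    (hNP : K ≤ Subgroup.normalizer ((N ⊔ P : Subgroup A) : Set A))
    {ψ : A → MonoidAlgebra k A} (h1 : ∀ x ∈ P, ψ x ∈ Ln N e x) (h2 : ψ 1 = e)
    (h3 : ∀ x ∈ P, ∀ y ∈ P, ψ (x * y) = ψ x * ψ y) {m : ℕ} {ρ : Rp k K m} (hρ : Irr' ρ)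
    (hρe : act ρ e = 1) {x : A} (hx : x ∈ P) : act ρ (ψ x) = 1 := by
  classical
  have hLn : ∀ y ∈ P, SuppIn K (ψ y) := fun y hy => Ln_supp h (hPK hy) (h1 y hy)
  let T : P →* Module.End k (Fin m → k) :=
    { toFun := fun y => act ρ (ψ y)
      map_one' := by
        show act ρ (ψ ((1 : P) : A)) = 1
        rw [Subgroup.coe_one, h2, hρe]
      map_mul' := fun y z => by
        show act ρ (ψ ((y * z : P) : A)) = act ρ (ψ y) * act ρ (ψ z)
        rw [Subgroup.coe_mul, h3 _ y.2 _ z.2, act_mul ρ (hLn _ y.2)] }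
  let V₀ : Submodule k (Fin m → k) :=
    { carrier := {v | ∀ y ∈ P, act ρ (ψ y) v = v}
      add_mem' := fun {a b} ha hb y hy => by rw [map_add, ha y hy, hb y hy]
      zero_mem' := fun y hy => map_zero _
      smul_mem' := fun c a ha y hy => by rw [map_smul, ha y hy] }
  have hN : ∀ g (hg : g ∈ N), ∀ v ∈ V₀, ρ ⟨g, h.le hg⟩ v ∈ V₀ := by
    intro g hg v hv y hy
    have e1 : cj g (ψ y) = ψ y := invBy_iff_cj.1 (mem_Ln.1 (h1 y hy)).2.1 g hg
    have e2 := act_cj ρ (h.le hg) (ψ y) v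
    rw [e1] at e2
    rw [e2, hv y hy]
  have hL : ∀ g (hg : g ∈ K ⊓ Subgroup.normalizer (P : Set A)), ∀ v ∈ V₀,
      ρ ⟨g, hg.1⟩ v ∈ V₀ := by
    intro g hg v hv y hy
    have hz : g⁻¹ * y * g ∈ P := by
      have := (Subgroup.mem_normalizer_iff.1 (Subgroup.inv_mem _ hg.2) y).1 hy
      rwa [inv_inv] at this
    have e1 := psi_cj h hPK hP h1 h2 h3 hg.1 hg.2 hz
    have e0 : g * (g⁻¹ * y * g) * g⁻¹ = y := by group
    rw [e0] at e1
    have e2 := act_cj ρ hg.1 (ψ (g⁻¹ * y * g)) v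
    rw [e1] at e2
    rw [e2, hv _ hz]
  have hst : ∀ g (hg : g ∈ K), ∀ v ∈ V₀, ρ ⟨g, hg⟩ v ∈ V₀ := by
    intro g hg v hv
    have hpar : Par p N K P e := ⟨h, hPK, hP, hbr⟩
    obtain ⟨n, hn, l, hl, rfl⟩ := hpar.frat hNP hg
    have e3 : (⟨n * l, hg⟩ : K) = ⟨n, h.le hn⟩ * ⟨l, hl.1⟩ := rfl
    rw [e3, map_mul, Module.End.mul_apply]
    exact hN n hn _ (hL l hl v hv)
  rcases hρ.sub V₀ (fun g w hw => hst g g.2 w hw) with h0 | h0
  · exfalso
    have hnt := hρ.nontriv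
    obtain ⟨w, hw⟩ := exists_ne (0 : Fin m → k)
    obtain ⟨y, hy0, hyf, -⟩ := exists_fixed hP T w hw
    have h4 : y ∈ V₀ := fun z hz => hyf ⟨z, hz⟩
    rw [h0, Submodule.mem_bot] at h4
    exact hy0 h4
  · apply LinearMap.ext
    intro v
    have h4 : v ∈ V₀ := by rw [h0]; exact Submodule.mem_top
    exact h4 x hx

end Pool.Agent.Lib.P0c8ca5.Dz
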