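import Mathlib
import Pool.Agent.Lib.P0c8ca5D.BetA
import Pool.Agent.Lib.P0c8ca5D.Psi
import Pool.Agent.Lib.P0c8ca5Q.BrNe

/-!
# Module BrNe: the Brauer map does not kill central idempotents below `e`

As P0c8ca5Q.BrNe, but the sum over the cosets is a sum over the subsets `cos N z` of `A` (p may divide the order of `N`): the fixed
points of `P` are the cosets `N z` with `[P, z] ≤ N`, and these are the cosets `N l` with `l ∈ C_K(P)` (`Par.frat`).
-/

namespace Pool.Agent.Lib.P0c8ca5.Dz

open MonoidAlgebra Ps Bq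

variable {p : ℕ} {k : Type*} [Field k] {A : Type*} [Group A] {N K P : Subgroup A}
  {e : MonoidAlgebra k A}

namespace DBrNeAux

/-- conjugation on the subsets -/
noncomputable def cjS (P : Subgroup A) : P →* Equiv.Perm (Set A) where
  toFun y := Equiv.Set.congr (MulAut.conj (y : A)).toEquiv
  map_one' := by
    ext S x
    simp [Equiv.Set.congr]
  map_mul' y z := by
    ext S x
    simp only [Equiv.Set.congr, Subgroup.coe_mul, map_mul, Equiv.Perm.mul_apply, Equiv.coe_fn_mk]
    rw [Set.image_image]
    rfl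

theorem cjS_cos (hPN : P ≤ Subgroup.normalizer (N : Set A)) (y : P) (z : A) :
    cjS P y (cos N z) = cos N ((y : A) * z * (y : A)⁻¹) := by
  have hy := hPN y.2
  ext w
  change w ∈ (fun t => (y : A) * t * (y : A)⁻¹) '' cos N z ↔ _
  rw [Set.mem_image]
  constructor
  · rintro ⟨t, ht, rfl⟩
    rw [mem_cos] at ht ⊢
    have h1 := (Subgroup.mem_normalizer_iff.1 hy _).1 ht
    have e1 : (y : A) * t * (y : A)⁻¹ * ((y : A) * z * (y : A)⁻¹)⁻¹ = (y : A) * (t * z⁻¹) * (y : A)⁻¹ := by
      group
    rw [e1]
    exact h1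
  · intro hw
    rw [mem_cos] at hw
    refine ⟨(y : A)⁻¹ * w * y, ?_, by group⟩
    rw [mem_cos]
    have e1 : w * ((y : A) * z * (y : A)⁻¹)⁻¹ = (y : A) * ((y : A)⁻¹ * w * y * z⁻¹) * (y : A)⁻¹ := by
      group
    rw [e1] at hw
    exact (Subgroup.mem_normalizer_iff.1 hy _).2 hw

theorem cos_eq_iff {z w : A} : cos N z = cos N w ↔ z * w⁻¹ ∈ N := by
  constructor
  · intro h1
    have h2 : z ∈ cos N z := by rw [mem_cos, mul_inv_cancel]; exact N.one_mem
    rw [h1] at h2
    exact h2
  · intro h1
    ext t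
    rw [mem_cos, mem_cos]
    have e1 : t * w⁻¹ = t * z⁻¹ * (z * w⁻¹) := by group
    rw [e1, N.mul_mem_cancel_right h1]

theorem cos_of_mem {z w : A} (h : w ∈ cos N z) : cos N z = cos N w := by
  rw [cos_eq_iff]
  rw [mem_cos] at h
  have := N.inv_mem h
  have e1 : (w * z⁻¹)⁻¹ = z * w⁻¹ := by group
  rwa [e1] at this

open Classical in
/-- the sum over the cosets -/
theorem sum_cos [Fintype A] (N : Subgroup A) (c : MonoidAlgebra k A) :
    ∑ S : Set A, (if ∃ z, S = cos N z then resS S c else 0) = c := by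
  classical
  ext w
  have h1 : (∑ S : Set A, (if ∃ z, S = cos N z then resS S c else 0)).coeff w
      = ∑ S : Set A, (if ∃ z, S = cos N z then resS S c else 0).coeff w := by
    induction (Finset.univ : Finset (Set A)) using Finset.induction_on with
    | empty => simp
    | insert a s ha ih => rw [Finset.sum_insert ha, Finset.sum_insert ha, coeff_add, Finsupp.add_apply, ih]
  rw [h1, Finset.sum_eq_single (cos N w)]
  · rw [if_pos ⟨w, rfl⟩, coeff_resS_of_mem]
    rw [mem_cos, mul_inv_cancel]
    exact N.one_mem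
  · intro S _ hS
    by_cases h2 : ∃ z, S = cos N z
    · rw [if_pos h2]
      obtain ⟨z, rfl⟩ := h2
      rw [coeff_resS_of_notMem]
      intro h3
      exact hS (cos_of_mem h3)
    · rw [if_neg h2]
      rfl
  · intro h2
    exact absurd (Finset.mem_univ _) h2

end DBrNeAux

open DBrNeAux in
theorem Par.br_idem_ne [Fact p.Prime] [CharP k p] [IsAlgClosed k] [Fintype A]
    (h : Par p N K P e) (hNP : K ≤ Subgroup.normalizer ((N ⊔ P : Subgroup A) : Set A))
    {c : MonoidAlgebra k A} (hc : c ∈ fixAlg k K K) (hcc : c * c = c) (hec : e * c = c)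
    (hne : c ≠ 0) : br P c ≠ 0 := by
  classical
  intro hbr0
  obtain ⟨hcK, hcI⟩ := mem_fixAlg.1 hc
  let d : fixAlg k K K := ⟨c, hc⟩
  have hd0 : d ≠ 0 := fun h0 => hne (congrArg Subtype.val h0)
  have hdd : d * d = d := Subtype.ext hcc
  obtain ⟨f, hf, hfd⟩ := exists_prim_le k hd0 hdd
  have hfb : IsBlock K f.1 := isBlock_of_primIdem hf
  have hfc : f.1 * c = f.1 := congrArg Subtype.val hfd
  obtain ⟨n, ρ, hρ, hρf⟩ := Rk.CardDZAux.exists_rep hfb
  have hρc : act ρ c = 1 := by
    have h1 := act_mul ρ (a := f.1) (b := c) hfb.suppIn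
    rw [hfc, hρf, one_mul] at h1
    exact h1.symm
  have heK : SuppIn K e := h.tri.blk.suppIn.mono h.tri.le
  have hρe : act ρ e = 1 := by
    have h1 := act_mul ρ (a := e) (b := c) heK
    rw [hec, hρc, mul_one] at h1
    exact h1.symm
  obtain ⟨ψ, h1, h2, h3⟩ := exists_psi h.tri h.PK h.PP
  have hψ : ∀ y ∈ P, act ρ (ψ y) = 1 := fun y hy =>
    psi_act h.tri h.PK h.PP h.hbr hNP h1 h2 h3 hρ hρe hy
  have hcj : ∀ y ∈ P, ∀ t : MonoidAlgebra k A, InvBy N t → SuppIn K t → t * e = t →
      act ρ (cj y t) = act ρ t := by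
    intro y hy t ht hts hte
    have hyi := P.inv_mem hy
    have hinv : ψ y * ψ y⁻¹ = e := by rw [← h3 y hy y⁻¹ hyi, mul_inv_cancel, h2]
    rw [← ln_conj h.tri (h.PK hy) (h1 y hy) hinv ht hte, mul_assoc,
      act_mul ρ (Ln_supp h.tri (h.PK hy) (h1 y hy)), act_mul ρ hts, hψ y hy, hψ _ hyi, one_mul,
      mul_one]
  have hcN : InvBy N c := hcI.mono h.tri.le
  have hact0 : act ρ (0 : MonoidAlgebra k A) = 0 := WSumAux.act_zero' ρ
  have hPN : P ≤ Subgroup.normalizer (N : Set A) := h.PK.trans h.tri.nm
  have key : ∀ (v : Fin n → k) (i : Fin n), v i = 0 := by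
    intro v i
    let F : Set A → k := fun S =>
      (act ρ (if ∃ z, S = cos N z then resS S c else 0) v) i
    have hinvf : ∀ (y : P) (S : Set A), F (cjS P y S) = F S := by
      intro y S
      have hyK := h.PK y.2
      by_cases hS : ∃ z, S = cos N z
      · obtain ⟨z, rfl⟩ := hS
        have h1' : ∃ w, cjS P y (cos N z) = cos N w := ⟨_, cjS_cos hPN y z⟩
        change (act ρ (if ∃ w, cjS P y (cos N z) = cos N w then resS (cjS P y (cos N z)) c else 0) v) i
          = (act ρ (if ∃ w, cos N z = cos N w then resS (cos N z) c else 0) v) i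
        rw [if_pos h1', if_pos ⟨z, rfl⟩, cjS_cos hPN y z]
        rw [BrNeAux.res_cj (h.tri.nm hyK) (fun x => by
          have := hcI (y : A)⁻¹ (K.inv_mem hyK) x
          rwa [inv_inv] at this)]
        by_cases hz : z ∈ K
        · have hL := res_mem_Ln h.tri hcN hec hz
          rw [hcj y y.2 _ (mem_Ln.1 hL).2.1 (Ln_supp h.tri hz hL) (Ln_mul_e h.tri hz hL)]
        · rw [BrNeAux.res_zero h.tri.le hcK hz, cj_zero]
      · have h1' : ¬ ∃ w, cjS P y S = cos N w := by
          rintro ⟨w, hw⟩
          apply hS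
          have h4 : cjS P y⁻¹ (cjS P y S) = S := by
            rw [← Equiv.Perm.mul_apply, ← map_mul, inv_mul_cancel, map_one]
            rfl
          rw [hw, cjS_cos hPN] at h4
          exact ⟨_, h4.symm⟩
        change (act ρ (if ∃ w, cjS P y S = cos N w then resS (cjS P y S) c else 0) v) i
          = (act ρ (if ∃ w, S = cos N w then resS S c else 0) v) i
        rw [if_neg h1', if_neg hS]
    have hsum := sum_eq_sum_fixed h.PP (cjS P) F hinvf
      (Finset.univ.filter (fun S => ∀ y, cjS P y S = S))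
      (fun x => by rw [Finset.mem_filter]; exact ⟨fun hx => hx.2, fun hx => ⟨Finset.mem_univ _, hx⟩⟩)
    have hR : ∑ S ∈ Finset.univ.filter (fun S => ∀ y, cjS P y S = S), F S = 0 := by
      apply Finset.sum_eq_zero
      intro S hS
      have hSf := (Finset.mem_filter.1 hS).2
      have h0 : (if ∃ z, S = cos N z then resS S c else 0) = 0 := by
        by_cases hS' : ∃ z, S = cos N z
        · rw [if_pos hS']
          obtain ⟨z, rfl⟩ := hS'
          by_cases hzK : z ∈ K
          · obtain ⟨m, hm, l, hl, rfl⟩ := h.frat hNP hzK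
            have e0 : cos N (m * l) = cos N l := by
              rw [cos_eq_iff]
              have e1 : m * l * l⁻¹ = m := by group
              rw [e1]
              exact hm
            have hlC : l ∈ Subgroup.centralizer (P : Set A) := by
              rw [Bq.GqAux.cen_iff]
              intro u hu
              have e2 := hSf ⟨u, hu⟩
              rw [e0, cjS_cos hPN, cos_eq_iff] at e2
              have e3 : u * l * u⁻¹ * l⁻¹ ∈ N := e2
              have e4 : u * l * u⁻¹ * l⁻¹ ∈ P := by
                have e5 := Bq.GqAux.nm_mem hl.2 (P.inv_mem hu)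
                have e6 : u * l * u⁻¹ * l⁻¹ = u * (l * u⁻¹ * l⁻¹) := by group
                rw [e6]
                exact P.mul_mem hu e5
              have e7 := h.inf_one e3 e4
              have e8 : u * l = (u * l * u⁻¹ * l⁻¹) * (l * u) := by group
              rw [e8, e7, one_mul]
            rw [e0]
            by_contra hne0
            have hL := res_mem_Ln h.tri hcN hec hl.1
            apply br_ne_zero h.tri h.PK h.PP h.hbr hl.1 hlC hL hne0
            rw [br_res hlC, hbr0, resS_zero]
          · exact BrNeAux.res_zero h.tri.le hcK hzK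
        · rw [if_neg hS']
      change (act ρ (if ∃ z, S = cos N z then resS S c else 0) v) i = 0
      rw [h0, hact0]
      rfl
    have hLs : ∑ S : Set A, F S = v i := by
      have e1 : act ρ (∑ S : Set A, (if ∃ z, S = cos N z then resS S c else 0))
          = ∑ S : Set A, act ρ (if ∃ z, S = cos N z then resS S c else 0) :=
        WSumAux.act_sum ρ _ _
      have e0 := sum_cos N c
      have e0' : (∑ S : Set A, (if ∃ z, S = cos N z then resS S c else 0)) = c := by
        convert e0
      rw [e0', hρc] at e1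
      have e2 := congrFun (LinearMap.congr_fun e1 v) i
      rw [LinearMap.sum_apply, Finset.sum_apply] at e2
      exact e2.symm
    rw [← hLs]
    exact hsum.trans hR
  obtain ⟨v, hv⟩ := @exists_ne _ hρ.nontriv (0 : Fin n → k)
  obtain ⟨i, hi⟩ := Function.ne_iff.1 hv
  exact hi (key v i)

end Pool.Agent.Lib.P0c8ca5.Dz
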