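import Mathlib
import Pool.Agent.Lib.P0c8ca5D.BrNe
import Pool.Agent.Lib.P0c8ca5F.Fong

/-!
# Fong's second reduction for blocks of defect zero of a normal subgroup: definitions

* `Cov p φ e`: `φ : A → B` is surjective and `e` is an `A`-invariant block of defect zero of its kernel.
* `lft p φ e T`: a p-subgroup of `A` with image `T` and nonzero Brauer map of `e` (`T` a p-subgroup of `B`).
* `Star p φ e φ' υ`: `φ' : A' → B` is a central extension of `B` by a p'-group and `υ` embeds `A'` into
  the lines of `e`: `υ w` is in the line of `x` if `φ' w = φ x`.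
* `lam e υ z`: the scalar of `υ z` for `z` in the kernel of `φ'`.
* `es φ' e υ`: the block of the kernel of `φ'` given by `lam`.
-/

namespace Pool.Agent.Lib.P0c8ca5.Dz

open MonoidAlgebra Ps Bq Fg

variable {p : ℕ} {k : Type*} [Field k] {A A' B : Type*} [Group A] [Group A'] [Group B]

/-- `φ` is surjective and `e` is an invariant block of defect zero of the kernel -/
structure Cov (p : ℕ) (φ : A →* B) (e : MonoidAlgebra k A) : Prop where
  surj : Function.Surjective φ
  tri : Tri p φ.ker ⊤ e

open Classical in
/-- a p-subgroup with image `T` and nonzero Brauer map of `e` -/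
noncomputable def lft (p : ℕ) (φ : A →* B) (e : MonoidAlgebra k A) (T : Subgroup B) :
    Subgroup A :=
  if h : ∃ S : Subgroup A, IsPGroup p S ∧ HasBr S e ∧ S.map φ = T then h.choose else ⊥

/-- `A'` is a central extension of `B` by a p'-group, embedded by `υ` into the lines of `e` -/
structure Star (p : ℕ) (φ : A →* B) (e : MonoidAlgebra k A) (φ' : A' →* B)
    (υ : A' → MonoidAlgebra k A) : Prop where
  cov : Cov p φ e
  surj : Function.Surjective φ'
  ker : ¬ p ∣ Nat.card φ'.ker
  mem : ∀ w x, φ' w = φ x → υ w ∈ Ln φ.ker e x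
  mul : ∀ w w', υ (w * w') = υ w * υ w'
  one : υ 1 = e
  inj : ∀ w, φ' w = 1 → υ w = e → w = 1

open Classical in
/-- the scalar of `υ z` for `z` in the kernel -/
noncomputable def lam (e : MonoidAlgebra k A) (υ : A' → MonoidAlgebra k A) (z : A') : k :=
  if h : ∃ c : k, υ z = c • e then h.choose else 0

open Classical in
/-- the block of the kernel of `φ'` -/
noncomputable def es [Finite A'] (φ' : A' →* B) (e : MonoidAlgebra k A)
    (υ : A' → MonoidAlgebra k A) : MonoidAlgebra k A' :=
  MonoidAlgebra.ofCoeff (Finsupp.equivFunOnFinite.symm fun w =>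
    if φ' w = 1 then lam e υ w⁻¹ * (Nat.card φ'.ker : k)⁻¹ else 0)

theorem lam_eq {e : MonoidAlgebra k A} {υ : A' → MonoidAlgebra k A} {z : A'} (he : e ≠ 0) {c : k}
    (h : υ z = c • e) : lam e υ z = c := by
  have h1 : ∃ c : k, υ z = c • e := ⟨c, h⟩
  unfold lam
  rw [dif_pos h1]
  have h3 := sub_eq_zero.2 (h.symm.trans h1.choose_spec)
  rw [← sub_smul, smul_eq_zero] at h3
  rcases h3 with h3 | h3
  · exact (sub_eq_zero.1 h3).symm
  · exact absurd h3 he

end Pool.Agent.Lib.P0c8ca5.Dz
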