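import Mathlib
import Pool.Agent.Lib.P0c8ca5D.Fd
import Pool.Agent.Lib.P0c8ca5D.LnB
import Pool.Agent.Lib.P0c8ca5F.ExA

/-!
# Module ExA: elements of the lines with cocycle of finite order

PROOF.  `N = φ.ker`; `B` is finite (`h.surj`).  Let `s : B → A` with `φ (s b) = b`, `l b = lu N e (s b) ∈ Ln N e (s b)` (`lu_mem`, the triple is `h.tri`),
not zero.  `Ln N e x` depends only on `φ x` (`Ln_congr`: `x * y⁻¹ ∈ N`).  `l b * l c` and `l (b * c)` are in the line of `s (b * c)` (`Ln_mul`,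
`s b * s c * (s (b * c))⁻¹ ∈ N`), so `l b * l c = α b c • l (b * c)` (`ln_line`) with `α b c ≠ 0` (`l b` and `l c` are invertible: `ln_inv`, so
`l b * l c ≠ 0`: multiply by the inverses to get `e ≠ 0`).  From `(l b * l c) * l d = l b * (l c * l d)`: `α b c * α (b * c) d = α c d * α b (c * d)` (`l (b * c *
d) ≠ 0`).  Let `n = Nat.card B > 0`, `f b = ∏ d, α b d ≠ 0`.  The product over `d`: `(α b c) ^ n * f (b * c) = f c * f b` (substitute `c * d` for `d`:
`Equiv.mulLeft`, `Fintype.prod_equiv`/`Function.Bijective.prod_comp`).  `k` is algebraically closed: `g b` with `(g b) ^ n = f b`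
(`IsAlgClosed.exists_pow_nat_eq`), `g b ≠ 0`.  Put `u b = (g b)⁻¹ • l b`: `u b * u c = β • u (b * c)` with `β = α b c * g (b * c) * (g b)⁻¹ * (g c)⁻¹`
and `β ^ n = (α b c) ^ n * f (b * c) / (f b * f c) = 1`.
-/

namespace Pool.Agent.Lib.P0c8ca5.Dz

open MonoidAlgebra Ps Bq Fg

variable {p : ℕ} {k : Type*} [Field k] {A B : Type*} [Group A] [Group B]
  {φ : A →* B} {e : MonoidAlgebra k A}

theorem Cov.exists_norm [Fact p.Prime] [CharP k p] [IsAlgClosed k] [Fintype A]
    (h : Cov p φ e) :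
    ∃ (n : ℕ) (u : B → MonoidAlgebra k A), 0 < n ∧ (∀ x, u (φ x) ∈ Ln φ.ker e x) ∧
      (∀ b, u b ≠ 0) ∧ ∀ b c, ∃ β : k, β ^ n = 1 ∧ u b * u c = β • u (b * c) := by
  classical
  have hfinB : Finite B := Finite.of_surjective φ h.surj
  have : Fintype B := Fintype.ofFinite B
  obtain ⟨s, hs⟩ : ∃ s : B → A, ∀ b, φ (s b) = b := ⟨Function.surjInv h.surj, Function.surjInv_eq h.surj⟩
  have htop : ∀ x : A, x ∈ (⊤ : Subgroup A) := Subgroup.mem_top
  have he0 := h.tri.blk.ne_zero
  have hcong : ∀ {x y : A}, φ x = φ y → Ln φ.ker e x = Ln φ.ker e y := by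
    intro x y hxy
    apply Ln_congr
    rw [MonoidHom.mem_ker, map_mul, map_inv, hxy, mul_inv_cancel]
  obtain ⟨l, hl⟩ : ∃ l : B → MonoidAlgebra k A, ∀ b, l b = lu φ.ker e (s b) := ⟨_, fun _ => rfl⟩
  have hlm : ∀ b, l b ∈ Ln φ.ker e (s b) := fun b => by
    rw [hl]
    exact lu_mem h.tri (htop _)
  have hlv : ∀ b, lv φ.ker e (s b) * l b = e := fun b => by
    rw [hl]
    exact lv_mul_lu h.tri (htop _)
  have hl0 : ∀ b, l b ≠ 0 := by
    intro b h0
    have h1 := hlv b
    rw [h0, mul_zero] at h1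
    exact he0 h1.symm
  have hel : ∀ b, e * l b = l b := fun b => (mem_Ln.1 (hlm b)).2.2
  have hll : ∀ b c, l b * l c ≠ 0 := by
    intro b c h0
    have h1 : lv φ.ker e (s b) * (l b * l c) = 0 := by rw [h0, mul_zero]
    rw [← mul_assoc, hlv, hel] at h1
    exact hl0 c h1
  have hprod : ∀ b c, ∃ c' : k, l b * l c = c' • l (b * c) := by
    intro b c
    refine ln_line h.tri (htop (s (b * c))) (hlm (b * c)) (hl0 _) ?_
    have h1 := Ln_mul h.tri (htop (s b)) (hlm b) (hlm c)
    rwa [hcong (x := s b * s c) (y := s (b * c)) (by rw [map_mul, hs, hs, hs])] at h1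
  choose α hα using hprod
  have hα0 : ∀ b c, α b c ≠ 0 := by
    intro b c h0
    have h1 := hα b c
    rw [h0, zero_smul] at h1
    exact hll b c h1
  have hcoc : ∀ b c d, α b c * α (b * c) d = α c d * α b (c * d) := by
    intro b c d
    have h1 : l b * l c * l d = (α b c * α (b * c) d) • l (b * c * d) := by
      rw [hα b c, smul_mul_assoc, hα (b * c) d, smul_smul]
    have h2 : l b * (l c * l d) = (α c d * α b (c * d)) • l (b * c * d) := by
      rw [hα c d, mul_smul_comm, hα b (c * d), smul_smul, mul_assoc b c d]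
    rw [mul_assoc, h2] at h1
    have h3 := sub_eq_zero.2 h1
    rw [← sub_smul, smul_eq_zero] at h3
    rcases h3 with h3 | h3
    · exact (sub_eq_zero.1 h3).symm
    · exact absurd h3 (hl0 _)
  obtain ⟨f, hf⟩ : ∃ f : B → k, ∀ b, f b = ∏ d, α b d := ⟨_, fun _ => rfl⟩
  have hf0 : ∀ b, f b ≠ 0 := by
    intro b
    rw [hf]
    exact Finset.prod_ne_zero_iff.2 fun d _ => hα0 b d
  have hfm : ∀ b c, α b c ^ Fintype.card B * f (b * c) = f c * f b := by
    intro b c
    have h1 : ∏ d, (α b c * α (b * c) d) = ∏ d, (α c d * α b (c * d)) :=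
      Finset.prod_congr rfl fun d _ => hcoc b c d
    rw [Finset.prod_mul_distrib, Finset.prod_mul_distrib, Finset.prod_const, Finset.card_univ,
      ← hf, ← hf] at h1
    rw [h1, hf b]
    congr 1
    exact Fintype.prod_equiv (Equiv.mulLeft c) _ _ fun d => rfl
  have hn : 0 < Fintype.card B := Fintype.card_pos
  have hg : ∀ b, ∃ g : k, g ^ Fintype.card B = f b := fun b => IsAlgClosed.exists_pow_nat_eq (f b) hn
  choose g hg using hg
  have hg0 : ∀ b, g b ≠ 0 := by
    intro b h0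
    have h1 := hg b
    rw [h0, zero_pow hn.ne'] at h1
    exact hf0 b h1.symm
  refine ⟨Fintype.card B, fun b => (g b)⁻¹ • l b, hn, ?_, ?_, ?_⟩
  · intro x
    refine Submodule.smul_mem _ _ ?_
    have h1 := hlm (φ x)
    rwa [hcong (x := s (φ x)) (y := x) (hs _)] at h1
  · intro b h0
    rcases smul_eq_zero.1 h0 with h1 | h1
    · exact inv_ne_zero (hg0 b) h1
    · exact hl0 b h1
  · intro b c
    refine ⟨α b c * g (b * c) * (g b)⁻¹ * (g c)⁻¹, ?_, ?_⟩
    · rw [mul_pow, mul_pow, mul_pow, inv_pow, inv_pow, hg, hg, hg, hfm]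
      field_simp [hf0 b, hf0 c]
    · dsimp only
      rw [smul_mul_smul_comm, hα b c, smul_smul, smul_smul]
      congr 1
      have := hg0 (b * c)
      field_simp

end Pool.Agent.Lib.P0c8ca5.Dz
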