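import Mathlib
import Pool.Agent.Lib.P0c8ca5D.StA
import Pool.Agent.Lib.P0c8ca5F.StB

/-!
# Module StB: the block of the kernel of `φ'`

`Z = φ'.ker` is a central p'-group (`Star.ker_central`, `h.ker`), `e' = es φ' e υ`, `e'.coeff z = lam z⁻¹ / |Z|` for `z ∈ Z`, `0` outside;
`|Z| ≠ 0` in `k` (`CharP.cast_eq_zero_iff`).

PROOFS.
* `es_mul_iff`: `(e' * a).coeff w = ∑_{z ∈ Z} lam z⁻¹ / |Z| * a.coeff (z⁻¹ * w)` (`coeff_mul_fin` or `MonoidAlgebra.mul_apply`-type lemma).
  If `a.coeff (z * w) = lam z⁻¹ * a.coeff w` for `z ∈ Z`: each term is `lam z⁻¹ * lam z / |Z| * a.coeff w = a.coeff w / |Z|`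
  (`lam_mul`, `lam_one`), the sum is `a.coeff w`.  Conversely let `e' * a = a`; for `y ∈ Z` substitute `z = y * z'`:
  `a.coeff (y * w) = ∑ lam (y * z')⁻¹ / |Z| * a.coeff (z'⁻¹ * y⁻¹ * y * w) = lam y⁻¹ * ∑ lam z'⁻¹ / |Z| * a.coeff (z'⁻¹ * w) = lam y⁻¹ *
  a.coeff w` (`Z` is commutative; `lam_mul`).
* `es_idem`: `es_mul_iff` for `a = e'` (`e'.coeff (z * w)` for `w ∉ Z` is `0`).
* `cov'`: `tri`: `Z` is normal (a kernel) and `¬ p ∣ |Z|`.  `blk : IsBlock Z e'`: `e'` is supported on `Z`, `Z`-invariant (central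
  elements: `y z y⁻¹ = z`), idempotent, `e'.coeff 1 = 1 / |Z| ≠ 0`; primitive: let `f` be supported on `Z`, `f * f = f`, `f * e' = f`
  (see the fields of `IsBlock` in P0c8ca5/Defs.lean or Blocks.lean for the form of `prim`); then `e' * f = f` (commutative), so by
  `es_mul_iff` `f.coeff z = lam z⁻¹ * f.coeff 1`, i.e. `f = c • e'` with `c = |Z| * f.coeff 1`, and `c ^ 2 = c`, so `f = 0` or `f = e'`.
  `inv`: `e'` is invariant under `⊤`: the elements of `Z` are central.
* `es_comm`: `e'` is central in `kA'`.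
-/

namespace Pool.Agent.Lib.P0c8ca5.Dz

open MonoidAlgebra Ps Bq Fg

variable {p : ℕ} {k : Type*} [Field k] {A A' B : Type*} [Group A] [Group A'] [Group B]
  {φ : A →* B} {e : MonoidAlgebra k A} {φ' : A' →* B} {υ : A' → MonoidAlgebra k A}

namespace DStBAux

open Classical in
theorem coeff_es [Fintype A'] (w : A') : (es φ' e υ).coeff w =
    if φ' w = 1 then lam e υ w⁻¹ * (Nat.card φ'.ker : k)⁻¹ else 0 := by
  rw [es, coeff_ofCoeff]
  rfl

theorem cast_ne [Fact p.Prime] [CharP k p] (h : Star p φ e φ' υ) :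
    (Nat.card φ'.ker : k) ≠ 0 := by
  intro h0
  exact h.ker ((CharP.cast_eq_zero_iff k p _).1 h0)

open Classical in
theorem sum_ker [Fintype A'] (c : k) :
    ∑ y : A', (if φ' y = 1 then c else 0) = (Nat.card φ'.ker : k) * c := by
  rw [← Finset.sum_filter, Finset.sum_const, nsmul_eq_mul]
  congr 2
  rw [← Fintype.card_subtype, ← Nat.card_eq_fintype_card]
  exact Nat.card_congr (Equiv.subtypeEquivRight fun x => by rw [MonoidHom.mem_ker])

theorem es_shift [Fact p.Prime] [CharP k p] [IsAlgClosed k] [Fintype A] [Fintype A']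
    (h : Star p φ e φ' υ) (z w : A') (hz : φ' z = 1) :
    (es φ' e υ).coeff (z * w) = lam e υ z⁻¹ * (es φ' e υ).coeff w := by
  have hz' : φ' z⁻¹ = 1 := by rw [map_inv, hz, inv_one]
  rw [coeff_es, coeff_es]
  by_cases hw : φ' w = 1
  · have hw' : φ' w⁻¹ = 1 := by rw [map_inv, hw, inv_one]
    rw [if_pos hw, if_pos (by rw [map_mul, hz, hw, one_mul]), _root_.mul_inv_rev,
      h.lam_mul hw' hz']
    ring
  · rw [if_neg hw, if_neg (by rw [map_mul, hz, one_mul]; exact hw), mul_zero]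

theorem es_conj [Fact p.Prime] [CharP k p] [IsAlgClosed k] [Fintype A] [Fintype A']
    (h : Star p φ e φ' υ) (g x : A') :
    (es φ' e υ).coeff (g * x * g⁻¹) = (es φ' e υ).coeff x := by
  by_cases hx : φ' x = 1
  · have hc := h.ker_central (MonoidHom.mem_ker.2 hx)
    have : g * x * g⁻¹ = x := by
      rw [Subgroup.mem_center_iff.1 hc g]; group
    rw [this]
  · rw [coeff_es, coeff_es, if_neg hx, if_neg]
    intro h2
    apply hx
    rw [map_mul, map_mul, map_inv] at h2
    have h3 : φ' g * φ' x = φ' g := by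
      have := congrArg (fun t => t * φ' g) h2
      simpa using this
    simpa using h3

end DStBAux

open DStBAux

theorem Star.es_mul_iff [Fact p.Prime] [CharP k p] [IsAlgClosed k] [Fintype A] [Fintype A']
    (h : Star p φ e φ' υ) {a : MonoidAlgebra k A'} :
    es φ' e υ * a = a ↔
      ∀ z w, φ' z = 1 → a.coeff (z * w) = lam e υ z⁻¹ * a.coeff w := by
  classical
  constructor
  · intro ha z w hz
    have e1 : a.coeff (z * w) = ∑ y, (es φ' e υ).coeff y * a.coeff (y⁻¹ * (z * w)) := by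
      conv_lhs => rw [← ha]
      exact coeff_mul_fin _ _ _
    have e2 : a.coeff w = ∑ y, (es φ' e υ).coeff y * a.coeff (y⁻¹ * w) := by
      conv_lhs => rw [← ha]
      exact coeff_mul_fin _ _ _
    rw [e1, e2, Finset.mul_sum, ← Equiv.sum_comp (Equiv.mulLeft z)]
    refine Finset.sum_congr rfl fun y _ => ?_
    have e3 : (Equiv.mulLeft z y)⁻¹ * (z * w) = y⁻¹ * w := by
      rw [Equiv.coe_mulLeft]; group
    rw [e3, Equiv.coe_mulLeft, es_shift h z y hz, mul_assoc]
  · intro ha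
    ext w
    rw [coeff_mul_fin]
    have e1 : ∀ y : A', (es φ' e υ).coeff y * a.coeff (y⁻¹ * w) =
        if φ' y = 1 then (Nat.card φ'.ker : k)⁻¹ * a.coeff w else 0 := by
      intro y
      rw [coeff_es]
      by_cases hy : φ' y = 1
      · have hy' : φ' y⁻¹ = 1 := by rw [map_inv, hy, inv_one]
        have e2 : lam e υ y⁻¹ * lam e υ y = 1 := by
          rw [← h.lam_mul hy' hy, inv_mul_cancel, h.lam_one]
        rw [if_pos hy, if_pos hy, ha y⁻¹ w hy', inv_inv]
        linear_combination ((Nat.card φ'.ker : k)⁻¹ * a.coeff w) * e2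
      · rw [if_neg hy, if_neg hy, zero_mul]
    rw [Finset.sum_congr rfl fun y _ => e1 y]
    have e3 := sum_ker (φ' := φ') ((Nat.card φ'.ker : k)⁻¹ * a.coeff w)
    have e4 : (Nat.card φ'.ker : k) * ((Nat.card φ'.ker : k)⁻¹ * a.coeff w) = a.coeff w := by
      rw [← mul_assoc, mul_inv_cancel₀ (cast_ne h), one_mul]
    rw [e4] at e3
    exact e3

theorem Star.es_idem [Fact p.Prime] [CharP k p] [IsAlgClosed k] [Fintype A] [Fintype A']
    (h : Star p φ e φ' υ) : es φ' e υ * es φ' e υ = es φ' e υ :=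
  h.es_mul_iff.2 fun z w hz => es_shift h z w hz

theorem Star.es_comm [Fact p.Prime] [CharP k p] [IsAlgClosed k] [Fintype A] [Fintype A']
    (h : Star p φ e φ' υ) (a : MonoidAlgebra k A') : es φ' e υ * a = a * es φ' e υ := by
  classical
  ext w
  rw [coeff_mul_fin, coeff_mul_fin]
  rw [← Equiv.sum_comp ((Equiv.inv A').trans (Equiv.mulRight w))
    (fun y => a.coeff y * (es φ' e υ).coeff (y⁻¹ * w))]
  refine Finset.sum_congr rfl fun y _ => ?_
  have e1 : ((Equiv.inv A').trans (Equiv.mulRight w)) y = y⁻¹ * w := rfl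
  have e2 : (y⁻¹ * w)⁻¹ * w = w⁻¹ * y * (w⁻¹)⁻¹ := by group
  rw [e1, e2, es_conj h, mul_comm]

theorem Star.cov' [Fact p.Prime] [CharP k p] [IsAlgClosed k] [Fintype A] [Fintype A']
    (h : Star p φ e φ' υ) : Fg.Cov p φ' (es φ' e υ) := by
  classical
  have hn := cast_ne h
  have h1 : (es φ' e υ).coeff 1 = (Nat.card φ'.ker : k)⁻¹ := by
    rw [coeff_es, if_pos (map_one _), inv_one, h.lam_one, one_mul]
  have h1' : (es φ' e υ).coeff 1 ≠ 0 := by rw [h1]; exact inv_ne_zero hn
  refine ⟨h.surj, le_top, ?_, h.ker, ⟨mem_fixAlg.2 ⟨?_, fun g _ x => es_conj h g x⟩, h.es_idem,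
    ?_, ?_⟩, fun g _ x => es_conj h g x⟩
  · rw [Subgroup.normalizer_eq_top]
  · intro x hx
    rw [MonoidHom.mem_ker]
    by_contra h2
    exact hx (by rw [coeff_es, if_neg h2])
  · intro h0
    apply h1'
    rw [h0]
    simp
  · intro f hf hff hfe
    obtain ⟨hfs, -⟩ := mem_fixAlg.1 hf
    have h2 : es φ' e υ * f = f := by rw [h.es_comm]; exact hfe
    have h3 := h.es_mul_iff.1 h2
    set c : k := (Nat.card φ'.ker : k) * f.coeff 1 with hc
    have h4 : f = c • es φ' e υ := by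
      ext w
      rw [coeff_smul_apply, smul_eq_mul, coeff_es]
      by_cases hw : φ' w = 1
      · have h5 := h3 w 1 hw
        rw [mul_one] at h5
        rw [if_pos hw, h5, hc]
        have h6 : (Nat.card φ'.ker : k) * (Nat.card φ'.ker : k)⁻¹ = 1 := mul_inv_cancel₀ hn
        linear_combination (- (lam e υ w⁻¹ * f.coeff 1)) * h6
      · rw [if_neg hw, mul_zero]
        by_contra h5
        exact hw (MonoidHom.mem_ker.1 (hfs w h5))
    have h5 : c * c = c := by
      have h6 := congrArg (fun b => b.coeff 1) hff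
      beta_reduce at h6
      rw [h4, smul_mul_smul_comm, h.es_idem, coeff_smul_apply, coeff_smul_apply, smul_eq_mul,
        smul_eq_mul] at h6
      exact mul_right_cancel₀ h1' h6
    have h6 : c = 0 ∨ c = 1 := by
      rcases eq_or_ne c 0 with h7 | h7
      · exact Or.inl h7
      · exact Or.inr (mul_left_cancel₀ h7 (by rw [h5, mul_one]))
    rcases h6 with h7 | h7
    · left; rw [h4, h7, zero_smul]
    · right; rw [h4, h7, one_smul]

end Pool.Agent.Lib.P0c8ca5.Dz
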