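import Mathlib
import Pool.Agent.Lib.P0c8ca5D.StB
import Pool.Agent.Lib.P0c8ca5F.StC

/-!
# Module StC: the algebra homomorphism `ex υ : kA' → kA`

`Z = φ'.ker`, `N = φ.ker`, `e' = es φ' e υ`.

PROOFS.
* `ex_single`: `ex_apply`, only the term `w` is not zero.
* `ex_mul`: both sides are bilinear; for `a = single w 1`, `b = single w' 1` it is `h.mul`.  (E.g. `MonoidAlgebra` induction, or expand
  `a = ∑ single w (a.coeff w)` as in `eq_sum` of P0c8ca5N.ChC.)
* `ex_es`: `∑_{z ∈ Z} lam z⁻¹ / |Z| • υ z = ∑_{z ∈ Z} (lam z⁻¹ * lam z / |Z|) • e = e` (`lam_spec`, `lam_mul`, `lam_one`).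
* `ex_cj`: linear in `a` (`cj` is linear); for `a = single v 1`: `cj w (single v 1) = single (w * v * w⁻¹) 1`, `cj_star`.
* `ex_mem`: `υ w ∈ Tc N ⊤ e 1` because it is in a line (`h.mem`, `h.over`), and `Tc` is a submodule.
* `ex_cut`: `υ w` is supported on `N x` where `φ x = φ' w` (`h.mem`), so `cut φ T (υ w)` is `υ w` if `φ' w ∈ T` and `0` otherwise; `cut φ' T a
  = ∑_{w, φ' w ∈ T} a.coeff w • single w 1`.  Both sides are linear in `a`.
* `es_cj`: `es_mul_iff`: `(cj w a).coeff (z * v) = a.coeff (w⁻¹ * z * v * w) = a.coeff (z * (w⁻¹ * v * w))` (`z` is central).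
-/

namespace Pool.Agent.Lib.P0c8ca5.Dz

open MonoidAlgebra Ps Bq Fg

variable {p : ℕ} {k : Type*} [Field k] {A A' B : Type*} [Group A] [Group A'] [Group B]
  {φ : A →* B} {e : MonoidAlgebra k A} {φ' : A' →* B} {υ : A' → MonoidAlgebra k A}

theorem Star.ex_mul [Fintype A'] (h : Star p φ e φ' υ) (a b : MonoidAlgebra k A') :
    ex υ (a * b) = ex υ a * ex υ b := by
  conv_lhs => rw [Fg.StCAux.eq_sum a, Fg.StCAux.eq_sum b, Finset.sum_mul_sum]
  rw [map_sum, ex_apply, ex_apply, Finset.sum_mul_sum]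
  refine Finset.sum_congr rfl fun x _ => ?_
  rw [map_sum]
  refine Finset.sum_congr rfl fun y _ => ?_
  rw [single_mul_single, ex_single, h.mul, smul_mul_smul_comm]

theorem Star.ex_es [Fact p.Prime] [CharP k p] [IsAlgClosed k] [Fintype A] [Fintype A']
    (h : Star p φ e φ' υ) : ex υ (es φ' e υ) = e := by
  classical
  have hk0 : (Nat.card φ'.ker : k) ≠ 0 := by
    intro h0
    exact h.ker ((CharP.cast_eq_zero_iff k p _).1 h0)
  have h1 : ∀ w, φ' w = 1 → (es φ' e υ).coeff w • υ w = (Nat.card φ'.ker : k)⁻¹ • e := by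
    intro w hw
    have h2 : (es φ' e υ).coeff w = lam e υ w⁻¹ * (Nat.card φ'.ker : k)⁻¹ := by
      rw [es, coeff_ofCoeff]
      exact if_pos hw
    have hw' : φ' w⁻¹ = 1 := by rw [map_inv, hw, inv_one]
    have h3 := h.lam_mul hw' hw
    rw [inv_mul_cancel, h.lam_one] at h3
    rw [h2, h.lam_spec hw, smul_smul, mul_right_comm, ← h3, one_mul]
  have h0 : ∀ w, φ' w ≠ 1 → (es φ' e υ).coeff w • υ w = 0 := by
    intro w hw
    have h2 : (es φ' e υ).coeff w = 0 := by
      rw [es, coeff_ofCoeff]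
      exact if_neg hw
    rw [h2, zero_smul]
  rw [ex_apply, ← Finset.sum_filter_add_sum_filter_not Finset.univ (fun w => φ' w = 1),
    Finset.sum_congr rfl (fun w hw => h1 w (Finset.mem_filter.1 hw).2),
    Finset.sum_eq_zero (fun w hw => h0 w (Finset.mem_filter.1 hw).2), add_zero,
    Finset.sum_const, ← Nat.cast_smul_eq_nsmul k, smul_smul]
  have h4 : (Finset.univ.filter (fun w : A' => φ' w = 1)).card = Nat.card φ'.ker := by
    rw [Nat.card_eq_fintype_card, Fintype.card_subtype]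
    exact congrArg Finset.card (Finset.filter_congr fun w _ => Iff.rfl)
  rw [h4, mul_inv_cancel₀ hk0, one_smul]

theorem Star.ex_cj [Fintype A'] (h : Star p φ e φ' υ) {w : A'} {x : A} (hw : φ' w = φ x)
    (a : MonoidAlgebra k A') : ex υ (cj w a) = cj x (ex υ a) := by
  conv_lhs => rw [Fg.StCAux.eq_sum a, cj_sum, map_sum]
  rw [ex_apply, cj_sum]
  refine Finset.sum_congr rfl fun v _ => ?_
  rw [cj, single_mul_single, single_mul_single, one_mul, mul_one, ex_single, cj_smul,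
    h.cj_star hw]

theorem Star.ex_mem [Fintype A'] (h : Star p φ e φ' υ) (a : MonoidAlgebra k A') :
    ex υ a ∈ Tc φ.ker ⊤ e 1 := by
  rw [ex_apply]
  refine Submodule.sum_mem _ fun w _ => Submodule.smul_mem _ _ ?_
  obtain ⟨x, hx⟩ := h.over w
  obtain ⟨_, h2, h3⟩ := mem_Ln.1 (h.mem w x hx)
  exact mem_Tc.2 ⟨fun z _ => Subgroup.mem_top _, h2, h3⟩

theorem Star.ex_cut [Fintype A'] (h : Star p φ e φ' υ) (T : Set B) (a : MonoidAlgebra k A') :
    ex υ (cut φ' T a) = cut φ T (ex υ a) := by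
  rw [ex_apply, ex_apply, Fg.StCAux.cut_sum]
  refine Finset.sum_congr rfl fun w _ => ?_
  obtain ⟨x, hx⟩ := h.over w
  obtain ⟨h1, _, _⟩ := mem_Ln.1 (h.mem w x hx)
  have h2 : ∀ z, (υ w).coeff z ≠ 0 → φ z = φ' w := by
    intro z hz
    have h3 : φ (z * x⁻¹) = 1 := h1 z hz
    rw [map_mul, map_inv, mul_inv_eq_one] at h3
    rw [h3, hx]
  by_cases hw : φ' w ∈ T
  · have h3 : (cut φ' T a).coeff w = a.coeff w := coeff_resS_of_mem _ hw
    rw [h3]
    ext z
    by_cases hz : z ∈ φ ⁻¹' T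
    · rw [cut, coeff_resS_of_mem _ hz]
    · rw [cut, coeff_resS_of_notMem _ hz, coeff_smul_apply]
      have h4 : (υ w).coeff z = 0 := by
        by_contra h5
        apply hz
        have h6 : φ z ∈ T := by rw [h2 z h5]; exact hw
        exact h6
      rw [h4, smul_zero]
  · have h3 : (cut φ' T a).coeff w = 0 := coeff_resS_of_notMem _ hw
    rw [h3, zero_smul]
    ext z
    by_cases hz : z ∈ φ ⁻¹' T
    · rw [cut, coeff_resS_of_mem _ hz, coeff_smul_apply]
      have h4 : (υ w).coeff z = 0 := by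
        by_contra h5
        apply hw
        have h6 : φ z ∈ T := hz
        rw [h2 z h5] at h6
        exact h6
      rw [h4, smul_zero]
      rfl
    · rw [cut, coeff_resS_of_notMem _ hz]
      rfl

theorem Star.es_cj [Fact p.Prime] [CharP k p] [IsAlgClosed k] [Fintype A] [Fintype A']
    (h : Star p φ e φ' υ) {a : MonoidAlgebra k A'} (ha : es φ' e υ * a = a) (w : A') :
    es φ' e υ * cj w a = cj w a := by
  rw [h.es_mul_iff] at ha ⊢
  intro z v hz
  have h1 : z ∈ Subgroup.center A' := h.ker_central hz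
  have h2 := Subgroup.mem_center_iff.1 h1 w⁻¹
  have h3 : w⁻¹ * (z * v) * w = z * (w⁻¹ * v * w) := by
    rw [← mul_assoc w⁻¹, h2]
    simp only [mul_assoc]
  rw [coeff_cj, coeff_cj, h3, ha z _ hz]

end Pool.Agent.Lib.P0c8ca5.Dz
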