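import Mathlib
import Pool.Agent.Lib.P0c8ca5D.StC
import Pool.Agent.Lib.P0c8ca5D.SecI
import Pool.Agent.Lib.P0c8ca5F.StK

/-!
# Module StK: `ex υ` is a bijection from `e' kA'` to `Tc N ⊤ e 1`

`Z = φ'.ker`, `N = φ.ker`, `e' = es φ' e υ`.

PROOFS.
* `key`: `z ∈ cos N x` iff `φ z = φ x`, so `resS (cos N x) (ex υ a) = ex υ (cut φ' {φ x} a) = ∑_{v, φ' v = φ x} a.coeff v • υ v` (`ex_cut` with
  `T = {φ x}`); the `v` are the `z * w`, `z ∈ Z` (bijection), and `a.coeff (z * w) • υ (z * w) = lam z⁻¹ * lam z * a.coeff w • υ w = a.coeff w •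
  υ w` (`es_mul_iff`, `lam_smul`, `lam_mul`, `lam_one`).
* `ex_inj`: by linearity `ex υ (a - a') = 0` (`es * (a - a') = a - a'`), so by `key` `|Z| * (a - a').coeff w = 0` for all `w` (`ne_zero`, `over`;
  `|Z| ≠ 0` in `k` by `h.ker`, `CharP.cast_eq_zero_iff`).
* `ex_surj`: for `w ∈ A'` choose `x` with `φ' w = φ x`; `resS (cos N x) u ∈ Ln N e x` (`u` is `N`-invariant with `e * u = u`; it is
  `res_mem_Ln` in P0c8ca5Q.SecI, or directly), so `resS (cos N x) u = c w • υ w` (`line`), where `c w` does not depend on the choice of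
  `x` (`cos N x` does not).  Put `a.coeff w = c w / |Z|`.  `c (z * w) = lam z⁻¹ * c w` for `z ∈ Z` (`lam_smul`, `υ w ≠ 0`), so `e' * a = a` by
  `es_mul_iff`.  By `key` `resS (cos N x) (ex υ a) = c w • υ w = resS (cos N x) u` for all `x`, so `ex υ a = u`.
* `ex_supp`: `z ∈ M.comap φ` iff `φ z ∈ M`; by `key` and `υ w ≠ 0`: `a.coeff w ≠ 0` iff `resS (cos N x) (ex υ a) ≠ 0` (`φ' w = φ x`).
* `ex_inv`: `InvBy Y a` iff `cj y a = a` for `y ∈ Y` (`invBy_iff_cj`); `es_cj`, `ex_cj`, `ex_inj`; for every `w ∈ M.comap φ'` there is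
  `x ∈ M.comap φ` with `φ' w = φ x` and conversely (`over`, `over'`).
-/

namespace Pool.Agent.Lib.P0c8ca5.Dz

open MonoidAlgebra Ps Bq Fg

variable {p : ℕ} {k : Type*} [Field k] {A A' B : Type*} [Group A] [Group A'] [Group B]
  {φ : A →* B} {e : MonoidAlgebra k A} {φ' : A' →* B} {υ : A' → MonoidAlgebra k A}

theorem StKAux.cos_eq (φ : A →* B) {b : B} {x : A} (hb : b = φ x) : cos φ.ker x = φ ⁻¹' {b} := by
  subst hb
  ext z
  rw [mem_cos, MonoidHom.mem_ker, map_mul, map_inv, mul_inv_eq_one]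
  exact Iff.rfl

theorem StKAux.natCast_ne_zero [CharP k p] (h : Star p φ e φ' υ) :
    (Nat.card φ'.ker : k) ≠ 0 := by
  intro h0
  exact h.ker ((CharP.cast_eq_zero_iff k p _).1 h0)

theorem StKAux.card_fib (φ' : A' →* B) [Fintype A'] (w : A') [DecidablePred fun v => φ' v = φ' w] :
    (Finset.univ.filter fun v => φ' v = φ' w).card = Nat.card φ'.ker := by
  rw [← Fintype.card_subtype, ← Nat.card_eq_fintype_card]
  refine Nat.card_congr
    { toFun := fun v => ⟨v.1 * w⁻¹, by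
        rw [MonoidHom.mem_ker, map_mul, map_inv, v.2, mul_inv_cancel]⟩
      invFun := fun z => ⟨z.1 * w, by
        rw [map_mul, (MonoidHom.mem_ker).1 z.2, one_mul]⟩
      left_inv := fun v => Subtype.ext (by simp)
      right_inv := fun z => Subtype.ext (by simp) }

theorem StKAux.lam_inv_mul [Fact p.Prime] [CharP k p] [IsAlgClosed k] [Fintype A]
    (h : Star p φ e φ' υ) {z : A'} (hz : φ' z = 1) : lam e υ z⁻¹ * lam e υ z = 1 := by
  have hz' : φ' z⁻¹ = 1 := by rw [map_inv, hz, inv_one]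
  rw [← h.lam_mul hz' hz, inv_mul_cancel, h.lam_one]

theorem Star.key [Fact p.Prime] [CharP k p] [IsAlgClosed k] [Fintype A] [Fintype A']
    (h : Star p φ e φ' υ) {a : MonoidAlgebra k A'} (ha : es φ' e υ * a = a) {w : A'} {x : A}
    (hw : φ' w = φ x) :
    resS (cos φ.ker x) (ex υ a) = ((Nat.card φ'.ker : k) * a.coeff w) • υ w := by
  classical
  have h1 : resS (cos φ.ker x) (ex υ a) = ex υ (cut φ' {φ' w} a) := by
    rw [StKAux.cos_eq φ hw, h.ex_cut]
    rfl
  rw [h1, ex_apply]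
  have h2 : ∀ v, (cut φ' {φ' w} a).coeff v • υ v
      = if φ' v = φ' w then a.coeff w • υ w else 0 := by
    intro v
    by_cases hv : φ' v = φ' w
    · rw [if_pos hv]
      have hmem : v ∈ φ' ⁻¹' {φ' w} := hv
      rw [cut, coeff_resS_of_mem _ hmem]
      have hz : φ' (v * w⁻¹) = 1 := by rw [map_mul, map_inv, hv, mul_inv_cancel]
      have e1 : a.coeff v = lam e υ (v * w⁻¹)⁻¹ * a.coeff w := by
        have := h.es_mul_iff.1 ha (v * w⁻¹) w hz
        rwa [inv_mul_cancel_right] at this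
      have e2 : υ v = lam e υ (v * w⁻¹) • υ w := by
        have := h.lam_smul hz w
        rwa [inv_mul_cancel_right] at this
      rw [e1, e2, smul_smul]
      congr 1
      have e3 := StKAux.lam_inv_mul h hz
      calc lam e υ (v * w⁻¹)⁻¹ * a.coeff w * lam e υ (v * w⁻¹)
          = (lam e υ (v * w⁻¹)⁻¹ * lam e υ (v * w⁻¹)) * a.coeff w := by ring
        _ = a.coeff w := by rw [e3, one_mul]
    · rw [if_neg hv]
      have hmem : v ∉ φ' ⁻¹' {φ' w} := hv
      rw [cut, coeff_resS_of_notMem _ hmem, zero_smul]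
  rw [Finset.sum_congr rfl fun v _ => h2 v, ← Finset.sum_filter, Finset.sum_const,
    StKAux.card_fib, mul_smul, Nat.cast_smul_eq_nsmul]

theorem Star.ex_inj [Fact p.Prime] [CharP k p] [IsAlgClosed k] [Fintype A] [Fintype A']
    (h : Star p φ e φ' υ) {a a' : MonoidAlgebra k A'} (ha : es φ' e υ * a = a)
    (ha' : es φ' e υ * a' = a') (hex : ex υ a = ex υ a') : a = a' := by
  have hb : es φ' e υ * (a - a') = a - a' := by rw [mul_sub, ha, ha']
  have hex' : ex υ (a - a') = 0 := by rw [map_sub, hex, sub_self]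
  have h0 : ∀ w, (a - a').coeff w = 0 := by
    intro w
    obtain ⟨x, hx⟩ := h.over w
    have h1 := h.key hb hx
    rw [hex', resS_zero] at h1
    rcases smul_eq_zero.1 h1.symm with h2 | h2
    · rcases mul_eq_zero.1 h2 with h3 | h3
      · exact absurd h3 (StKAux.natCast_ne_zero h)
      · exact h3
    · exact absurd h2 (h.ne_zero w)
  rw [← sub_eq_zero]
  ext w
  rw [h0 w]
  rfl

theorem Star.ex_surj [Fact p.Prime] [CharP k p] [IsAlgClosed k] [Fintype A] [Fintype A']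
    (h : Star p φ e φ' υ) {u : MonoidAlgebra k A} (hu : u ∈ Tc φ.ker ⊤ e 1) :
    ∃ a : MonoidAlgebra k A', es φ' e υ * a = a ∧ ex υ a = u := by
  obtain ⟨-, hu2, hu3⟩ := mem_Tc.1 hu
  have hc : ∀ w, ∃ c : k, resS (φ ⁻¹' {φ' w}) u = c • υ w := by
    intro w
    obtain ⟨x, hx⟩ := h.over w
    have h1 := res_mem_Ln h.cov.tri hu2 hu3 (Subgroup.mem_top x)
    rw [StKAux.cos_eq φ hx] at h1
    exact h.line hx h1
  choose c hc using hc
  have hN := StKAux.natCast_ne_zero h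
  let a : MonoidAlgebra k A' :=
    MonoidAlgebra.ofCoeff (Finsupp.equivFunOnFinite.symm fun w => c w * (Nat.card φ'.ker : k)⁻¹)
  have hac : ∀ w, a.coeff w = c w * (Nat.card φ'.ker : k)⁻¹ := fun w => rfl
  have ha : es φ' e υ * a = a := by
    rw [h.es_mul_iff]
    intro z w hz
    rw [hac, hac]
    have e1 : resS (φ ⁻¹' {φ' (z * w)}) u = resS (φ ⁻¹' {φ' w}) u := by
      rw [map_mul, hz, one_mul]
    rw [hc, hc, h.lam_smul hz, smul_smul, ← sub_eq_zero, ← sub_smul] at e1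
    have e2 : c (z * w) * lam e υ z = c w := by
      rcases smul_eq_zero.1 e1 with e2 | e2
      · exact sub_eq_zero.1 e2
      · exact absurd e2 (h.ne_zero w)
    have e3 := StKAux.lam_inv_mul h hz
    calc c (z * w) * (Nat.card φ'.ker : k)⁻¹
        = (lam e υ z⁻¹ * lam e υ z) * c (z * w) * (Nat.card φ'.ker : k)⁻¹ := by
          rw [e3, one_mul]
      _ = lam e υ z⁻¹ * (c (z * w) * lam e υ z) * (Nat.card φ'.ker : k)⁻¹ := by ring
      _ = lam e υ z⁻¹ * (c w * (Nat.card φ'.ker : k)⁻¹) := by rw [e2]; ring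
  refine ⟨a, ha, ?_⟩
  ext y
  obtain ⟨w, hw⟩ := h.over' y
  have h1 := h.key ha hw
  rw [hac, mul_comm (c w), mul_inv_cancel_left₀ hN, ← hc, StKAux.cos_eq φ hw] at h1
  have hy : y ∈ φ ⁻¹' {φ' w} := hw.symm
  rw [← coeff_resS_of_mem (ex υ a) hy, h1, coeff_resS_of_mem u hy]

theorem StKAux.coeff_ne [Fact p.Prime] [CharP k p] [IsAlgClosed k] [Fintype A] [Fintype A']
    (h : Star p φ e φ' υ) {a : MonoidAlgebra k A'} (ha : es φ' e υ * a = a) {w : A'} {x : A}
    (hw : φ' w = φ x) : resS (cos φ.ker x) (ex υ a) ≠ 0 ↔ a.coeff w ≠ 0 := by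
  rw [h.key ha hw, Ne, smul_eq_zero, mul_eq_zero, not_or, not_or]
  exact ⟨fun h1 => h1.1.2, fun h1 => ⟨⟨StKAux.natCast_ne_zero h, h1⟩, h.ne_zero w⟩⟩

theorem Star.ex_supp [Fact p.Prime] [CharP k p] [IsAlgClosed k] [Fintype A] [Fintype A']
    (h : Star p φ e φ' υ) {a : MonoidAlgebra k A'} (ha : es φ' e υ * a = a) (M : Subgroup B) :
    SuppIn (M.comap φ') a ↔ SuppIn (M.comap φ) (ex υ a) := by
  constructor
  · intro hs y hy
    obtain ⟨w, hw⟩ := h.over' y
    have hyc : y ∈ cos φ.ker y := by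
      rw [mem_cos, mul_inv_cancel]
      exact one_mem _
    have h1 : resS (cos φ.ker y) (ex υ a) ≠ 0 := by
      intro h0
      apply hy
      rw [← coeff_resS_of_mem (ex υ a) hyc, h0]
      rfl
    have h2 := hs w ((StKAux.coeff_ne h ha hw).1 h1)
    rw [Subgroup.mem_comap] at h2 ⊢
    rwa [← hw]
  · intro hs w hwa
    obtain ⟨x, hx⟩ := h.over w
    have h1 := (StKAux.coeff_ne h ha hx).2 hwa
    obtain ⟨y, hy⟩ : ∃ y, (resS (cos φ.ker x) (ex υ a)).coeff y ≠ 0 := by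
      by_contra h2
      push Not at h2
      apply h1
      ext y
      rw [h2 y]
      rfl
    have hyc : y ∈ cos φ.ker x := by
      by_contra h2
      exact hy (coeff_resS_of_notMem _ h2)
    rw [coeff_resS_of_mem _ hyc] at hy
    have h3 := hs y hy
    rw [mem_cos, MonoidHom.mem_ker, map_mul, map_inv, mul_inv_eq_one] at hyc
    rw [Subgroup.mem_comap] at h3 ⊢
    rwa [hx, ← hyc]

theorem Star.ex_inv [Fact p.Prime] [CharP k p] [IsAlgClosed k] [Fintype A] [Fintype A']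
    (h : Star p φ e φ' υ) {a : MonoidAlgebra k A'} (ha : es φ' e υ * a = a) (M : Subgroup B) :
    InvBy (M.comap φ') a ↔ InvBy (M.comap φ) (ex υ a) := by
  rw [invBy_iff_cj, invBy_iff_cj]
  constructor
  · intro hi x hx
    obtain ⟨w, hw⟩ := h.over' x
    rw [← h.ex_cj hw, hi w ?_]
    rw [Subgroup.mem_comap] at hx ⊢
    rwa [hw]
  · intro hi w hw
    obtain ⟨x, hx⟩ := h.over w
    apply h.ex_inj (h.es_cj ha w) ha
    rw [h.ex_cj hx, hi x ?_]
    rw [Subgroup.mem_comap] at hw ⊢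
    rwa [← hx]

end Pool.Agent.Lib.P0c8ca5.Dz
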