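import Mathlib
import Pool.Agent.Lib.P0c8ca5D.StA
import Pool.Agent.Lib.P0c8ca5D.UnA
import Pool.Agent.Lib.P0c8ca5N.RegP
import Pool.Agent.Lib.P0c8ca5F.StL

/-!
# Module StL: p-elements and p-regular elements over given elements

`N = φ.ker`.

PROOFS.
* `pow_star`: `υ (t ^ j) = υ t ^ j` for `j ≥ 1` by induction (`h.mul`).
* `un_star`: `υ z' ∈ Ln N e z` (`h.mem`) and `(υ z') ^ p ^ m = υ (z' ^ p ^ m) = υ 1 = e` (`pow_star`, `p ^ m ≥ 1`).
* `un_eq`: `Un.uniq` (P0c8ca5Q.UnA) for the triple `h.cov.tri`, with `un_star`.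
* `lift_pair`: choose `z₀, w₀ ∈ A'` with `φ' z₀ = φ z`, `φ' w₀ = φ w` (`over'`).  Let `z' = z₀ * (pr p z₀)⁻¹`, the p-part of `z₀`: `z' ^ p ^ m = 1`
  (`exists_pow_mul_inv_pr`, P0c8ca5N.RegP); `φ' (pr p z₀)` is a power of `φ z`, so its order divides a power of `p` (`(φ z) ^ p ^ n =
  1`), and it is p-regular (the order divides that of `pr p z₀`, `preg_pr`), so it is `1`, and `φ' z' = φ z`.  Let `w' = pr p w₀`: p-regular;
  `φ' (w₀ * (pr p w₀)⁻¹)` is a power of `φ w`, so of order prime to `p` (`(φ w) ^ m' = 1`, `p ∤ m'`: `Prm`), and of p-power order, so it is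
  `1` and `φ' w' = φ w`.  `φ' (z' * w') = φ (z * w) = φ (w * z) = φ' (w' * z')` (the commutator of `z` and `w` is in `N`), so `z' * w' = w' * z'`
  (`comm_of`).  `pr p (z' * w') = w'`: `pr p y = y ^ uexp p A'`, `(z' * w') ^ u = z' ^ u * w' ^ u` (`Commute.mul_pow`), `z' ^ u = 1`
  (`uexp_dvd_ordProj`: the order of `z'` is a power of `p` dividing `|A'|`) and `w' ^ u = w'` (`uexp_modEq`: `u ≡ 1` modulo the
  p'-part of `|A'|`); there may be a lemma for this (`pr` of a p-regular element, `pr_mul` ...) in P0c8ca5N.RegP.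
-/

namespace Pool.Agent.Lib.P0c8ca5.Dz

open MonoidAlgebra Ps Bq Fg

variable {p : ℕ} {k : Type*} [Field k] {A A' B : Type*} [Group A] [Group A'] [Group B]
  {φ : A →* B} {e : MonoidAlgebra k A} {φ' : A' →* B} {υ : A' → MonoidAlgebra k A}

namespace DStLAux

theorem one_of {G : Type*} [Group G] [Fact p.Prime] {y : G} {n m : ℕ} (h1 : y ^ p ^ n = 1)
    (hm : ¬ p ∣ m) (h2 : y ^ m = 1) : y = 1 := by
  have hp : p.Prime := Fact.out
  have h3 := orderOf_dvd_of_pow_eq_one h1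
  have h4 := orderOf_dvd_of_pow_eq_one h2
  have h5 : Nat.Coprime (p ^ n) m := Nat.Coprime.pow_left n ((Nat.Prime.coprime_iff_not_dvd hp).2 hm)
  have h6 : orderOf y ∣ 1 := by
    rw [← Nat.Coprime.gcd_eq_one h5]
    exact Nat.dvd_gcd h3 h4
  exact orderOf_eq_one_iff.1 (Nat.dvd_one.1 h6)

end DStLAux

open DStLAux

theorem Star.pow_star (h : Star p φ e φ' υ) (t : A') {j : ℕ} (hj : 0 < j) :
    υ (t ^ j) = υ t ^ j := by
  obtain ⟨n, rfl⟩ := Nat.exists_eq_succ_of_ne_zero hj.ne'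
  clear hj
  induction n with
  | zero => simp
  | succ n ih => rw [pow_succ, h.mul, ih, ← pow_succ]

theorem Star.un_star [Fact p.Prime] (h : Star p φ e φ' υ) {z : A} {z' : A'}
    (hz : φ' z' = φ z) {m : ℕ} (hm : z' ^ p ^ m = 1) : Un p φ.ker e z (υ z') := by
  refine ⟨h.mem z' z hz, m, ?_⟩
  rw [← h.pow_star z' (pow_pos (Fact.out : p.Prime).pos m), hm, h.one]

theorem Star.un_eq [Fact p.Prime] [CharP k p] [IsAlgClosed k] [Fintype A]
    (h : Star p φ e φ' υ) {z : A} {z' : A'} (hz : φ' z' = φ z) {m : ℕ} (hm : z' ^ p ^ m = 1)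
    {v : MonoidAlgebra k A} (hv : Un p φ.ker e z v) : v = υ z' := by
  exact Un.uniq h.cov.tri (Subgroup.mem_top z) hv (h.un_star hz hm)

theorem Star.lift_pair [Fact p.Prime] [CharP k p] [IsAlgClosed k] [Fintype A] [Fintype A']
    (h : Star p φ e φ' υ) {z w : A} (hz : ∃ n : ℕ, z ^ p ^ n ∈ φ.ker) (hw : Prm p φ.ker w)
    (hzw : z * w * z⁻¹ * w⁻¹ ∈ φ.ker) :
    ∃ z' w' : A', φ' z' = φ z ∧ φ' w' = φ w ∧ (∃ m : ℕ, z' ^ p ^ m = 1) ∧
      z' * w' = w' * z' ∧ pr p (z' * w') = w' := by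
  obtain ⟨z₀, hz₀⟩ := h.over' z
  obtain ⟨w₀, hw₀⟩ := h.over' w
  obtain ⟨n1, hn1⟩ := exists_pow_mul_inv_pr (p := p) z₀
  obtain ⟨n2, hn2⟩ := exists_pow_mul_inv_pr (p := p) w₀
  obtain ⟨n, hn⟩ := hz
  obtain ⟨m, hm, hwm⟩ := hw
  have hn' : (φ z) ^ p ^ n = 1 := by
    rw [← map_pow]
    exact MonoidHom.mem_ker.1 hn
  have hwm' : (φ w) ^ m = 1 := by
    rw [← map_pow]
    exact MonoidHom.mem_ker.1 hwm
  have hz1 : φ' (pr p z₀) = 1 := by
    refine one_of (p := p) (n := n) (m := orderOf (pr p z₀)) ?_ (preg_pr z₀) ?_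
    · rw [pr, map_pow, hz₀, ← pow_mul, mul_comm, pow_mul, hn', one_pow]
    · rw [← map_pow, pow_orderOf_eq_one, map_one]
  have hw1 : φ' (w₀ * (pr p w₀)⁻¹) = 1 := by
    refine one_of (p := p) (n := n2) (m := m) ?_ hm ?_
    · rw [← map_pow, hn2, map_one]
    · have e1 : φ' (w₀ * (pr p w₀)⁻¹) = φ w * (φ w ^ uexp p A')⁻¹ := by
        rw [map_mul, map_inv, pr, map_pow, hw₀]
      have e2 : Commute (φ w) (φ w ^ uexp p A')⁻¹ := (Commute.self_pow _ _).inv_right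
      rw [e1, e2.mul_pow, hwm', one_mul, inv_pow, ← pow_mul, mul_comm, pow_mul, hwm', one_pow,
        inv_one]
  have hw2 : φ' (pr p w₀) = φ w := by
    rw [map_mul, map_inv, mul_inv_eq_one, hw₀] at hw1
    exact hw1.symm
  have hz2 : φ' (z₀ * (pr p z₀)⁻¹) = φ z := by
    rw [map_mul, map_inv, hz1, inv_one, mul_one, hz₀]
  have hc : φ z * φ w = φ w * φ z := by
    have h1 : φ (z * w * z⁻¹ * w⁻¹) = 1 := MonoidHom.mem_ker.1 hzw
    rw [map_mul, map_mul, map_mul, map_inv, map_inv, mul_inv_eq_one, mul_inv_eq_iff_eq_mul] at h1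
    exact h1
  have hcomm : z₀ * (pr p z₀)⁻¹ * pr p w₀ = pr p w₀ * (z₀ * (pr p z₀)⁻¹) := by
    refine h.comm_of hn1 ?_
    rw [map_mul φ' (z₀ * (pr p z₀)⁻¹) (pr p w₀), map_mul φ' (pr p w₀) (z₀ * (pr p z₀)⁻¹), hw2, hz2, hc]
  refine ⟨z₀ * (pr p z₀)⁻¹, pr p w₀, hz2, hw2, ⟨n1, hn1⟩, hcomm, ?_⟩
  rw [pr_mul hcomm, pr_of_pow hn1, one_mul, pr_pr]

end Pool.Agent.Lib.P0c8ca5.Dz
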