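import Mathlib
import Pool.Agent.Lib.P0c8ca5D.StK
import Pool.Agent.Lib.P0c8ca5D.StL
import Pool.Agent.Lib.P0c8ca5D.SecI
import Pool.Agent.Lib.P0c8ca5F.StD

/-!
# Module StD: the condition `a(pr z) = a(z)` for `A'` and for `A`

`N = φ.ker`, `Y = M.comap φ`, `Y' = M.comap φ'`, `u = ex υ a`.  `u ∈ Tc N Y e 1` (`ex_mem`, `ex_supp`).

`Bq.sec_iff` (P0c8ca5Q.SecI) for the triple `Tri p N Y e` (from `h.cov.tri`: `N ≤ Y`, `Y` normalizes `N`, the other fields restrict),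
`M = K = Y`, `x = 1` (`Prm p Y 1`: `m = 1`): the right side of the statement is equivalent to `Dl p N Y e 1 u`, i.e. for `z ∈ Y`, `w ∈ Y` with
`z ^ p ^ n ∈ N`, `Prm p N w`, `z w z⁻¹ w⁻¹ ∈ N` and `Un p N e z v`: `resS (cos N (z * w)) u = v * resS (cos N w) u`.
For `t ∈ A'`, `φ' t = φ x`: `resS (cos N x) u = (|Z| * a.coeff t) • υ t` (`key`), `|Z| ≠ 0` in `k` (`h.ker`), `υ t ≠ 0`.

LEFT TO RIGHT.  Let `z, w, v` be as in `Dl`; `lift_pair` gives `z', w'`; `v = υ z'` (`un_eq`).  Let `y = z' * w'`, `φ' y = φ (z * w)`, `y ∈ Y'`, `pr p y =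
w'`.  The hypothesis gives `a.coeff w' = a.coeff y`, so `resS (cos N (z * w)) u = (|Z| * a.coeff y) • υ y = υ z' * ((|Z| * a.coeff w') • υ w') = v *
resS (cos N w) u` (`key` for `y` and `w'`, `h.mul`).

RIGHT TO LEFT.  Let `y ∈ Y'`, `w' = pr p y`, `z' = y * w'⁻¹`, `z' ^ p ^ m = 1` (`exists_pow_mul_inv_pr`), both powers of `y`, so in `Y'` and
commuting.  Choose `z, w ∈ A` with `φ z = φ' z'`, `φ w = φ' w'` (`over`); `z, w ∈ Y`, `z ^ p ^ m ∈ N`, `Prm p N w` (`w ^ m' ∈ N` for `m' = orderOf w'`,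
prime to `p` by `preg_pr`), `z w z⁻¹ w⁻¹ ∈ N`; `v = υ z'` satisfies `Un p N e z v` (`un_star`).  `Dl` gives `(|Z| * a.coeff y) • υ y = υ z' * ((|Z| *
a.coeff w') • υ w') = (|Z| * a.coeff w') • υ y`, so `a.coeff y = a.coeff w'`.
-/

namespace Pool.Agent.Lib.P0c8ca5.Dz

open MonoidAlgebra Ps Bq Fg

variable {p : ℕ} {k : Type*} [Field k] {A A' B : Type*} [Group A] [Group A'] [Group B]
  {φ : A →* B} {e : MonoidAlgebra k A} {φ' : A' →* B} {υ : A' → MonoidAlgebra k A}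

theorem Star.sec_iff [Fact p.Prime] [CharP k p] [IsAlgClosed k] [Fintype A] [Fintype A']
    (h : Star p φ e φ' υ) {M : Subgroup B} {a : MonoidAlgebra k A'}
    (ha : es φ' e υ * a = a) (hs : SuppIn (M.comap φ') a) :
    (∀ z ∈ M.comap φ', a.coeff (pr p z) = a.coeff z) ↔
      ∀ z ∈ M.comap φ, (ex υ a).coeff (pr p z) = (ex υ a).coeff z := by
  classical
  have hp : p.Prime := Fact.out
  have hT := h.cov.tri
  have hNY : φ.ker ≤ M.comap φ := by
    intro z hz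
    rw [Subgroup.mem_comap, MonoidHom.mem_ker.1 hz]
    exact M.one_mem
  have hTY : Tri p φ.ker (M.comap φ) e :=
    ⟨hNY, le_trans le_top hT.nm, hT.dz, hT.inv.mono le_top⟩
  have hxr : Prm p (M.comap φ) (1 : A) :=
    ⟨1, hp.not_dvd_one, by rw [pow_one]; exact Subgroup.one_mem _⟩
  have hu : ex υ a ∈ Tc φ.ker (M.comap φ) e 1 := by
    refine mem_Tc.2 ⟨fun z hz => ?_, (mem_Tc.1 (h.ex_mem a)).2⟩
    rw [inv_one, mul_one]
    exact (h.ex_supp ha M).1 hs z hz
  have key1 := Dz.sec_iff hTY hNY le_rfl Subgroup.le_normalizer (Subgroup.one_mem _) hxr hu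
  have e1 : (∀ z ∈ M.comap φ, (ex υ a).coeff (pr p z) = (ex υ a).coeff z) ↔
      Dl p φ.ker (M.comap φ) e 1 (ex υ a) := by
    rw [← key1]
    constructor
    · intro H z hz
      rw [inv_one, mul_one] at hz
      exact H z hz
    · intro H z hz
      exact H z (by rwa [inv_one, mul_one])
  have hZ : (Nat.card φ'.ker : k) ≠ 0 := by
    intro h0
    exact h.ker ((CharP.cast_eq_zero_iff k p _).1 h0)
  rw [e1]
  constructor
  · intro H z hz w hw hzp hwr hzw v hv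
    rw [inv_one, mul_one] at hw
    obtain ⟨z', w', h1, h2, ⟨m, hm⟩, h4, h5⟩ := h.lift_pair hzp hwr hzw
    have hv' := h.un_eq h1 hm hv
    have h6 : φ' (z' * w') = φ (z * w) := by rw [map_mul, map_mul, h1, h2]
    have h7 : z' * w' ∈ M.comap φ' := by
      rw [Subgroup.mem_comap, h6, map_mul]
      exact M.mul_mem hz hw
    rw [h.key ha h6, h.key ha h2, hv', h.mul, mul_smul_comm, ← H _ h7, h5]
  · intro H y hy
    obtain ⟨m, hm⟩ := exists_pow_mul_inv_pr (p := p) y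
    have hc : Commute y (pr p y) := commute_pr (Commute.refl y)
    obtain ⟨z, hz⟩ := h.over (y * (pr p y)⁻¹)
    obtain ⟨w, hw⟩ := h.over (pr p y)
    have hw' : pr p y ∈ M.comap φ' := pr_mem hy
    have hz' : y * (pr p y)⁻¹ ∈ M.comap φ' :=
      Subgroup.mul_mem _ hy (Subgroup.inv_mem _ hw')
    have hzY : z ∈ M.comap φ := by
      rw [Subgroup.mem_comap, ← hz]
      exact hz'
    have hwY : w ∈ M.comap φ := by
      rw [Subgroup.mem_comap, ← hw]
      exact hw'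
    have hzp : z ^ p ^ m ∈ φ.ker := by
      rw [MonoidHom.mem_ker, map_pow, ← hz, ← map_pow, hm, map_one]
    have hwr : Prm p φ.ker w := ⟨orderOf (pr p y), preg_pr y, by
      rw [MonoidHom.mem_ker, map_pow, ← hw, ← map_pow, pow_orderOf_eq_one, map_one]⟩
    have hzw : z * w * z⁻¹ * w⁻¹ ∈ φ.ker := by
      rw [MonoidHom.mem_ker, map_mul, map_mul, map_mul, map_inv, map_inv, ← hz, ← hw,
        ← map_inv, ← map_inv, ← map_mul, ← map_mul, ← map_mul]
      have h8 : y * (pr p y)⁻¹ * pr p y * (y * (pr p y)⁻¹)⁻¹ * (pr p y)⁻¹ = 1 := by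
        rw [inv_mul_cancel_right, mul_inv_rev, inv_inv]
        have h9 : pr p y * y⁻¹ = y⁻¹ * pr p y := (hc.inv_left).symm.eq
        rw [h9]
        group
      rw [h8, map_one]
    have hun := h.un_star hz hm
    have hD := H z hzY w (by rwa [inv_one, mul_one]) ⟨m, hzp⟩ hwr hzw _ hun
    have h6 : φ' y = φ (z * w) := by
      rw [map_mul, ← hz, ← hw, ← map_mul, inv_mul_cancel_right]
    rw [h.key ha h6, h.key ha hw, mul_smul_comm, ← h.mul, inv_mul_cancel_right] at hD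
    have h10 := smul_left_injective k (h.ne_zero y) hD
    exact (mul_left_cancel₀ hZ h10).symm

end Pool.Agent.Lib.P0c8ca5.Dz
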