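import Mathlib
import Pool.Agent.Lib.P0c8ca5D.Fd

/-!
# Module GrA: the p-subgroups with nonzero Brauer map of `e` and the homomorphism `φ : A → B`

PROOFS.
* `Cov.exists_lift`: `lemC` for `L = φ.ker` and `M = T.comap φ`.
* `Cov.conj_lift`: `conj_of_sup` and the orders.
* `Cov.map_inj`: `φ.ker ⊓ S = 1` (`inf_bot`).
-/

namespace Pool.Agent.Lib.P0c8ca5.Dz

open MonoidAlgebra Ps Bq Fg

variable {p : ℕ} {k : Type*} [Field k] {A B : Type*} [Group A] [Group B] {φ : A →* B}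
  {e : MonoidAlgebra k A}

theorem Cov.exists_lift [Fact p.Prime] [CharP k p] [IsAlgClosed k] [Fintype A] (h : Cov p φ e)
    {T : Subgroup B} (hT : IsPGroup p T) :
    ∃ S : Subgroup A, IsPGroup p S ∧ HasBr S e ∧ S.map φ = T := by
  have hker : φ.ker ≤ T.comap φ := Subgroup.ker_le_comap φ T
  obtain ⟨S, -, -, hS, hsup, -, hbr, -, -, -, -⟩ :=
    lemC h.tri.dz (h.tri.inv.mono le_top) hker (le_top.trans h.tri.nm) (by
      intro x hx
      obtain ⟨n, hn⟩ := hT ⟨φ x, hx⟩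
      refine ⟨n, ?_⟩
      have h2 : (φ x) ^ p ^ n = 1 := congrArg Subtype.val hn
      rw [MonoidHom.mem_ker, map_pow, h2])
  refine ⟨S, hS, hbr, ?_⟩
  have h1 : (φ.ker ⊔ S).map φ = T := by
    rw [hsup]
    exact Subgroup.map_comap_eq_self_of_surjective h.surj T
  rw [Subgroup.map_sup] at h1
  have h2 : φ.ker.map φ = ⊥ := by
    rw [eq_bot_iff]
    rintro _ ⟨x, hx, rfl⟩
    exact Subgroup.mem_bot.2 hx
  rwa [h2, bot_sup_eq] at h1

theorem Cov.lft_spec [Fact p.Prime] [CharP k p] [IsAlgClosed k] [Fintype A] (h : Cov p φ e)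
    {T : Subgroup B} (hT : IsPGroup p T) :
    IsPGroup p (lft p φ e T) ∧ HasBr (lft p φ e T) e ∧ (lft p φ e T).map φ = T := by
  have h1 : ∃ S : Subgroup A, IsPGroup p S ∧ HasBr S e ∧ S.map φ = T := h.exists_lift hT
  unfold lft
  rw [dif_pos h1]
  exact h1.choose_spec

/-- the p-subgroups with nonzero Brauer map are isomorphic to their images -/
theorem Cov.map_inj (h : Cov p φ e) {S : Subgroup A}
    (hS : IsPGroup p S) (hbr : HasBr S e) {x : A} (hx : x ∈ S) (h1 : φ x = 1) : x = 1 := by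
  have h2 : x ∈ φ.ker ⊓ S := Subgroup.mem_inf.2 ⟨MonoidHom.mem_ker.2 h1, hx⟩
  rw [inf_bot h.tri hS hbr] at h2
  exact Subgroup.mem_bot.1 h2

theorem Cov.card_map (h : Cov p φ e) {S : Subgroup A}
    (hS : IsPGroup p S) (hbr : HasBr S e) : Nat.card (S.map φ) = Nat.card S := by
  refine (Nat.card_congr (Equiv.ofBijective (φ.subgroupMap S) ⟨?_, φ.subgroupMap_surjective S⟩)).symm
  rw [injective_iff_map_eq_one]
  intro x hx
  exact Subtype.ext (h.map_inj hS hbr x.2 (congrArg Subtype.val hx))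

theorem Cov.conj_lift [Fact p.Prime] [CharP k p] [IsAlgClosed k] [Fintype A] (h : Cov p φ e)
    {S S' : Subgroup A} (hS : IsPGroup p S) (hbr : HasBr S e) (hS' : IsPGroup p S')
    (hbr' : HasBr S' e) (hm : S.map φ = S'.map φ) : ∃ n ∈ φ.ker, S' = cg n S := by
  have hn : S ≤ Subgroup.normalizer (φ.ker : Set A) := le_top.trans h.tri.nm
  have h1 : S' ≤ φ.ker ⊔ S := by
    rw [sup_comm, ← Subgroup.comap_map_eq, hm]
    exact Subgroup.le_comap_map φ S'
  obtain ⟨m, hm1, hle⟩ := WgtAux.conj_of_sup h.tri le_top hS hbr hS' h1 hbr'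
  have h2 : S' = cg m S := by
    apply eq_of_le_of_card hle
    rw [card_cg, ← h.card_map hS hbr, ← h.card_map hS' hbr', hm]
  rw [mem_sup_norm hn] at hm1
  obtain ⟨n, hn', s, hs, hns⟩ := hm1
  refine ⟨n, hn', ?_⟩
  rw [h2, ← hns, ← cg_cg, cg_eq_self_iff.2 (Subgroup.le_normalizer hs)]

end Pool.Agent.Lib.P0c8ca5.Dz
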