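import Mathlib
import Pool.Agent.Lib.P0c8ca5D.Chn
import Pool.Agent.Lib.P0c8ca5Q.Kap
import Pool.Agent.Lib.P0c8ca5D.Gq

/-!
# Module Kap: the commutators and the Brauer map, one p-regular element

`L = Lp K P`, `N' = N ⊓ C(P)`, `e' = br P e`, `cm' = cm N' e'`, the commutator for the triple `(N', L, e')` (`tri_br`).

PROOF.
(1) Case `Preg p y`.  `br_cm_chain` (P0c8ca5S.Chn) with `R = Subgroup.closure {y, x}`: `R ≤ L`.  The images of `y` and `x` in
    `N(P) / C(P)` (or in `MulAut P`, by conjugation) commute, so the image of `R` is commutative: the commutators of `R` are in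
    `C(P)`.  `x ^ m ∈ C(P)`, `y ^ j = 1`, `p ∤ m`, `p ∤ j`: in a commutative group generated by the images of `x` and `y` the
    `m j`-th powers are trivial, so `r ^ (m * j) ∈ C(P)` for `r ∈ R`.
(2) Case `y ^ p ^ n = 1`.  For every `j` the element `y ^ j` is in `L` and `[y ^ j, x] ∈ C(P)`.  `br P (cm N e y x)` and `cm' y x` are nonzero
    elements of the line `Ln N' e' [y, x]` (`cm_mem`, `cm_ne_zero`, `br_Ln`, `br_ne_zero` with `c = [y, x] ∈ K ⊓ C(P)`), so
    `br P (cm N e y x) = κ • cm' y x` (`ln_line`), and by induction `br P (cm N e (y ^ j) x) = κ ^ j • cm' (y ^ j) x`: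
    `cm N e (y * y ^ j) x = cj y (cm N e (y ^ j) x) * cm N e y x` (`cm_mul_left`), the same for `cm'`; `br P` of the product by
    `resS_mul` (both factors are in lines of elements of `C(P)`, `ln_invBy`; `cm_mem`, `Ln_cj`), `br_cj`.  For `j = p ^ n`:
    `cm N e 1 x = e`, `cm' 1 x = e'` (`cm_one_left`), so `κ ^ p ^ n = 1` and `κ = 1`.
(3) In general `y = y₂ * y₁` with `y₁ = pr p y` (p-regular, `preg_pr`), `y₂ = y * (pr p y)⁻¹`, `y₂ ^ p ^ n = 1`
    (`exists_pow_mul_inv_pr`), both powers of `y` (finite group), so `[y₁, x], [y₂, x] ∈ C(P)`: `{g ∈ N(P) | [g, x] ∈ C(P)}` is a subgroup.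
    `cm_mul_left` for both, (1), (2), `resS_mul`, `br_cj`.
-/

namespace Pool.Agent.Lib.P0c8ca5.Dz

open MonoidAlgebra Ps Bq

variable {p : ℕ} {k : Type*} [Field k] {A : Type*} [Group A] {N K P : Subgroup A}
  {e : MonoidAlgebra k A}

namespace DKapAux

theorem conj_val {P : Subgroup A} (g : Subgroup.normalizer (P : Set A)) (q : P) :
    ((Subgroup.normalizerMonoidHom P g q : P) : A) = g * q * (g : A)⁻¹ := rfl

theorem ker_iff {P : Subgroup A} (g : Subgroup.normalizer (P : Set A)) :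
    Subgroup.normalizerMonoidHom P g = 1 ↔ (g : A) ∈ Subgroup.centralizer (P : Set A) := by
  constructor
  · intro hg
    rw [Subgroup.mem_centralizer_iff]
    intro q hq
    have h1 : ((Subgroup.normalizerMonoidHom P g ⟨q, hq⟩ : P) : A) = q := by rw [hg]; rfl
    rw [conj_val] at h1
    calc q * (g : A) = (g * q * (g : A)⁻¹) * g := by rw [h1]
      _ = g * q := by group
  · intro hg
    ext q
    rw [conj_val]
    have h1 := Subgroup.mem_centralizer_iff.1 hg q q.2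
    rw [← h1]
    change (q : A) * g * (g : A)⁻¹ = ((q : P) : A)
    group

theorem comm_iff {P : Subgroup A} (g x : Subgroup.normalizer (P : Set A)) :
    (g : A) * x * (g : A)⁻¹ * (x : A)⁻¹ ∈ Subgroup.centralizer (P : Set A) ↔
      Subgroup.normalizerMonoidHom P g * Subgroup.normalizerMonoidHom P x =
        Subgroup.normalizerMonoidHom P x * Subgroup.normalizerMonoidHom P g := by
  have h0 : ((g * x * g⁻¹ * x⁻¹ : Subgroup.normalizer (P : Set A)) : A)
      = (g : A) * x * (g : A)⁻¹ * (x : A)⁻¹ := rfl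
  rw [← h0, ← ker_iff, map_mul, map_mul, map_mul, map_inv, map_inv, mul_inv_eq_one,
    mul_inv_eq_iff_eq_mul]

/-- the elements of `N(P)` that commute with `x` modulo `C(P)` -/
theorem exists_cg {P : Subgroup A} {x : A} (hx : x ∈ Subgroup.normalizer (P : Set A)) :
    ∃ S : Subgroup A, ∀ g, g ∈ S ↔ g ∈ Subgroup.normalizer (P : Set A) ∧
      g * x * g⁻¹ * x⁻¹ ∈ Subgroup.centralizer (P : Set A) := by
  set φ := Subgroup.normalizerMonoidHom P with hφ
  set x' : Subgroup.normalizer (P : Set A) := ⟨x, hx⟩ with hx'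
  refine ⟨((Subgroup.centralizer ({φ x'} : Set (MulAut P))).comap φ).map
    (Subgroup.normalizer (P : Set A)).subtype, fun g => ?_⟩
  rw [Subgroup.mem_map]
  constructor
  · rintro ⟨g', h1, rfl⟩
    refine ⟨g'.2, ?_⟩
    have h2 := (comm_iff g' x').2 (Subgroup.mem_centralizer_iff.1 (Subgroup.mem_comap.1 h1)
      (φ x') rfl).symm
    exact h2
  · rintro ⟨h1, h2⟩
    refine ⟨⟨g, h1⟩, ?_, rfl⟩
    rw [Subgroup.mem_comap, Subgroup.mem_centralizer_iff]
    intro y hy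
    rw [Set.mem_singleton_iff] at hy
    subst hy
    exact ((comm_iff ⟨g, h1⟩ x').1 h2).symm

/-- Case 1: `y` is p-regular and `x` is p-regular modulo `C(P)`. -/
theorem case_reg [Fact p.Prime] [CharP k p] [IsAlgClosed k] [Fintype A]
    (h : Tri p N K e) (hPK : P ≤ K) (hP : IsPGroup p P) (hbr : HasBr P e)
    {y x : A} (hy : y ∈ K) (hyP : y ∈ Subgroup.normalizer (P : Set A)) (hx : x ∈ K)
    (hxP : x ∈ Subgroup.normalizer (P : Set A))
    (hyx : y * x * y⁻¹ * x⁻¹ ∈ Subgroup.centralizer (P : Set A)) (hyr : Preg p y)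
    {m : ℕ} (hm : ¬ p ∣ m) (hxm : x ^ m ∈ Subgroup.centralizer (P : Set A)) :
    br P (cm N e y x) = cm (N ⊓ Subgroup.centralizer (P : Set A)) (br P e) y x := by
  classical
  set φ := Subgroup.normalizerMonoidHom P with hφ
  set x' : Subgroup.normalizer (P : Set A) := ⟨x, hxP⟩ with hx'
  set y' : Subgroup.normalizer (P : Set A) := ⟨y, hyP⟩ with hy'
  have hxy' : φ y' * φ x' = φ x' * φ y' := (comm_iff y' x').1 hyx
  set R : Subgroup A := K ⊓ ((Subgroup.closure ({φ y', φ x'} : Set (MulAut P))).comap φ).map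
    (Subgroup.normalizer (P : Set A)).subtype with hR
  have hRmem : ∀ r ∈ R, ∃ r' : Subgroup.normalizer (P : Set A), (r' : A) = r ∧
      φ r' ∈ Subgroup.closure ({φ y', φ x'} : Set (MulAut P)) := by
    intro r hr
    obtain ⟨r', h1, h2⟩ := Subgroup.mem_map.1 (Subgroup.mem_inf.1 hr).2
    exact ⟨r', h2, Subgroup.mem_comap.1 h1⟩
  have hym : φ y' ^ (orderOf y * m) = 1 := by
    have h1 : y' ^ orderOf y = 1 := by
      apply Subtype.ext
      rw [Subgroup.coe_pow]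
      exact pow_orderOf_eq_one y
    rw [pow_mul, ← map_pow, h1, map_one, one_pow]
  have hxm' : φ x' ^ (orderOf y * m) = 1 := by
    have h1 : φ (x' ^ m) = 1 := by
      rw [hφ, ker_iff, Subgroup.coe_pow]
      exact hxm
    rw [mul_comm, pow_mul, ← map_pow, h1, one_pow]
  refine br_cm_chain (Nat.card P) P rfl N K e h hPK hP hbr R inf_le_left ?_ ?_ ?_ y ?_ x ?_
  · intro r hr
    obtain ⟨r', h1, _⟩ := hRmem r hr
    rw [← h1]
    exact r'.2
  · intro r hr s hs
    obtain ⟨r', h1, h2⟩ := hRmem r hr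
    obtain ⟨s', h3, h4⟩ := hRmem s hs
    have h5 := ChnAux.clo_comm hxy' _ h2 _ h4
    have h7 := (comm_iff r' s').2 h5
    rw [← h1, ← h3]
    exact h7
  · intro r hr
    obtain ⟨r', h1, h2⟩ := hRmem r hr
    refine ⟨orderOf y * m, ?_, ?_⟩
    · intro hd
      rcases (Fact.out : p.Prime).dvd_mul.1 hd with h3 | h3
      · exact hyr h3
      · exact hm h3
    · have h3 := ChnAux.clo_pow hxy' hym hxm' _ h2
      rw [← map_pow] at h3
      have h4 := (ker_iff _).1 h3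
      rw [← h1]
      exact h4
  · refine Subgroup.mem_inf.2 ⟨hy, Subgroup.mem_map.2 ⟨y', ?_, rfl⟩⟩
    exact Subgroup.mem_comap.2 (Subgroup.subset_closure (Or.inl rfl))
  · refine Subgroup.mem_inf.2 ⟨hx, Subgroup.mem_map.2 ⟨x', ?_, rfl⟩⟩
    exact Subgroup.mem_comap.2 (Subgroup.subset_closure (Or.inr rfl))

theorem com_mem {L : Subgroup A} {a b : A} (ha : a ∈ L) (hb : b ∈ L) :
    a * b * a⁻¹ * b⁻¹ ∈ L :=
  L.mul_mem (L.mul_mem (L.mul_mem ha hb) (L.inv_mem ha)) (L.inv_mem hb)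

/-- one step of the product formula -/
theorem br_step [Fact p.Prime] [CharP k p] [IsAlgClosed k] [Fintype A]
    (h : Tri p N K e) (hPK : P ≤ K) (hP : IsPGroup p P)
    {y z x : A} (hy : y ∈ K) (hyP : y ∈ Subgroup.normalizer (P : Set A)) (hz : z ∈ K)
    (hx : x ∈ K)
    (hyx : y * x * y⁻¹ * x⁻¹ ∈ Subgroup.centralizer (P : Set A))
    (hzx : z * x * z⁻¹ * x⁻¹ ∈ Subgroup.centralizer (P : Set A)) :
    br P (cm N e (y * z) x) = cj y (br P (cm N e z x)) * br P (cm N e y x) := by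
  have i1 : InvBy P (cm N e z x) := ln_invBy h hPK hP (com_mem hz hx) hzx (cm_mem h hz hx)
  have i2 : InvBy P (cm N e y x) := ln_invBy h hPK hP (com_mem hy hx) hyx (cm_mem h hy hx)
  rw [cm_mul_left h hy hz hx, ← br_cj hyP]
  exact resS_mul hP (i1.cj hyP) i2

/-- Case 2: `y` is a p-element. -/
theorem case_p [Fact p.Prime] [CharP k p] [IsAlgClosed k] [Fintype A]
    (h : Tri p N K e) (hPK : P ≤ K) (hP : IsPGroup p P) (hbr : HasBr P e)
    {y x : A} (hy : y ∈ K) (hyP : y ∈ Subgroup.normalizer (P : Set A)) (hx : x ∈ K)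
    (hxP : x ∈ Subgroup.normalizer (P : Set A))
    (hyx : y * x * y⁻¹ * x⁻¹ ∈ Subgroup.centralizer (P : Set A)) {n : ℕ}
    (hyn : y ^ p ^ n = 1) :
    br P (cm N e y x) = cm (N ⊓ Subgroup.centralizer (P : Set A)) (br P e) y x := by
  classical
  obtain ⟨S, hS⟩ := exists_cg hxP
  have hyS : y ∈ S := (hS y).2 ⟨hyP, hyx⟩
  have hj : ∀ j : ℕ, y ^ j ∈ Subgroup.normalizer (P : Set A) ∧
      y ^ j * x * (y ^ j)⁻¹ * x⁻¹ ∈ Subgroup.centralizer (P : Set A) :=
    fun j => (hS _).1 (S.pow_mem hyS j)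
  have hp := tri_br h hPK hP hbr
  set N' : Subgroup A := N ⊓ Subgroup.centralizer (P : Set A) with hN'
  set L : Subgroup A := K ⊓ Subgroup.normalizer (P : Set A) with hL
  have hyL : y ∈ L := ⟨hy, hyP⟩
  have hxL : x ∈ L := ⟨hx, hxP⟩
  have hcL : y * x * y⁻¹ * x⁻¹ ∈ L := com_mem hyL hxL
  obtain ⟨κ, hκ⟩ := ln_line hp hcL (cm_mem hp hyL hxL) (cm_ne_zero hp hyL hxL)
    (br_Ln h hPK hP (com_mem hy hx) hyx (cm_mem h hy hx))
  have ind : ∀ j : ℕ, br P (cm N e (y ^ j) x) = κ ^ j • cm N' (br P e) (y ^ j) x := by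
    intro j
    induction j with
    | zero => rw [pow_zero, pow_zero, one_smul, cm_one_left h hx, cm_one_left hp hxL]
    | succ j ih =>
      rw [pow_succ', br_step h hPK hP hy hyP (K.pow_mem hy j) hx hyx (hj j).2, ih, hκ,
        cm_mul_left hp hyL (L.pow_mem hyL j) hxL, cj_smul, smul_mul_smul_comm, ← pow_succ]
  have h1 := ind (p ^ n)
  rw [hyn, cm_one_left h hx, cm_one_left hp hxL] at h1
  have h2 : κ ^ p ^ n = 1 := by
    have h3 : (κ ^ p ^ n - 1) • br P e = 0 := by rw [sub_smul, ← h1, one_smul, sub_self]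
    rcases smul_eq_zero.1 h3 with h4 | h4
    · exact sub_eq_zero.1 h4
    · exact (hp.blk.ne_zero h4).elim
  have h3 : κ = 1 := by
    have h4 := (ExpChar.pow_prime_pow_mul_eq_one_iff p n 1 κ).1 (by rw [mul_one]; exact h2)
    rwa [pow_one] at h4
  rw [hκ, h3, one_smul]

end DKapAux

open DKapAux

theorem Par.br_cm_all [Fact p.Prime] [CharP k p] [IsAlgClosed k] [Fintype A]
    (h : Par p N K P e) {y x : A} (hy : y ∈ Lp K P) (hx : x ∈ Lp K P)
    (hxr : Prm p (Cp K P) x) (hyx : y * x * y⁻¹ * x⁻¹ ∈ Subgroup.centralizer (P : Set A)) :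
    br P (cm N e y x) = cm (N ⊓ Subgroup.centralizer (P : Set A)) (br P e) y x := by
  classical
  obtain ⟨ht, hPK, hP, hbr⟩ := h
  obtain ⟨hyK, hyP⟩ := Subgroup.mem_inf.1 hy
  obtain ⟨hxK, hxP⟩ := Subgroup.mem_inf.1 hx
  obtain ⟨m, hm, hxm⟩ := hxr
  have hxm' : x ^ m ∈ Subgroup.centralizer (P : Set A) := (Subgroup.mem_inf.1 hxm).2
  obtain ⟨S, hS⟩ := exists_cg hxP
  have hyS : y ∈ S := (hS y).2 ⟨hyP, hyx⟩
  have h1S : pr p y ∈ S := pr_mem hyS
  have h1K : pr p y ∈ K := pr_mem hyK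
  have h2S : y * (pr p y)⁻¹ ∈ S := S.mul_mem hyS (S.inv_mem h1S)
  have h2K : y * (pr p y)⁻¹ ∈ K := K.mul_mem hyK (K.inv_mem h1K)
  obtain ⟨n, hn⟩ := exists_pow_mul_inv_pr (p := p) y
  have hp := tri_br ht hPK hP hbr
  have e1 := case_reg ht hPK hP hbr h1K ((hS _).1 h1S).1 hxK hxP ((hS _).1 h1S).2 (preg_pr y) hm
    hxm'
  have e2 := case_p ht hPK hP hbr h2K ((hS _).1 h2S).1 hxK hxP ((hS _).1 h2S).2 hn
  have e3 : y * (pr p y)⁻¹ * pr p y = y := inv_mul_cancel_right y (pr p y)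
  have e4 := br_step ht hPK hP h2K ((hS _).1 h2S).1 h1K hxK ((hS _).1 h2S).2 ((hS _).1 h1S).2
  have e5 := cm_mul_left hp (Subgroup.mem_inf.2 ⟨h2K, ((hS _).1 h2S).1⟩)
    (Subgroup.mem_inf.2 ⟨h1K, ((hS _).1 h1S).1⟩) hx
  rw [e3] at e4 e5
  rw [e4, e5, e1, e2]

end Pool.Agent.Lib.P0c8ca5.Dz
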