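import Mathlib
import Pool.Agent.Lib.P0c8ca5D.FsT
import Pool.Agent.Lib.P0c8ca5D.IsoA
import Pool.Agent.Lib.P0c8ca5D.IsoB
import Pool.Agent.Lib.P0c8ca5Q.IsoC

/-!
# Module IsoC: the spaces `Fs` for `K` and for `N_K(P)` have the same dimension

`L = Lp K P`, `C = Cp K P`, `N₁ = N ⊔ C`, `N' = N ⊓ C(P)`, `e' = br P e`, `b' = br P b`; `tri_br`: the triple `(N', L, e')`.

PROOF of `good_iff`.  `mem`: `br_mem`.  `bt`: `b ∈ Tc N N₁ e 1`, so `b * t ∈ Tc N N₁ e 1` (`tc_mul`) and `b * t = t` iff `br P b * br P t = br P t`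
(`br_inj` for the difference, `br_mul`).  `inv`: `inv_iff`.  `dl`: `dl_iff`.
PROOF of `finrank_Fs`.  `exists_good_submodule` for `(N, K, N₁)` (`norm_N1`) and for `(N', L, C)` (`tri_br`, `norm_Cp`; `e' * b' = b'`: `br_mul`)
gives `W` and `W'`.  `br P` is linear (`resS_add`, `resS_smul`), maps `W` to `W'` (`good_iff`), is injective on `W` (`br_inj`) and its
image is `W'`: an element `t'` of `W'` is `br P t` with `t ∈ Tc N N₁ e 1` (`br_surj`) and `t ∈ W` by `good_iff`.  So the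
dimensions agree.  `Prm p N₁ x` follows from `Prm p C x`.
-/

namespace Pool.Agent.Lib.P0c8ca5.Dz

open MonoidAlgebra Ps Bq

variable {p : ℕ} {k : Type*} [Field k] {A : Type*} [Group A] {N K P : Subgroup A}
  {e : MonoidAlgebra k A}

namespace DIsoCAux

theorem mem_b (h : Par p N K P e) {b : MonoidAlgebra k A} (hb : SuppIn (N ⊔ Cp K P) b)
    (hbK : InvBy K b) (heb : e * b = b) : b ∈ Tc N (N ⊔ Cp K P) e 1 := by
  refine mem_Tc.2 ⟨fun z hz => ?_, hbK.mono h.tri.le, heb⟩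
  rw [inv_one, mul_one]
  exact hb z hz

theorem ln_le_tc {N X : Subgroup A} {e : MonoidAlgebra k A} (hNX : N ≤ X) {c : A} (hc : c ∈ X)
    {u : MonoidAlgebra k A} (hu : u ∈ Ln N e c) : u ∈ Tc N X e 1 := by
  obtain ⟨h1, h2, h3⟩ := mem_Ln.1 hu
  refine mem_Tc.2 ⟨fun z hz => ?_, h2, h3⟩
  have h4 := X.mul_mem (hNX (h1 z hz)) hc
  rw [inv_mul_cancel_right] at h4
  simpa using h4

end DIsoCAux

open DIsoCAux
open Bq.IsoCAux (brL)

theorem Par.good_iff [Fact p.Prime] [CharP k p] [IsAlgClosed k] [Fintype A]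
    (h : Par p N K P e) (hNP : K ≤ Subgroup.normalizer ((N ⊔ P : Subgroup A) : Set A))
    {b : MonoidAlgebra k A} (hb : SuppIn (N ⊔ Cp K P) b) (hbK : InvBy K b) (heb : e * b = b)
    {x : A} (hx : x ∈ Lp K P) (hxr : Prm p (Cp K P) x) {t : MonoidAlgebra k A}
    (ht : t ∈ Tc N (N ⊔ Cp K P) e 1) :
    Good p N K (N ⊔ Cp K P) e b x t ↔
      Good p (N ⊓ Subgroup.centralizer (P : Set A)) (Lp K P) (Cp K P) (br P e) (br P b) x
        (br P t) := by
  have hbT := mem_b h hb hbK heb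
  constructor
  · rintro ⟨h1, h2, h3, h4⟩
    refine ⟨h.br_mem ht, ?_, (h.inv_iff hNP hx hxr ht).1 h3, (h.dl_iff hx ht).1 h4⟩
    rw [← h.br_mul hbT ht, h2]
  · rintro ⟨h1, h2, h3, h4⟩
    refine ⟨ht, ?_, (h.inv_iff hNP hx hxr ht).2 h3, (h.dl_iff hx ht).2 h4⟩
    have h5 : br P (b * t - t) = 0 := by
      rw [DIsoAAux.br_sub, h.br_mul hbT ht, h2, sub_self]
    exact sub_eq_zero.1 (h.br_inj (Submodule.sub_mem _ (tc_mul h.tri hbT ht) ht) h5)

theorem Par.finrank_Fs [Fact p.Prime] [CharP k p] [IsAlgClosed k] [Fintype A]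
    (h : Par p N K P e) (hNP : K ≤ Subgroup.normalizer ((N ⊔ P : Subgroup A) : Set A))
    {b : MonoidAlgebra k A} (hb : SuppIn (N ⊔ Cp K P) b) (hbK : InvBy K b) (heb : e * b = b)
    {x : A} (hx : x ∈ Lp K P) (hxr : Prm p (Cp K P) x) :
    Module.finrank k ↥(Fs p K (N ⊔ Cp K P) b x)
      = Module.finrank k ↥(Fs p (Lp K P) (Cp K P) (br P b) x) := by
  have hbT := mem_b h hb hbK heb
  have heT : e ∈ Tc N (N ⊔ Cp K P) e 1 := ln_le_tc le_sup_left (one_mem _) (e_mem_Ln h.tri)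
  have heb' : br P e * br P b = br P b := by rw [← h.br_mul heT hbT, heb]
  have hN1 : N ⊔ Cp K P ≤ K := sup_le h.tri.le inf_le_left
  have hNC : N ⊓ Subgroup.centralizer (P : Set A) ≤ Cp K P := inf_le_inf_right _ h.tri.le
  have hCL : Cp K P ≤ Lp K P := inf_le_inf_left K (DIsoAAux.cent_le P)
  have hxr1 : Prm p (N ⊔ Cp K P) x := by
    obtain ⟨m, hm, hxm⟩ := hxr
    exact ⟨m, hm, Subgroup.mem_sup_right hxm⟩
  obtain ⟨W, hW, hWf⟩ := exists_good_submodule h.tri (le_sup_left : N ≤ N ⊔ Cp K P) hN1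
    (h.norm_N1 hNP) heb hx.1 hxr1
  obtain ⟨W', hW', hWf'⟩ := exists_good_submodule (tri_br h.tri h.PK h.PP h.hbr) hNC hCL
    (norm_Cp K P) heb' hx hxr
  rw [← hWf, ← hWf']
  have hmap : W' = W.map (brL P) := by
    ext t'
    rw [Submodule.mem_map]
    constructor
    · intro ht'
      have h1 := (hW' t').1 ht'
      obtain ⟨t, ht, rfl⟩ := h.br_surj h1.mem
      exact ⟨t, (hW t).2 ((h.good_iff hNP hb hbK heb hx hxr ht).2 h1), rfl⟩
    · rintro ⟨t, ht, rfl⟩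
      have h1 := (hW t).1 ht
      exact (hW' _).2 ((h.good_iff hNP hb hbK heb hx hxr h1.mem).1 h1)
  rw [hmap, ← LinearMap.range_domRestrict]
  symm
  apply LinearMap.finrank_range_of_inj
  intro t t' htt
  apply Subtype.ext
  have h1 := (hW _).1 t.2
  have h2 := (hW _).1 t'.2
  have h3 : br P (t : MonoidAlgebra k A) = br P t' := htt
  have h4 : br P ((t : MonoidAlgebra k A) - (t' : MonoidAlgebra k A)) = 0 := by rw [DIsoAAux.br_sub, h3, sub_self]
  exact sub_eq_zero.1 (h.br_inj (Submodule.sub_mem _ h1.mem h2.mem) h4)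

end Pool.Agent.Lib.P0c8ca5.Dz
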