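import Mathlib
import Pool.Agent.Lib.P0c8ca5D.BrNe
import Pool.Agent.Lib.P0c8ca5Q.Sup

/-!
# Module Sup: central idempotents below `e` are supported in `N ⊔ C_K(P)`

`L = Lp K P`, `C = Cp K P`, `N₁ = N ⊔ C`, `N' = N ⊓ C(P)`, `e' = br P e`.
PROOF of `br_fix`.  Support: `c` is supported in `K`, `br P c` in `C(P)`.  `L`-invariance: `br_cj` (P0c8ca5S.Tra), `c` is `K`-invariant.
Idempotent: `resS_mul` (`c` is `P`-invariant).  `e' * br P c = br P (e * c)`: `resS_mul`.
PROOF of `supp_N1`.  `br P c ∈ Tc N' C e' 1` (`br_fix`, `N' ≤ L`).  `br_surj` gives `i ∈ Tc N N₁ e 1` with `br P i = br P c`.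
(1) `cj l i = i` for `l ∈ L`: `cj l i ∈ Tc N N₁ e 1` (`l` normalizes `N` and `C`, `cj l e = e`), `br P (cj l i) = cj l (br P i) =
    cj l (br P c) = br P (cj l c) = br P c` (`br_cj`), so `br P (cj l i - i) = 0` and `br_inj` (`resS_add`, ...).  `i` is `N`-invariant; `K = N L`
    (`frat`, `cj_cj`); so `i` is `K`-invariant, `i ∈ fixAlg k K K`.
(2) `i * i = i`: `tc_mul`, `br P (i * i) = br P c * br P c = br P c` (`br_mul`, `resS_mul`), `br_inj`.
(3) `c * i = i * c` (`commute_of`).  `d = c - c * i` is an idempotent of `Z(kK)` with `e * d = d` and `br P d = br P c - br P c * br P i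
    = 0` (`resS_mul` for `c` and `i`, both are `P`-invariant), so `d = 0` by `br_idem_ne`; in the same way `i - c * i = 0`.  So `c = i`.
-/

namespace Pool.Agent.Lib.P0c8ca5.Dz

open MonoidAlgebra Ps Bq

variable {p : ℕ} {k : Type*} [Field k] {A : Type*} [Group A] {N K P : Subgroup A}
  {e : MonoidAlgebra k A}

namespace DSupAux

theorem br_sub (P : Subgroup A) (a b : MonoidAlgebra k A) :
    br P (a - b) = br P a - br P b := by
  rw [sub_eq_add_neg, ← neg_one_smul k b, br, resS_add, resS_smul, neg_one_smul,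
    ← sub_eq_add_neg]
  rfl

end DSupAux

theorem Par.br_fix [Fact p.Prime] [CharP k p] [IsAlgClosed k] [Fintype A] (h : Par p N K P e)
    {c : MonoidAlgebra k A} (hc : c ∈ fixAlg k K K) (hcc : c * c = c) (hec : e * c = c) :
    SuppIn (Cp K P) (br P c) ∧ InvBy (Lp K P) (br P c) ∧ br P c * br P c = br P c ∧
      br P e * br P c = br P c := by
  obtain ⟨hcs, hci⟩ := mem_fixAlg.1 hc
  have hcP : InvBy P c := hci.mono h.PK
  have heP : InvBy P e := h.tri.inv.mono h.PK
  refine ⟨resS_suppIn' hcs, ?_, ?_, ?_⟩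
  · rw [invBy_iff_cj]
    intro l hl
    rw [← br_cj hl.2, invBy_iff_cj.1 hci l hl.1]
  · rw [br, ← resS_mul h.PP hcP hcP, hcc]
  · rw [br, br, ← resS_mul h.PP heP hcP, hec]

theorem Par.supp_N1 [Fact p.Prime] [CharP k p] [IsAlgClosed k] [Fintype A]
    (h : Par p N K P e) (hNP : K ≤ Subgroup.normalizer ((N ⊔ P : Subgroup A) : Set A))
    {c : MonoidAlgebra k A} (hc : c ∈ fixAlg k K K) (hcc : c * c = c) (hec : e * c = c) :
    SuppIn (N ⊔ Cp K P) c := by
  obtain ⟨hcs, hci⟩ := mem_fixAlg.1 hc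
  have hcP : InvBy P c := hci.mono h.PK
  obtain ⟨f1, f2, f3, f4⟩ := h.br_fix hc hcc hec
  have hT : br P c ∈ Tc (N ⊓ Subgroup.centralizer (P : Set A)) (Cp K P) (br P e) 1 := by
    refine mem_Tc.2 ⟨fun z hz => ?_, f2.mono ?_, f4⟩
    · rw [inv_one, mul_one]
      exact f1 z hz
    · exact le_inf (inf_le_left.trans h.tri.le)
        (inf_le_right.trans (Subgroup.centralizer_le_normalizer _))
  obtain ⟨i, hi, hbi⟩ := h.br_surj hT
  obtain ⟨hi1, hi2, hi3⟩ := mem_Tc.1 hi
  have hi1' : SuppIn (N ⊔ Cp K P) i := by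
    intro z hz
    have h1 := hi1 z hz
    rwa [inv_one, mul_one] at h1
  have hNK : N ⊔ Cp K P ≤ K := sup_le h.tri.le inf_le_left
  have hzero : ∀ a ∈ Tc N (N ⊔ Cp K P) e 1, ∀ b ∈ Tc N (N ⊔ Cp K P) e 1,
      br P a = br P b → a = b := by
    intro a ha b hb hab
    have h1 := h.br_inj ((Tc N (N ⊔ Cp K P) e 1).sub_mem ha hb)
      (by rw [DSupAux.br_sub, hab, sub_self])
    exact sub_eq_zero.1 h1
  -- (1) `i` is `K`-invariant
  have hl : ∀ l ∈ Lp K P, cj l i = i := by
    intro l hl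
    have hce : cj l e = e := invBy_iff_cj.1 h.tri.inv l hl.1
    refine hzero _ ?_ _ hi ?_
    · refine mem_Tc.2 ⟨fun z hz => ?_, hi2.cj (h.tri.nm hl.1), ?_⟩
      · rw [inv_one, mul_one]
        exact hi1'.cj (h.norm_N1 hNP hl.1) z hz
      · have h2 : e * cj l i = cj l (e * i) := by rw [cj_mul, hce]
        rw [h2, hi3]
    · rw [br_cj hl.2, hbi, invBy_iff_cj.1 f2 l hl]
  have hiK : InvBy K i := by
    rw [invBy_iff_cj]
    intro x hx
    obtain ⟨n, hn, l, hl', rfl⟩ := h.frat hNP hx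
    rw [← cj_cj, hl l hl', invBy_iff_cj.1 hi2 n hn]
  have hiP : InvBy P i := hiK.mono h.PK
  have hif : i ∈ fixAlg k K K := mem_fixAlg.2 ⟨hi1'.mono hNK, hiK⟩
  -- (2) `i` is an idempotent
  have hii : i * i = i := by
    refine hzero _ (tc_mul h.tri hi hi) _ hi ?_
    rw [h.br_mul hi hi, hbi, f3]
  -- (3)
  have hcomm : i * c = c * i := commute_of (hi1'.mono hNK) hci
  have hbci : br P (c * i) = br P c := by
    rw [br, resS_mul h.PP hcP hiP]
    change br P c * br P i = br P c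
    rw [hbi, f3]
  have hci' : c * i ∈ fixAlg k K K := (fixAlg k K K).mul_mem hc hif
  have d1 : (c * i) * (c * i) = c * i := by
    calc (c * i) * (c * i) = c * (i * c) * i := by simp only [mul_assoc]
      _ = (c * c) * (i * i) := by rw [hcomm]; simp only [mul_assoc]
      _ = c * i := by rw [hcc, hii]
  have d2 : c * (c * i) = c * i := by rw [← mul_assoc, hcc]
  have d3 : (c * i) * c = c * i := by rw [mul_assoc, hcomm, d2]
  have d4 : (c * i) * i = c * i := by rw [mul_assoc, hii]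
  have d5 : i * (c * i) = c * i := by rw [← mul_assoc, hcomm, mul_assoc, hii]
  have e1 : c - c * i = 0 := by
    by_contra hne
    refine h.br_idem_ne hNP ((fixAlg k K K).sub_mem hc hci') ?_ ?_ hne ?_
    · rw [sub_mul, mul_sub, mul_sub, hcc, d1, d2, d3, sub_self, sub_zero]
    · rw [mul_sub, ← mul_assoc, hec]
    · rw [DSupAux.br_sub, hbci, sub_self]
  have e2 : i - c * i = 0 := by
    by_contra hne
    refine h.br_idem_ne hNP ((fixAlg k K K).sub_mem hif hci') ?_ ?_ hne ?_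
    · rw [sub_mul, mul_sub, mul_sub, hii, d1, d5, d4, sub_self, sub_zero]
    · rw [mul_sub, hi3, ← mul_assoc, hec]
    · rw [DSupAux.br_sub, hbci, hbi, sub_self]
  have e3 : c = i := by rw [sub_eq_zero.1 e1, ← sub_eq_zero.1 e2]
  rw [e3]
  exact hi1'

end Pool.Agent.Lib.P0c8ca5.Dz
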