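import Mathlib
import Pool.Agent.Lib.P0c8ca5G.Defs
import Pool.Agent.Lib.P0c8ca5Y.Red4
import Pool.Agent.Lib.P0c8ca5D.Fong
import Pool.Agent.Lib.P0c8ca5D.ExB
import Pool.Agent.Lib.P0c8ca5D.IrrB

/-!
# The step for a normal subgroup with a block of defect zero

`V` is a normal subgroup of `A` which properly contains the centre, `b` is a block of `A` and `e` is an `A`-invariant block of defect zero
of `V` with `e b = b`.  The blockwise weight conjecture for the smaller groups `BelowC p k A` implies it for `b` (`dz_step`).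

PROOF.  If `b` has defect zero: `base_zero`.  If `A / V` has a normal p-subgroup `Q ≠ 1`, let `P` be a lift of `Q` with nonzero Brauer map of
`e`; `P` is not normal in `A`, and `Par.weq_up` reduces the weight equality for `b` to that for `(N_A(P), Br_P(b))`.  Otherwise the
stabilizers in `A` of the nonempty chains of nontrivial p-subgroups of `A / V` are proper subgroups, and `Star.weq_of` (Fong) reduces the
weight equality for `b` to those for their blocks and for the blocks of the subgroups of `A'`, a central extension of `A / V` by a p'-group.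
-/

namespace Pool.Agent.Lib.P0c8ca5.Dz

open MonoidAlgebra Ps Bq Fg

universe u v

section

variable {p : ℕ} {k : Type*} [Field k] {A A' B : Type*} [Group A] [Group A'] [Group B]
  {φ : A →* B} {e : MonoidAlgebra k A} {φ' : A' →* B} {υ : A' → MonoidAlgebra k A}

theorem hasBr_iff [Fact p.Prime] [CharP k p] [IsAlgClosed k] [Fintype A] [Fintype A']
    (h : Star p φ e φ' υ) {b' : MonoidAlgebra k A'} (hb' : InvBy ⊤ b')
    (heb' : es φ' e υ * b' = b') {P : Subgroup A} (hP : IsPGroup p P) (hPe : HasBr P e)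
    {P' : Subgroup A'} (hP' : IsPGroup p P') (hPP : P.map φ = P'.map φ') :
    HasBr P' b' ↔ HasBr P (ex υ b') := by
  have h1 : b' ∈ Tc φ'.ker ⊤ (es φ' e υ) 1 :=
    ⟨fun _ _ => Subgroup.mem_top _, hb'.mono le_top, heb'⟩
  rw [h.cov'.hasBr_iff hP' h1, h.cov.hasBr_iff hP hPe (h.ex_mem b'), hPP]
  have h2 : ex υ (cutC φ' (P'.map φ') b') = cutC φ (P'.map φ') (ex υ b') :=
    h.ex_cut (Subgroup.centralizer ((P'.map φ' : Subgroup B) : Set B) : Set B) b'
  rw [← h2]
  have h3 := h.cov'.mul_cutC heb' (P'.map φ')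
  constructor
  · intro h4 h5
    exact h4 (h.ex_inj h3 (mul_zero _) (by rw [h5, map_zero]))
  · intro h4 h5
    rw [h5, map_zero] at h4
    exact h4 rfl

/-- the weight equality for a part over a chain -/
theorem weq_cut [Fact p.Prime] [CharP k p] [IsAlgClosed k] [Fintype A] (h : Cov p φ e)
    {b : MonoidAlgebra k A} (hb : InvBy ⊤ b) (hbb : b * b = b) (heb : e * b = b)
    {τ : Finset (Subgroup B)} (hτ : PCh p τ)
    (IH : ∀ c : MonoidAlgebra k A, IsBlock ((stab ⊤ τ).comap φ) c →
      NavarroEq p ((stab ⊤ τ).comap φ) ((stab ⊤ τ).comap φ) c) :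
    Cy.WEq p ((stab ⊤ τ).comap φ) (cutC φ (τ.sup id) b) := by
  have h1 : SuppIn ((stab ⊤ τ).comap φ) (cutC φ (τ.sup id) b) :=
    cutC_suppIn (cent_le_stab τ) b
  have h2 : InvBy ((stab ⊤ τ).comap φ) (cutC φ (τ.sup id) b) :=
    cutC_invBy (fun y hy => stab_le_norm_sup hτ.chain hy) (hb.mono le_top)
  have h3 := h.cutC_idem hb hbb heb (U := τ.sup id)
    (hτ.pgrp _ (sup_mem_chain hτ.ne hτ.chain)).1
  apply Cy.weq_of_blocks h1 h2 h3
  intro c hc _
  exact IH c hc

end

theorem isSection_quot {A : Type*} [Group A] {Z V : Subgroup A} [Z.Normal] [V.Normal] (h : Z ≤ V) :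
    IsSection (A ⧸ V) (A ⧸ Z) := by
  obtain ⟨f, hf⟩ := CsAux.exists_lift (QuotientGroup.mk' Z) (QuotientGroup.mk'_surjective Z)
    (QuotientGroup.mk' V) (by rw [QuotientGroup.ker_mk', QuotientGroup.ker_mk']; exact h)
  refine IsSection.of_surjective f ?_
  intro y
  obtain ⟨x, rfl⟩ := QuotientGroup.mk'_surjective V y
  exact ⟨QuotientGroup.mk' Z x, hf x⟩

/-- a subgroup that contains the centre, whose order is prime to `p` -/
theorem csec_subgroup {p : ℕ} {A : Type u} [Group A] [Finite A]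
    (hp : ¬ p ∣ Nat.card (Subgroup.center A)) (Y : Subgroup A) :
    CSec p Y (A ⧸ Subgroup.center A) := by
  have hker : ∀ x : Y, (QuotientGroup.mk' (Subgroup.center A)).subgroupMap Y x = 1 ↔
      (x : A) ∈ Subgroup.center A := by
    intro x
    rw [← QuotientGroup.eq_one_iff]
    constructor
    · intro h
      exact congrArg Subtype.val h
    · intro h
      exact Subtype.ext h
  refine ⟨Y.map (QuotientGroup.mk' (Subgroup.center A)), inferInstance,
    (QuotientGroup.mk' (Subgroup.center A)).subgroupMap Y,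
    (QuotientGroup.mk' (Subgroup.center A)).subgroupMap_surjective Y, ?_, ?_,
    IsSection.of_subgroup _⟩
  · intro x hx
    have h1 := (hker x).1 hx
    rw [Subgroup.mem_center_iff]
    intro y
    exact Subtype.ext (Subgroup.mem_center_iff.1 h1 y)
  · intro hd
    apply hp
    refine hd.trans ?_
    have h1 : ((QuotientGroup.mk' (Subgroup.center A)).subgroupMap Y).ker
        = (Subgroup.center A).subgroupOf Y := by
      ext x
      rw [MonoidHom.mem_ker, hker, Subgroup.mem_subgroupOf]
    rw [h1]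
    have h2 : ((Subgroup.center A).subgroupOf Y).map Y.subtype = Subgroup.center A ⊓ Y :=
      Subgroup.subgroupOf_map_subtype _ _
    have h3 : Nat.card ((Subgroup.center A).subgroupOf Y)
        = Nat.card (Subgroup.center A ⊓ Y : Subgroup A) := by
      rw [← h2]
      exact Nat.card_congr (((Subgroup.center A).subgroupOf Y).equivMapOfInjective _
        Y.subtype_injective).toEquiv
    rw [h3]
    exact Subgroup.card_dvd_of_le inf_le_left

/-- the proper subgroups that contain the centre are smaller -/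
theorem belowS_of_belowC {p : ℕ} [Fact p.Prime] {k : Type v} [Field k] [IsAlgClosed k] [CharP k p]
    {A : Type u} [Group A] [Finite A] (hp : ¬ p ∣ Nat.card (Subgroup.center A))
    (h : Gg.BelowC p k A) : Gg.BelowS p k A := by
  intro Y hZ hY b hb
  apply navarro_transport hb
  refine h Y ⟨csec_subgroup hp Y, ?_⟩ _ (dn_isBlock hb)
  have h1 := Subgroup.relIndex_mul_index hZ
  have h2 : (Subgroup.center Y).index ≤ (Subgroup.center A).relIndex Y :=
    Nat.le_of_dvd (Nat.pos_of_ne_zero (Subgroup.index_ne_zero_of_finite))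
      (Subgroup.index_dvd_of_le (Fg.CsAux.subgroupOf_center_le Y))
  refine lt_of_le_of_lt h2 ?_
  rw [← h1]
  have h3 : 0 < (Subgroup.center A).relIndex Y :=
    Nat.pos_of_ne_zero (Subgroup.index_ne_zero_of_finite)
  have h4 : Y.index ≠ 1 := fun h5 => hY (Subgroup.index_eq_one.1 h5)
  have h5 : Y.index ≠ 0 := Subgroup.index_ne_zero_of_finite
  exact lt_mul_of_one_lt_right h3 (by omega)

/-- the first case of the step: `A / V` has a normal p-subgroup -/
theorem weq_core {p : ℕ} [Fact p.Prime] {k : Type v} [Field k] [IsAlgClosed k] [CharP k p]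
    {A : Type u} [Group A] [Fintype A] {B : Type u} [Group B] {φ : A →* B}
    {e b : MonoidAlgebra k A} (hcov : Cov p φ e) (hb : IsBlock ⊤ b) (heb : e * b = b)
    (hcore : ∀ P : Subgroup A, P.Normal → IsPGroup p P → P = ⊥)
    {Q : Subgroup B} (hQn : Q.Normal) (hQ : IsPGroup p Q) (hQ1 : Q ≠ ⊥)
    (IH : Gg.BelowS p k A) : Cy.WEq p ⊤ b := by
  obtain ⟨P, hP, hPe, hPQ⟩ := hcov.exists_lift hQ
  have hpar : Par p φ.ker ⊤ P e := ⟨hcov.tri, le_top, hP, hPe⟩
  have hsup : φ.ker ⊔ P = Q.comap φ := by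
    rw [← hPQ, Subgroup.comap_map_eq, sup_comm]
  have hNP : (⊤ : Subgroup A) ≤ Subgroup.normalizer ((φ.ker ⊔ P : Subgroup A) : Set A) := by
    rw [hsup]
    have h1 : (Q.comap φ).Normal := hQn.comap φ
    rw [Subgroup.normalizer_eq_top]
  have hfix : b ∈ fixAlg k (⊤ : Subgroup A) ⊤ := hb.mem
  apply hpar.weq_up hNP hfix hb.idem heb
  obtain ⟨h1, h2, h3, h4⟩ := hpar.br_fix hfix hb.idem heb
  have hCL : Cp (⊤ : Subgroup A) P ≤ Lp ⊤ P :=
    inf_le_inf_left _ (Subgroup.centralizer_le_normalizer _)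
  apply Cy.weq_of_blocks (h1.mono hCL) h2 h3
  intro c hc _
  refine IH _ ?_ ?_ c hc
  · intro z hz
    refine Subgroup.mem_inf.2 ⟨Subgroup.mem_top z, ?_⟩
    apply Subgroup.centralizer_le_normalizer
    rw [Subgroup.mem_centralizer_iff]
    intro x _
    exact Subgroup.mem_center_iff.1 hz x
  · intro htop
    apply hQ1
    have h5 : P.Normal := by
      rw [← Subgroup.normalizer_eq_top_iff, eq_top_iff, ← htop]
      exact inf_le_right
    rw [← hPQ, hcore P h5 hP, Subgroup.map_bot]

/-- **the step** -/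
theorem dz_step {p : ℕ} [Fact p.Prime] {k : Type v} [Field k] [IsAlgClosed k] [CharP k p]
    {A : Type u} [Group A] [Finite A] {b : MonoidAlgebra k A} (hb : IsBlock ⊤ b)
    (hcore : ∀ P : Subgroup A, P.Normal → IsPGroup p P → P = ⊥)
    {V : Subgroup A} (hV : V.Normal) (hZV : Subgroup.center A < V)
    {e : MonoidAlgebra k A} (he : IsDZ p V e) (hinv : InvBy ⊤ e) (heb : e * b = b)
    (IH : Gg.BelowC p k A) : NavarroEq p ⊤ ⊤ b := by
  classical
  have : Fintype A := Fintype.ofFinite A
  by_cases hdz : IsDZ p ⊤ b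
  · exact Rk.base_zero hdz
  have IH1 : Gg.BelowS p k A := belowS_of_belowC (Fg.core_central hcore) IH
  apply Red2Aux.navarro_of_weq hb
  have hkV : (QuotientGroup.mk' V).ker = V := QuotientGroup.ker_mk' V
  have hcov : Cov p (QuotientGroup.mk' V) e :=
    { surj := QuotientGroup.mk'_surjective V
      tri := by
        rw [hkV]
        exact
          { le := le_top
            nm := fun x _ => mem_norm_of_normal V x
            dz := he
            inv := hinv } }
  by_cases hQ : ∃ Q : Subgroup (A ⧸ V), Q.Normal ∧ IsPGroup p Q ∧ Q ≠ ⊥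
  · obtain ⟨Q, h1, h2, h3⟩ := hQ
    exact weq_core hcov hb heb hcore h1 h2 h3 IH1
  push Not at hQ
  -- a nontrivial Brauer subgroup
  obtain ⟨P, hP, hPb, hPne⟩ : ∃ P : Subgroup A, IsPGroup p P ∧ HasBr P b ∧ P ≠ ⊥ := by
    by_contra hcon
    push Not at hcon
    exact hdz ⟨hb, fun P _ hP hbr => hcon P hP hbr⟩
  have hPe : HasBr P e := by
    have hcomm : b * e = b := by
      have h1 : e * b = b * e := commute_of (he.blk.suppIn.mono le_top) hb.invBy
      rw [← h1, heb]
    exact hasBr_of_mul (p := p) hP (hb.invBy.mono le_top) (hinv.mono le_top) hcomm hPb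
  obtain ⟨A', _, _, φ', υ, hst⟩ := exists_star hcov
  have : Fintype A' := Fintype.ofFinite A'
  obtain ⟨b', heb', hexb, hb'⟩ := hst.exists_block hb heb
  have hkc := hst.ker_central
  have hpos : 0 < (Subgroup.center A).relIndex V :=
    Nat.pos_of_ne_zero (Subgroup.index_ne_zero_of_finite)
  have hidx : Nat.card (A ⧸ V) < (Subgroup.center A).index := by
    have h1 := Subgroup.relIndex_mul_index hZV.le
    have h2 : (Subgroup.center A).relIndex V ≠ 1 := by
      intro h0
      exact not_le_of_gt hZV (Subgroup.relIndex_eq_one.1 h0)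
    have h4 : 0 < V.index := Nat.pos_of_ne_zero Subgroup.index_ne_zero_of_finite
    change V.index < _
    rw [← h1]
    exact lt_mul_of_one_lt_left h4 (by omega)
  have hsec : CSec p A' (A ⧸ Subgroup.center A) :=
    ⟨A ⧸ V, inferInstance, φ', hst.surj, hkc, hst.ker, isSection_quot hZV.le⟩
  have hA' : ∀ (Y : Subgroup A') (c : MonoidAlgebra k A'), IsBlock Y c → NavarroEq p Y Y c := by
    intro Y c hc
    apply navarro_transport hc
    refine IH Y ⟨CSec.of_section (IsSection.of_subgroup Y) hsec, ?_⟩ _ (dn_isBlock hc)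
    exact ((index_center_le (IsSection.of_subgroup Y)).trans
      (index_center_le_of hst.surj hkc)).trans_lt hidx
  have h1 : ∀ τ : Finset (Subgroup (A ⧸ V)), PCh p τ →
      Cy.WEq p ((stab ⊤ τ).comap (QuotientGroup.mk' V))
        (cutC (QuotientGroup.mk' V) (τ.sup id) (ex υ b')) := by
    intro τ hτ
    rw [hexb]
    apply weq_cut hcov hb.invBy hb.idem heb hτ
    intro c hc
    refine IH1 _ ?_ ?_ c hc
    · refine hZV.le.trans ?_
      intro x hx
      rw [← hkV] at hx
      exact Subgroup.ker_le_comap _ _ hx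
    · intro htop
      obtain ⟨Q, hQτ, hQmin⟩ := exists_least hτ.ne hτ.chain
      obtain ⟨hQp, hQne⟩ := hτ.pgrp Q hQτ
      apply hQne
      apply hQ Q _ hQp
      rw [← Subgroup.normalizer_eq_top_iff, eq_top_iff]
      intro y _
      obtain ⟨x, rfl⟩ := hcov.surj y
      have h2 : x ∈ (stab ⊤ τ).comap (QuotientGroup.mk' V) := by
        rw [htop]
        exact Subgroup.mem_top x
      exact stab_le_norm hQτ h2
  have h2 : ∀ τ : Finset (Subgroup (A ⧸ V)), PCh p τ →
      Cy.WEq p ((stab ⊤ τ).comap φ') (cutC φ' (τ.sup id) b') := by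
    intro τ hτ
    apply Red3Aux.weq_cut hst.cov' hb'.invBy hb'.idem heb' hτ
    intro c hc _
    exact hA' _ c hc
  have h3 : Cy.WEq p ⊤ b' := by
    apply Cy.weq_of_blocks (fun _ _ => Subgroup.mem_top _) hb'.invBy hb'.idem
    intro c hc _
    exact hA' _ c hc
  have h4 : wN p ⊤ ⊥ (ex υ b') = 0 := by
    rw [hexb]
    exact wN_zero hb hP hPne hPb
  have h5 : wN p ⊤ ⊥ b' = 0 := by
    obtain ⟨P', hP', hPm⟩ := Fg.exists_lift (p := p) hst.surj (hP.map (QuotientGroup.mk' V))
    apply wN_zero hb' hP' ?_ ((hasBr_iff hst hb'.invBy heb' hP hPe hP' hPm.symm).2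
      (by rw [hexb]; exact hPb))
    intro h0
    apply hPne
    rw [h0, Subgroup.map_bot] at hPm
    rw [eq_bot_iff]
    intro x hx
    rw [Subgroup.mem_bot]
    apply hcov.map_inj hP hPe hx
    have h6 : (QuotientGroup.mk' V) x ∈ P.map (QuotientGroup.mk' V) := ⟨x, hx, rfl⟩
    rw [← hPm] at h6
    exact Subgroup.mem_bot.1 h6
  have h6 := hst.weq_of hb'.invBy hb'.idem heb' h1 h2 h3 h4 h5
  rwa [hexb] at h6

/-- the block of a normal subgroup below a block which covers only one block -/
theorem inv_of_prim {p : ℕ} [Fact p.Prime] {k : Type v} [Field k] [IsAlgClosed k] [CharP k p]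
    {A : Type u} [Group A] [Finite A] {b : MonoidAlgebra k A} (hb : IsBlock ⊤ b)
    {N : Subgroup A} (hN : N.Normal) (hprim : ∃! c : MonoidAlgebra k A, IsBlock N c ∧ b * c ≠ 0)
    {e : MonoidAlgebra k A} (he : IsBlock N e) (hbe : b * e ≠ 0) :
    InvBy (⊤ : Subgroup A) e ∧ e * b = b := by
  have : Fintype A := Fintype.ofFinite A
  obtain ⟨e', -, huniq'⟩ := hprim
  have huniq : ∀ c : MonoidAlgebra k A, IsBlock N c → b * c ≠ 0 → c = e := by
    intro c hc hbc
    rw [huniq' c ⟨hc, hbc⟩, huniq' e ⟨he, hbe⟩]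
  have hinv : InvBy (⊤ : Subgroup A) e := by
    rw [invBy_iff_cj]
    intro g _
    apply huniq
    · exact orb_isBlock (K := ⊤) (fun x _ => mem_norm_of_normal N x) he _
        (mem_orb.2 ⟨g, Subgroup.mem_top g, rfl⟩)
    · intro h0
      apply hbe
      have h1 := congrArg (cj g⁻¹) h0
      rw [cj_mul, Fr.cj_top hb.mem, cj_cj, inv_mul_cancel, cj_one_left, cj_zero] at h1
      exact h1
  refine ⟨hinv, ?_⟩
  have hmem : e ∈ fixAlg k (⊤ : Subgroup A) ⊤ :=
    mem_fixAlg.2 ⟨fun _ _ => Subgroup.mem_top _, hinv⟩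
  rcases hb.mul_eq hmem he.idem with h | h
  · exfalso
    apply hbe
    rw [Fr.comm_top hb.mem e, h]
  · exact h

/-- **the step for reduced blocks** -/
theorem dz_step_reduced {p : ℕ} [Fact p.Prime] {k : Type v} [Field k] [IsAlgClosed k] [CharP k p]
    {A : Type u} [Group A] [Finite A] {b : MonoidAlgebra k A} (hb : Reduced4 p b)
    {V : Subgroup A} (hV : V.Normal) (hZV : Subgroup.center A < V)
    {e : MonoidAlgebra k A} (he : IsBlock V e) (hbe : b * e ≠ 0)
    (hdz : ∀ P : Subgroup A, P ≤ V → IsPGroup p P → HasBr P e → P = ⊥)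
    (IH : Gg.BelowC p k A) : NavarroEq p ⊤ ⊤ b := by
  obtain ⟨h1, h2⟩ := inv_of_prim (p := p) hb.block hV (hb.prim V hV) he hbe
  exact dz_step hb.block hb.core hV hZV ⟨he, hdz⟩ h1 h2 IH

end Pool.Agent.Lib.P0c8ca5.Dz
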