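import Mathlib
import Pool.Agent.Lib.P0c8ca5G.BelowP
import Pool.Agent.Lib.P0c8ca5D.DzS

/-!
# The step for a normal subgroup with a block of defect zero, with the control of the defect groups

As in `DzS`, with the weight conjecture only for the blocks under `b` (`BelowP`).
-/

set_option autoImplicit false

namespace Pool.Agent.Lib.P0c8ca5.Dz

open MonoidAlgebra Ps Bq Fg

universe u v

/-- the first case of the step: `A / V` has a normal p-subgroup -/
theorem weq_coreP {p : ℕ} [Fact p.Prime] {k : Type v} [Field k] [IsAlgClosed k] [CharP k p]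
    {A : Type u} [Group A] [Fintype A] {B : Type u} [Group B] {φ : A →* B}
    {e b : MonoidAlgebra k A} (hcov : Cov p φ e) (hb : IsBlock ⊤ b) (heb : e * b = b)
    (hcore : ∀ P : Subgroup A, P.Normal → IsPGroup p P → P = ⊥)
    {Q : Subgroup B} (hQn : Q.Normal) (hQ : IsPGroup p Q) (hQ1 : Q ≠ ⊥)
    (IH : Gg.BelowP p k A b) : Cy.WEq p ⊤ b := by
  obtain ⟨P, hP, hPe, hPQ⟩ := hcov.exists_lift hQ
  have hpar : Par p φ.ker ⊤ P e := ⟨hcov.tri, le_top, hP, hPe⟩
  have hsup : φ.ker ⊔ P = Q.comap φ := by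
    rw [← hPQ, Subgroup.comap_map_eq, sup_comm]
  have hNP : (⊤ : Subgroup A) ≤ Subgroup.normalizer ((φ.ker ⊔ P : Subgroup A) : Set A) := by
    rw [hsup]
    have h1 : (Q.comap φ).Normal := hQn.comap φ
    rw [Subgroup.normalizer_eq_top]
  have hfix : b ∈ fixAlg k (⊤ : Subgroup A) ⊤ := hb.mem
  apply hpar.weq_up hNP hfix hb.idem heb
  obtain ⟨h1, h2, h3, h4⟩ := hpar.br_fix hfix hb.idem heb
  have hCL : Cp (⊤ : Subgroup A) P ≤ Lp ⊤ P :=
    inf_le_inf_left _ (Subgroup.centralizer_le_normalizer _)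
  refine IH.weq (Fg.core_central hcore) ?_ ?_ (mem_fixAlg.2 ⟨h1.mono hCL, h2⟩) h3 ?_
  · intro z hz
    refine Subgroup.mem_inf.2 ⟨Subgroup.mem_top z, ?_⟩
    apply Subgroup.centralizer_le_normalizer
    rw [Subgroup.mem_centralizer_iff]
    intro x _
    exact Subgroup.mem_center_iff.1 hz x
  · intro htop
    apply hQ1
    have h5 : P.Normal := by
      rw [← Subgroup.normalizer_eq_top_iff, eq_top_iff, ← htop]
      exact inf_le_right
    rw [← hPQ, hcore P h5 hP, Subgroup.map_bot]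
  · intro P' _ _ h6
    exact Gg.hasBr_resS h6

/-- **the step** -/
theorem dz_stepP {p : ℕ} [Fact p.Prime] {k : Type v} [Field k] [IsAlgClosed k] [CharP k p]
    {A : Type u} [Group A] [Finite A] {b : MonoidAlgebra k A} (hb : IsBlock ⊤ b)
    (hcore : ∀ P : Subgroup A, P.Normal → IsPGroup p P → P = ⊥)
    {V : Subgroup A} (hV : V.Normal) (hZV : Subgroup.center A < V)
    {e : MonoidAlgebra k A} (he : IsDZ p V e) (hinv : InvBy ⊤ e) (heb : e * b = b)
    (IH : Gg.BelowP p k A b) : NavarroEq p ⊤ ⊤ b := by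
  classical
  have : Fintype A := Fintype.ofFinite A
  by_cases hdz : IsDZ p ⊤ b
  · exact Rk.base_zero hdz
  apply Red2Aux.navarro_of_weq hb
  have hkV : (QuotientGroup.mk' V).ker = V := QuotientGroup.ker_mk' V
  have hcov : Cov p (QuotientGroup.mk' V) e :=
    { surj := QuotientGroup.mk'_surjective V
      tri := by
        rw [hkV]
        exact
          { le := le_top
            nm := fun x _ => mem_norm_of_normal V x
            dz := he
            inv := hinv } }
  by_cases hQ : ∃ Q : Subgroup (A ⧸ V), Q.Normal ∧ IsPGroup p Q ∧ Q ≠ ⊥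
  · obtain ⟨Q, h1, h2, h3⟩ := hQ
    exact weq_coreP hcov hb heb hcore h1 h2 h3 IH
  push Not at hQ
  -- a nontrivial Brauer subgroup
  obtain ⟨P, hP, hPb, hPne⟩ : ∃ P : Subgroup A, IsPGroup p P ∧ HasBr P b ∧ P ≠ ⊥ := by
    by_contra hcon
    push Not at hcon
    exact hdz ⟨hb, fun P _ hP hbr => hcon P hP hbr⟩
  have hPe : HasBr P e := by
    have hcomm : b * e = b := by
      have h1 : e * b = b * e := commute_of (he.blk.suppIn.mono le_top) hb.invBy
      rw [← h1, heb]
    exact hasBr_of_mul (p := p) hP (hb.invBy.mono le_top) (hinv.mono le_top) hcomm hPb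
  obtain ⟨A', _, _, φ', υ, hst⟩ := exists_star hcov
  have : Fintype A' := Fintype.ofFinite A'
  obtain ⟨b', heb', hexb, hb'⟩ := hst.exists_block hb heb
  have hkc := hst.ker_central
  have hpos : 0 < (Subgroup.center A).relIndex V :=
    Nat.pos_of_ne_zero (Subgroup.index_ne_zero_of_finite)
  have hidx : Nat.card (A ⧸ V) < (Subgroup.center A).index := by
    have h1 := Subgroup.relIndex_mul_index hZV.le
    have h2 : (Subgroup.center A).relIndex V ≠ 1 := by
      intro h0
      exact not_le_of_gt hZV (Subgroup.relIndex_eq_one.1 h0)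
    have h4 : 0 < V.index := Nat.pos_of_ne_zero Subgroup.index_ne_zero_of_finite
    change V.index < _
    rw [← h1]
    exact lt_mul_of_one_lt_left h4 (by omega)
  -- the groups over the Brauer subgroups of `b'`
  have hover : ∀ P' : Subgroup A', IsPGroup p P' → HasBr P' b' →
      ∃ P₁ : Subgroup A, IsPGroup p P₁ ∧ HasBr P₁ b ∧
        P'.map φ' ≤ P₁.map (QuotientGroup.mk' V) := by
    intro P' hP' hbr'
    obtain ⟨P₁, h1, h2, h3⟩ := hcov.exists_lift (hP'.map φ')
    refine ⟨P₁, h1, ?_, h3.ge⟩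
    have h4 := (hasBr_iff hst hb'.invBy heb' h1 h2 hP' h3).1 hbr'
    rwa [hexb] at h4
  have hA' : ∀ (Y : Subgroup A') (c : MonoidAlgebra k A'), c ∈ fixAlg k Y Y → c * c = c →
      (∀ P' : Subgroup A', HasBr P' c → HasBr P' b') → Cy.WEq p Y c := by
    intro Y c hc hcc hcb
    refine IH.quot hZV.le hkc hst.ker ?_ hc hcc (fun P' _ h1 h2 => hover P' h1 (hcb P' h2))
    exact ((index_center_le (IsSection.of_subgroup Y)).trans
      (index_center_le_of hst.surj hkc)).trans_lt hidx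
  have h1 : ∀ τ : Finset (Subgroup (A ⧸ V)), PCh p τ →
      Cy.WEq p ((stab ⊤ τ).comap (QuotientGroup.mk' V))
        (cutC (QuotientGroup.mk' V) (τ.sup id) (ex υ b')) := by
    intro τ hτ
    rw [hexb]
    have g1 : SuppIn ((stab ⊤ τ).comap (QuotientGroup.mk' V))
        (cutC (QuotientGroup.mk' V) (τ.sup id) b) := cutC_suppIn (cent_le_stab τ) b
    have g2 : InvBy ((stab ⊤ τ).comap (QuotientGroup.mk' V))
        (cutC (QuotientGroup.mk' V) (τ.sup id) b) :=
      cutC_invBy (fun y hy => stab_le_norm_sup hτ.chain hy) (hb.invBy.mono le_top)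
    have g3 := hcov.cutC_idem hb.invBy hb.idem heb (U := τ.sup id)
      (hτ.pgrp _ (sup_mem_chain hτ.ne hτ.chain)).1
    refine IH.weq (Fg.core_central hcore) ?_ ?_ (mem_fixAlg.2 ⟨g1, g2⟩) g3
      (fun P' _ _ h6 => Gg.hasBr_resS h6)
    · refine hZV.le.trans ?_
      intro x hx
      rw [← hkV] at hx
      exact Subgroup.ker_le_comap _ _ hx
    · intro htop
      obtain ⟨Q, hQτ, hQmin⟩ := exists_least hτ.ne hτ.chain
      obtain ⟨hQp, hQne⟩ := hτ.pgrp Q hQτ
      apply hQne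
      apply hQ Q _ hQp
      rw [← Subgroup.normalizer_eq_top_iff, eq_top_iff]
      intro y _
      obtain ⟨x, rfl⟩ := hcov.surj y
      have h2 : x ∈ (stab ⊤ τ).comap (QuotientGroup.mk' V) := by
        rw [htop]
        exact Subgroup.mem_top x
      exact stab_le_norm hQτ h2
  have h2 : ∀ τ : Finset (Subgroup (A ⧸ V)), PCh p τ →
      Cy.WEq p ((stab ⊤ τ).comap φ') (cutC φ' (τ.sup id) b') := by
    intro τ hτ
    have g1 : SuppIn ((stab ⊤ τ).comap φ') (cutC φ' (τ.sup id) b') :=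
      cutC_suppIn (cent_le_stab τ) b'
    have g2 : InvBy ((stab ⊤ τ).comap φ') (cutC φ' (τ.sup id) b') :=
      cutC_invBy (fun y hy => stab_le_norm_sup hτ.chain hy) (hb'.invBy.mono le_top)
    have g3 := hst.cov'.cutC_idem hb'.invBy hb'.idem heb' (U := τ.sup id)
      (hτ.pgrp _ (sup_mem_chain hτ.ne hτ.chain)).1
    exact hA' _ _ (mem_fixAlg.2 ⟨g1, g2⟩) g3 (fun P' h6 => Gg.hasBr_resS h6)
  have h3 : Cy.WEq p ⊤ b' :=
    hA' ⊤ b' (mem_fixAlg.2 ⟨fun _ _ => Subgroup.mem_top _, hb'.invBy⟩) hb'.idem (fun _ h => h)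
  have h4 : wN p ⊤ ⊥ (ex υ b') = 0 := by
    rw [hexb]
    exact wN_zero hb hP hPne hPb
  have h5 : wN p ⊤ ⊥ b' = 0 := by
    obtain ⟨P', hP', hPm⟩ := Fg.exists_lift (p := p) hst.surj (hP.map (QuotientGroup.mk' V))
    apply wN_zero hb' hP' ?_ ((hasBr_iff hst hb'.invBy heb' hP hPe hP' hPm.symm).2
      (by rw [hexb]; exact hPb))
    intro h0
    apply hPne
    rw [h0, Subgroup.map_bot] at hPm
    rw [eq_bot_iff]
    intro x hx
    rw [Subgroup.mem_bot]
    apply hcov.map_inj hP hPe hx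
    have h6 : (QuotientGroup.mk' V) x ∈ P.map (QuotientGroup.mk' V) := ⟨x, hx, rfl⟩
    rw [← hPm] at h6
    exact Subgroup.mem_bot.1 h6
  have h6 := hst.weq_of hb'.invBy hb'.idem heb' h1 h2 h3 h4 h5
  rwa [hexb] at h6

/-- **the step for reduced blocks** -/
theorem dz_stepP_reduced {p : ℕ} [Fact p.Prime] {k : Type v} [Field k] [IsAlgClosed k]
    [CharP k p]
    {A : Type u} [Group A] [Finite A] {b : MonoidAlgebra k A} (hb : Reduced4 p b)
    {V : Subgroup A} (hV : V.Normal) (hZV : Subgroup.center A < V)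
    {e : MonoidAlgebra k A} (he : IsBlock V e) (hbe : b * e ≠ 0)
    (hdz : ∀ P : Subgroup A, P ≤ V → IsPGroup p P → HasBr P e → P = ⊥)
    (IH : Gg.BelowP p k A b) : NavarroEq p ⊤ ⊤ b := by
  obtain ⟨h1, h2⟩ := inv_of_prim (p := p) hb.block hV (hb.prim V hV) he hbe
  exact dz_stepP hb.block hb.core hV hZV ⟨he, hdz⟩ h1 h2 IH

end Pool.Agent.Lib.P0c8ca5.Dz
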